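import Pool.Agent.Q78.UW.ArW4

set_option autoImplicit false

/-! Laws of the normalised area of polygons in random domains. -/

namespace Q78.UW.Po

open Finset Filter Topology MeasureTheory TH966.AK Q294.Av Q294.Rs
open Pool.Agent.H924P (IsLoop area Encl Above)
open scoped Classical

noncomputable section

/-- the error is small if the probability is not too small -/
theorem small_err (C : ℝ) (hC : 0 < C) : ∃ (δ : ℝ) (N : ℕ), 0 < δ ∧ 2 ≤ N ∧
    ∀ (n : ℕ) (p : ℝ), N ≤ n → Real.exp (-δ * n) ≤ p →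
      C * √((Real.log (1 / p) + Real.log n ^ 2) / n) ≤ 1 / 2 := by
  obtain ⟨N3, hN3⟩ := eventually_atTop.1
    (Q78.UR.log_sq_div.eventually_le_const (show (0 : ℝ) < 1 / (8 * C ^ 2) by positivity))
  refine ⟨1 / (8 * C ^ 2), max N3 2, by positivity, le_max_right _ _, ?_⟩
  intro n p hn hp
  have hn3 : N3 ≤ n := (le_max_left _ _).trans hn
  have hn2 : 2 ≤ n := (le_max_right _ _).trans hn
  have hn0 : (0 : ℝ) < n := by exact_mod_cast (show 0 < n by omega)
  have h7 : Real.log (1 / p) ≤ 1 / (8 * C ^ 2) * n := by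
    rw [one_div, Real.log_inv]
    have h8 := Real.log_le_log (Real.exp_pos _) hp
    rw [Real.log_exp] at h8
    linarith
  have h9 : Real.log n ^ 2 / n ≤ 1 / (8 * C ^ 2) := hN3 n hn3
  have h10 : (Real.log (1 / p) + Real.log n ^ 2) / n ≤ (1 / (2 * C)) ^ 2 := by
    rw [add_div]
    have h11 : Real.log (1 / p) / n ≤ 1 / (8 * C ^ 2) := by
      rw [div_le_iff₀ hn0]
      exact h7
    have h12 : (1 / (2 * C)) ^ 2 = 1 / (8 * C ^ 2) + 1 / (8 * C ^ 2) := by
      field_simp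
      norm_num
    rw [h12]
    exact add_le_add h11 h9
  have h14 := Real.sqrt_le_sqrt h10
  rw [Real.sqrt_sq (by positivity)] at h14
  have h15 := mul_le_mul_of_nonneg_left h14 hC.le
  refine h15.trans (le_of_eq ?_)
  field_simp

/-- the conditional mean area -/
def mA {Ω : Type} [MeasurableSpace Ω] (ν : Measure Ω) (D : Ω → P → Prop) (n : ℕ) : ℝ :=
  XX Q78.UR.Sq.A ν (fun ω => RD (D ω)) (fun _ => aq 1) (2 * n - 1) / Fp ν D n

/-- **the laws of the area and of the normalised area** -/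
theorem law_norm (L : ℝ) (hL : 0 ≤ L) : ∃ (C δ : ℝ) (N : ℕ), 0 < C ∧ 0 < δ ∧ 2 ≤ N ∧
    ∀ (Ω : Type) [MeasurableSpace Ω] (ν : Measure Ω) [IsProbabilityMeasure ν]
      (D : Ω → P → Prop), (∀ x, MeasurableSet {ω | D ω x}) →
      ∀ n, N ≤ n → Real.exp (-δ * n) ≤ Pl ν D n →
        0 < Fp ν D n ∧ 0 < mA ν D n ∧ 0 < mA ν D (n + 1) ∧
        ∀ D' : Ω → P → Prop, (∀ x, MeasurableSet {ω | D' ω x}) → (∀ ω x, D' ω x → D ω x) →
          ∀ g : Ω → ℝ → ℝ, (∀ ω, Tst L (g ω)) → (∀ x, Measurable fun ω => g ω x) →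
            (∀ a, 0 < a →
            |XX Q78.UR.Sq.A ν (fun ω => RD (D' ω)) (ag fun ω x => g ω (x / a)) (2 * (n + 1) - 1) /
                Fp ν D (n + 1) -
              XX Q78.UR.Sq.A ν (fun ω => RD (D' ω)) (ag fun ω x => g ω (x / a)) (2 * n - 1) /
                Fp ν D n| ≤ C * √((Real.log (1 / Pl ν D n) + Real.log n ^ 2) / n)) ∧
            |XX Q78.UR.Sq.A ν (fun ω => RD (D' ω)) (ag fun ω x => g ω (x / mA ν D (n + 1)))
                (2 * (n + 1) - 1) / Fp ν D (n + 1) -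
              XX Q78.UR.Sq.A ν (fun ω => RD (D' ω)) (ag fun ω x => g ω (x / mA ν D n))
                (2 * n - 1) / Fp ν D n| ≤ C * √((Real.log (1 / Pl ν D n) + Real.log n ^ 2) / n) := by
  obtain ⟨C1, δ1, N1, hC1, hδ1, hN1, h1⟩ := law_scaled L hL
  obtain ⟨C2, δ2, N2, hC2, hδ2, hN2, h2⟩ := area_main 1
  obtain ⟨δ3, N3, hδ3, hN3, h3⟩ := small_err C2 hC2
  refine ⟨C1 + L * (2 * C2), min δ1 (min δ2 δ3), max N1 (max N2 N3), by positivity,
    lt_min hδ1 (lt_min hδ2 hδ3), hN1.trans (le_max_left _ _), ?_⟩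
  intro Ω _ ν _ D hD n hn hp
  have hn1 : N1 ≤ n := (le_max_left _ _).trans hn
  have hn2 : N2 ≤ n := ((le_max_left _ _).trans (le_max_right _ _)).trans hn
  have hn3 : N3 ≤ n := ((le_max_right _ _).trans (le_max_right _ _)).trans hn
  have hn0 : (0 : ℝ) ≤ n := Nat.cast_nonneg _
  have hpp : ∀ δ' : ℝ, min δ1 (min δ2 δ3) ≤ δ' → Real.exp (-δ' * n) ≤ Pl ν D n := by
    intro δ' hδ'
    refine le_trans (Real.exp_le_exp.2 ?_) hp
    have := mul_le_mul_of_nonneg_right hδ' hn0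
    linarith
  obtain ⟨a1, a2⟩ := h1 Ω ν D hD n hn1 (hpp _ (min_le_left _ _))
  obtain ⟨-, b2⟩ := h2 Ω ν D hD n hn2 (hpp _ ((min_le_right _ _).trans (min_le_left _ _)))
  have c1 := h3 n (Pl ν D n) hn3 (hpp _ ((min_le_right _ _).trans (min_le_right _ _)))
  obtain ⟨b3, b4, -⟩ := b2 1 zero_le_one (by norm_num)
  obtain ⟨er, her⟩ : ∃ er, er = √((Real.log (1 / Pl ν D n) + Real.log n ^ 2) / n) := ⟨_, rfl⟩
  have her0 : 0 ≤ er := by rw [her]; exact Real.sqrt_nonneg _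
  rw [← her] at b4 c1 a2 ⊢
  have hm0 : 0 < mA ν D n := div_pos b3 a1
  change |mA ν D (n + 1) / mA ν D n - 1| ≤ C2 * er at b4
  have hr : 0 < mA ν D (n + 1) / mA ν D n := by
    have := (abs_le.1 (b4.trans c1)).1
    linarith
  have hm1 : 0 < mA ν D (n + 1) := (div_pos_iff_of_pos_right hm0).1 hr
  refine ⟨a1, hm0, hm1, fun D' hD' hsub g hg hm => ⟨fun a ha => ?_, ?_⟩⟩
  · refine (a2 D' hD' hsub g hg hm a a ha ha).trans ?_
    rw [sub_self, abs_zero, mul_zero, add_zero, add_mul]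
    have : 0 ≤ L * (2 * C2) * er := by positivity
    linarith
  · refine (a2 D' hD' hsub g hg hm (mA ν D n) (mA ν D (n + 1)) hm0 hm1).trans ?_
    have h4 : |Real.log (mA ν D (n + 1)) - Real.log (mA ν D n)| ≤ 2 * (C2 * er) := by
      rw [← Real.log_div hm1.ne' hm0.ne']
      exact log_near (by positivity) hr b4 c1
    have h5 := mul_le_mul_of_nonneg_left h4 hL
    linarith

end

end Q78.UW.Po
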