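import Pool.Agent.Q78.UW.Alg
import Pool.Agent.Q78.UW.ArW5

set_option autoImplicit false

/-! Joint moments and joint laws of several weights of walks in random domains. -/

namespace Q78.UW

open Finset Filter Topology MeasureTheory TH966.AK Q294.Av Q294.Rs
open scoped Classical

noncomputable section

variable {A : P → P → Prop} {Z : Rule A} {μ K : ℝ}

theorem fr_mono {R : P → P → Prop} {κ κ' : ℝ} {m m' : ℕ} {f : List P → ℝ} (h : Fr Z R κ m f)
    (hκ : κ ≤ κ') (hm : m ≤ m') : Fr Z R κ' m' f :=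
  ⟨⟨h.aw.1, fun n w hn hw => (h.aw.2 n w hn hw).trans
      (mul_le_mul_of_nonneg_right hκ (h.aw.1 _ w hw))⟩, h.ge, fun n w hw =>
    (h.le n w hw).trans (pow_le_pow_right₀ (by
      have : (0 : ℝ) ≤ n := Nat.cast_nonneg n
      linarith) hm)⟩

/-- products of several weights -/
theorem fr_prod (κ : ℝ) (hκ : 0 ≤ κ) (m : ℕ) (hs : 1 ≤ Z.s) : ∀ j : ℕ, ∃ κ' : ℝ, 0 ≤ κ' ∧
    ∀ (R : P → P → Prop) (f : Fin j → List P → ℝ), (∀ i, Fr Z R κ m (f i)) →
      Fr Z R κ' (m * j) (fun w => ∏ i, f i w) := by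
  intro j
  induction j with
  | zero =>
    refine ⟨0, le_rfl, fun R f _ => ?_⟩
    have h := fr_one Z R (m * 0) 0 le_rfl
    have e : (fun w => ∏ i, f i w) = fun _ => (1 : ℝ) := by
      funext w
      simp
    rw [e]
    exact h
  | succ j ih =>
    obtain ⟨κ', hκ', h⟩ := ih
    refine ⟨(1 + κ') * κ + κ', by positivity, fun R f hf => ?_⟩
    have h1 := fr_mul hκ' (hf 0) (h R (fun i => f i.succ) (fun i => hf i.succ)) hs
    have e : (fun w => ∏ i, f i w) = fun w => f 0 w * ∏ i : Fin j, f i.succ w := by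
      funext w
      exact Fin.prod_univ_succ _
    rw [e, show m * (j + 1) = m + m * j by ring]
    exact h1

theorem XX_monoR {Ω : Type} [MeasurableSpace Ω] (ν : Measure Ω) [IsProbabilityMeasure ν]
    {R R' : Ω → P → P → Prop} (hR : ∀ e x, MeasurableSet {ω | R ω e x})
    (hR' : ∀ e x, MeasurableSet {ω | R' ω e x}) (hsub : ∀ ω e x, R' ω e x → R ω e x)
    {f f' : Ω → List P → ℝ} {κ κ' : ℝ} {m m' : ℕ}
    (hf : ∀ ω, Fr Z (R ω) κ m (f ω)) (hm : ∀ w, Measurable fun ω => f ω w)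
    (hf' : ∀ ω, Fr Z (R' ω) κ' m' (f' ω)) (hm' : ∀ w, Measurable fun ω => f' ω w)
    (hle : ∀ ω w, f' ω w ≤ f ω w) (n : ℕ) : XX A ν R' f' n ≤ XX A ν R f n := by
  unfold XX
  refine integral_mono (integrable_WR ν hR' hf' hm' n) (integrable_WR ν hR hf hm n) fun ω => ?_
  show WR A (R' ω) (f' ω) n ≤ WR A (R ω) (f ω) n
  unfold WR
  have h1 : KR A (R' ω) n ⊆ KR A (R ω) n := by
    intro w hw
    rw [mem_KR] at hw ⊢
    exact ⟨hw.1, fun x hx => hsub _ _ _ (hw.2 x hx)⟩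
  calc ∑ w ∈ KR A (R' ω) n, f' ω w ≤ ∑ w ∈ KR A (R' ω) n, f ω w := sum_le_sum fun w _ => hle ω w
    _ ≤ ∑ w ∈ KR A (R ω) n, f ω w :=
        sum_le_sum_of_subset_of_nonneg h1 fun w hw _ => (hf ω).aw.1 n w hw

/-- **means and nested laws, general form** -/
theorem gen_main (G : Growth Z μ K) (mm : ℕ) (κ : ℝ) (hκ : 0 ≤ κ) :
    ∃ (C δ : ℝ) (N : ℕ), 0 < C ∧ 0 < δ ∧ 3 ≤ N ∧
    ∀ (Ω : Type) [MeasurableSpace Ω] (ν : Measure Ω) [IsProbabilityMeasure ν]
      (R : Ω → P → P → Prop), (∀ e x, MeasurableSet {ω | R ω e x}) →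
      ∀ n, N ≤ n → Real.exp (-δ * n) ≤ Q78.UR.PP A ν R n →
        0 < Q78.UR.FF A ν R n ∧ 0 < Q78.UR.FF A ν R (n + Z.s) ∧
        C * √((Real.log (1 / Q78.UR.PP A ν R n) + Real.log n ^ 2) / n) ≤ 1 / 2 ∧
        ∀ f : Ω → List P → ℝ, (∀ ω, Fr Z (R ω) κ mm (f ω)) → (∀ w, Measurable fun ω => f ω w) →
          0 < XX A ν R f n ∧ 0 < XX A ν R f (n + Z.s) ∧
          |(XX A ν R f (n + Z.s) / Q78.UR.FF A ν R (n + Z.s)) /
            (XX A ν R f n / Q78.UR.FF A ν R n) - 1| ≤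
            C * √((Real.log (1 / Q78.UR.PP A ν R n) + Real.log n ^ 2) / n) ∧
          ∀ R' : Ω → P → P → Prop, (∀ e x, MeasurableSet {ω | R' ω e x}) → ∀ f' : Ω → List P → ℝ,
            (∀ ω, Fr Z (R' ω) κ mm (f' ω)) → (∀ w, Measurable fun ω => f' ω w) →
            (∀ n, XX A ν R' f' n ≤ XX A ν R f n) →
            |XX A ν R' f' (n + Z.s) / XX A ν R f (n + Z.s) - XX A ν R' f' n / XX A ν R f n| ≤
              C * √((Real.log (1 / Q78.UR.PP A ν R n) + Real.log n ^ 2) / n) := by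
  obtain ⟨C1, δ1, N1, hC1, hδ1, hN1, h1⟩ := ratiosW G mm κ hκ
  obtain ⟨C2, δ2, N2, hC2, hδ2, hN2, h2⟩ := meansW G mm κ hκ
  obtain ⟨δ3, N3, hδ3, hN3, h3⟩ := b_ok G (lt_min hδ1 hδ2)
  obtain ⟨δ4, N4, hδ4, hN4, h4⟩ := Po.small_err (max C1 C2) (lt_max_of_lt_left hC1)
  have hμ : 0 < μ := by linarith [G.hμ]
  refine ⟨max C1 C2, min δ3 δ4, max (max N1 N2) (max N3 N4), lt_max_of_lt_left hC1,
    lt_min hδ3 hδ4, (hN1.trans (le_max_left _ _)).trans (le_max_left _ _), ?_⟩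
  intro Ω _ ν _ R hR n hn hp
  have hn1 : N1 ≤ n := ((le_max_left _ _).trans (le_max_left _ _)).trans hn
  have hn2 : N2 ≤ n := ((le_max_right _ _).trans (le_max_left _ _)).trans hn
  have hn3 : N3 ≤ n := ((le_max_left _ _).trans (le_max_right _ _)).trans hn
  have hn4 : N4 ≤ n := ((le_max_right _ _).trans (le_max_right _ _)).trans hn
  have hn0 : (0 : ℝ) ≤ n := Nat.cast_nonneg n
  have hpp : ∀ δ' : ℝ, min δ3 δ4 ≤ δ' → Real.exp (-δ' * n) ≤ Q78.UR.PP A ν R n := by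
    intro δ' hδ'
    refine le_trans (Real.exp_le_exp.2 ?_) hp
    have := mul_le_mul_of_nonneg_right hδ' hn0
    linarith
  obtain ⟨b1, b2, b3⟩ := h3 Ω ν R hR n hn3 (hpp _ (min_le_left _ _))
  have c1 := h4 n _ hn4 (hpp _ (min_le_right _ _))
  obtain ⟨er, her⟩ : ∃ er, er = √((Real.log (1 / Q78.UR.PP A ν R n) + Real.log n ^ 2) / n) :=
    ⟨_, rfl⟩
  have her0 : 0 ≤ er := by rw [her]; exact Real.sqrt_nonneg _
  have d1 : C1 * er ≤ max C1 C2 * er := mul_le_mul_of_nonneg_right (le_max_left _ _) her0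
  have d2 : C2 * er ≤ max C1 C2 * er := mul_le_mul_of_nonneg_right (le_max_right _ _) her0
  have b2' := b2.trans (mul_le_mul_of_nonneg_right (min_le_left δ1 δ2) hn0)
  have b2'' := b2.trans (mul_le_mul_of_nonneg_right (min_le_right δ1 δ2) hn0)
  have e1 := h1 Ω ν R hR (fun _ _ => 1) (fun ω => fr_one Z (R ω) mm κ hκ)
    (fun _ => measurable_const) n hn1 _ b1 b2' b3
  rw [XX_one, XX_one, ← her] at e1
  rw [← her] at c1 ⊢
  obtain ⟨f0, f1, -⟩ := e1
  have g0 : 0 < Q78.UR.FF A ν R (n + Z.s) := by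
    have := (abs_le.1 ((f1.trans d1).trans c1)).1
    have h17 : 0 < Q78.UR.FF A ν R (n + Z.s) / (μ ^ Z.s * Q78.UR.FF A ν R n) := by linarith
    exact (div_pos_iff_of_pos_right (by positivity)).1 h17
  refine ⟨f0, g0, c1, fun f hf hm => ?_⟩
  obtain ⟨i1, -, i3⟩ := h1 Ω ν R hR f hf hm n hn1 _ b1 b2' b3
  obtain ⟨-, -, j3⟩ := h2 Ω ν R hR f hf hm n hn2 _ b1 b2'' b3
  rw [← her] at i3 j3
  refine ⟨i1, g0.trans_le (XX_ge ν hR hf hm _ (by omega)), j3.trans d2,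
    fun R' hR' f' hf' hm' hle => (i3 R' hR' f' hf' hm' hle).trans d1⟩

/-- the test weight -/
def tw {Ω : Type} {j : ℕ} (f : Fin j → List P → ℝ) (g : Ω → P → (Fin j → ℝ) → ℝ) (ω : Ω)
    (w : List P) : ℝ := g ω (lst w) (fun i => f i w)

/-- the positive test weight -/
def tp {Ω : Type} {j : ℕ} (f : Fin j → List P → ℝ) (g : Ω → P → (Fin j → ℝ) → ℝ) (ω : Ω)
    (w : List P) : ℝ := 1 + (1 + tw f g ω w) / 2

theorem tp_le {Ω : Type} {j : ℕ} {L : ℝ} (f : Fin j → List P → ℝ) (g : Ω → P → (Fin j → ℝ) → ℝ)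
    (hg : ∀ ω, TstJ L (g ω)) (ω : Ω) (w : List P) : tp f g ω w ≤ 2 := by
  unfold tp tw
  have := (abs_le.1 ((hg ω).1 (lst w) (fun i => f i w))).2
  linarith

theorem int_tw {Ω : Type} [MeasurableSpace Ω] (ν : Measure Ω) [IsProbabilityMeasure ν]
    {R : Ω → P → P → Prop} (hR : ∀ e x, MeasurableSet {ω | R ω e x}) {κ : ℝ} (hκ : 0 ≤ κ) {L : ℝ}
    (hL : 0 ≤ L) (hs : 1 ≤ Z.s) {j m : ℕ} {f : Fin j → List P → ℝ}
    (hf : ∀ ω i, Fr Z (R ω) κ m (f i)) {g : Ω → P → (Fin j → ℝ) → ℝ} (hg : ∀ ω, TstJ L (g ω))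
    (hm : ∀ e x, Measurable fun ω => g ω e x) (n : ℕ) :
    Integrable (fun ω => WR A (R ω) (tw f g ω) n) ν ∧
    XX A ν R (tw f g) n = 2 * XX A ν R (tp f g) n - 3 * Q78.UR.FF A ν R n := by
  have hm' : ∀ w : List P, Measurable fun ω => tp f g ω w := fun w => by
    unfold tp tw
    exact measurable_const.add ((measurable_const.add (hm _ _)).div_const 2)
  have i1 := integrable_WR (f := tp f g) ν hR (fun ω => fr_test hκ hL (hf ω) hs (hg ω)) hm' n
  have i2 := Q78.UR.integrable_card (A := A) ν hR n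
  have e : (fun ω => WR A (R ω) (tw f g ω) n) = fun ω =>
      2 * WR A (R ω) (tp f g ω) n - 3 * ((KR A (R ω) n).card : ℝ) := by
    funext ω
    unfold WR tp
    rw [Finset.mul_sum, ← nsmul_one (KR A (R ω) n).card, ← sum_const, mul_sum, ← sum_sub_distrib]
    refine Finset.sum_congr rfl fun w _ => ?_
    ring
  constructor
  · rw [e]
    exact (i1.const_mul 2).sub (i2.const_mul 3)
  · unfold XX Q78.UR.FF
    rw [e, integral_sub (i1.const_mul 2) (i2.const_mul 3), integral_const_mul, integral_const_mul]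

theorem abs_tw_le {Ω : Type} [MeasurableSpace Ω] (ν : Measure Ω) [IsProbabilityMeasure ν]
    {R : Ω → P → P → Prop} (hR : ∀ e x, MeasurableSet {ω | R ω e x}) {κ : ℝ} (hκ : 0 ≤ κ) {L : ℝ}
    (hL : 0 ≤ L) (hs : 1 ≤ Z.s) {j m : ℕ} {f : Fin j → List P → ℝ}
    (hf : ∀ ω i, Fr Z (R ω) κ m (f i)) {g g' : Ω → P → (Fin j → ℝ) → ℝ} {e : ℝ}
    (hg : ∀ ω, TstJ L (g ω)) (hm : ∀ e x, Measurable fun ω => g ω e x)
    (hg' : ∀ ω, TstJ L (g' ω)) (hm' : ∀ e x, Measurable fun ω => g' ω e x) (n : ℕ)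
    (hle : ∀ ω, ∀ w ∈ KR A (R ω) n, |tw f g ω w - tw f g' ω w| ≤ e) :
    |XX A ν R (tw f g) n - XX A ν R (tw f g') n| ≤ e * Q78.UR.FF A ν R n := by
  have i1 := (int_tw ν hR hκ hL hs hf hg hm n).1
  have i2 := (int_tw ν hR hκ hL hs hf hg' hm' n).1
  have i3 := Q78.UR.integrable_card (A := A) ν hR n
  unfold XX Q78.UR.FF
  rw [← integral_sub i1 i2, ← integral_const_mul, ← Real.norm_eq_abs]
  refine norm_integral_le_of_norm_le (i3.const_mul e) (Eventually.of_forall fun ω => ?_)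
  rw [Real.norm_eq_abs]
  unfold WR
  rw [← sum_sub_distrib]
  refine (abs_sum_le_sum_abs _ _).trans ((sum_le_sum fun w hw => hle ω w hw).trans ?_)
  rw [sum_const, nsmul_eq_mul, mul_comm]

/-- the conditional mean of a weight -/
def mw {Ω : Type} [MeasurableSpace Ω] (A : P → P → Prop) (ν : Measure Ω) (R : Ω → P → P → Prop)
    (f : List P → ℝ) (n : ℕ) : ℝ := XX A ν R (fun _ => f) n / Q78.UR.FF A ν R n

/-- **joint moments and joint laws** -/
theorem joint_main (G : Growth Z μ K) (j m M : ℕ) (κ : ℝ) (hκ : 0 ≤ κ) (L : ℝ) (hL : 0 ≤ L) :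
    ∃ (C δ : ℝ) (N : ℕ), 0 < C ∧ 0 < δ ∧ 3 ≤ N ∧
    ∀ (Ω : Type) [MeasurableSpace Ω] (ν : Measure Ω) [IsProbabilityMeasure ν]
      (R : Ω → P → P → Prop), (∀ e x, MeasurableSet {ω | R ω e x}) →
      ∀ n, N ≤ n → Real.exp (-δ * n) ≤ Q78.UR.PP A ν R n →
        0 < Q78.UR.FF A ν R n ∧ 0 < Q78.UR.FF A ν R (n + Z.s) ∧
        C * √((Real.log (1 / Q78.UR.PP A ν R n) + Real.log n ^ 2) / n) ≤ 1 / 2 ∧
        ∀ f : Fin j → List P → ℝ, (∀ i, Fw Z κ m (f i)) →
          (∀ q : Fin j → ℝ, (∀ i, 0 ≤ q i) → (∀ i, q i ≤ M) →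
            0 < XX A ν R (fun _ w => ∏ i, f i w ^ q i) n ∧
            0 < XX A ν R (fun _ w => ∏ i, f i w ^ q i) (n + Z.s) ∧
            |mw A ν R (fun w => ∏ i, f i w ^ q i) (n + Z.s) /
              mw A ν R (fun w => ∏ i, f i w ^ q i) n - 1| ≤
              C * √((Real.log (1 / Q78.UR.PP A ν R n) + Real.log n ^ 2) / n) ∧
            ∀ R' : Ω → P → P → Prop, (∀ e x, MeasurableSet {ω | R' ω e x}) →
              (∀ ω e x, R' ω e x → R ω e x) →
              |XX A ν R' (fun _ w => ∏ i, f i w ^ q i) (n + Z.s) /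
                  XX A ν R (fun _ w => ∏ i, f i w ^ q i) (n + Z.s) -
                XX A ν R' (fun _ w => ∏ i, f i w ^ q i) n /
                  XX A ν R (fun _ w => ∏ i, f i w ^ q i) n| ≤
                C * √((Real.log (1 / Q78.UR.PP A ν R n) + Real.log n ^ 2) / n)) ∧
          (∀ i, 0 < mw A ν R (f i) n ∧ 0 < mw A ν R (f i) (n + Z.s)) ∧
          ∀ R' : Ω → P → P → Prop, (∀ e x, MeasurableSet {ω | R' ω e x}) →
            (∀ ω e x, R' ω e x → R ω e x) →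
            ∀ g : Ω → P → (Fin j → ℝ) → ℝ, (∀ ω, TstJ L (g ω)) →
              (∀ e x, Measurable fun ω => g ω e x) →
              |XX A ν R' (tw f fun ω e x => g ω e fun i => x i / mw A ν R (f i) (n + Z.s))
                  (n + Z.s) / Q78.UR.FF A ν R (n + Z.s) -
                XX A ν R' (tw f fun ω e x => g ω e fun i => x i / mw A ν R (f i) n) n /
                  Q78.UR.FF A ν R n| ≤
                C * √((Real.log (1 / Q78.UR.PP A ν R n) + Real.log n ^ 2) / n) := by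
  have hs := G.hs
  obtain ⟨κp, hκp, hprod⟩ := fr_prod (Z := Z) ((M + 1) * (1 + κ) ^ M * κ) (by positivity) (m * M)
    hs j
  obtain ⟨κ', hκ'⟩ : ∃ κ', κ' = max (max κ κp) ((L + 2) * (j * κ)) := ⟨_, rfl⟩
  have k1 : κ ≤ κ' := by rw [hκ']; exact (le_max_left _ _).trans (le_max_left _ _)
  have k2 : κp ≤ κ' := by rw [hκ']; exact (le_max_right _ _).trans (le_max_left _ _)
  have k3 : (L + 2) * (j * κ) ≤ κ' := by rw [hκ']; exact le_max_right _ _
  obtain ⟨m', hm'⟩ : ∃ m', m' = m + m * M * j + 1 := ⟨_, rfl⟩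
  have l1 : m ≤ m' := by omega
  have l2 : m * M * j ≤ m' := by omega
  have l3 : 1 ≤ m' := by omega
  obtain ⟨C, δ, N, hC, hδ, hN, h⟩ := gen_main G m' κ' (hκ.trans k1)
  obtain ⟨C', hC'⟩ : ∃ C', C' = 10 * C + 2 * L * j * C := ⟨_, rfl⟩
  have hC'0 : 0 < C' := by rw [hC']; positivity
  have hCC : C ≤ C' := by
    rw [hC']
    have : 0 ≤ 2 * L * j * C := by positivity
    linarith
  obtain ⟨δ5, N5, hδ5, hN5, h6⟩ := Po.small_err C' hC'0
  refine ⟨C', min δ δ5, max N N5, hC'0, lt_min hδ hδ5, hN.trans (le_max_left _ _), ?_⟩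
  intro Ω _ ν _ R hR n hn hp
  have hn1 : N ≤ n := (le_max_left _ _).trans hn
  have hn5 : N5 ≤ n := (le_max_right _ _).trans hn
  have hn0 : (0 : ℝ) ≤ n := Nat.cast_nonneg n
  have hpp : ∀ δ' : ℝ, min δ δ5 ≤ δ' → Real.exp (-δ' * n) ≤ Q78.UR.PP A ν R n := by
    intro δ' hδ'
    refine le_trans (Real.exp_le_exp.2 ?_) hp
    have := mul_le_mul_of_nonneg_right hδ' hn0
    linarith
  obtain ⟨f0, f1, c1, h5⟩ := h Ω ν R hR n hn1 (hpp _ (min_le_left _ _))
  have c5 := h6 n _ hn5 (hpp _ (min_le_right _ _))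
  obtain ⟨er, her⟩ : ∃ er, er = √((Real.log (1 / Q78.UR.PP A ν R n) + Real.log n ^ 2) / n) :=
    ⟨_, rfl⟩
  have her0 : 0 ≤ er := by rw [her]; exact Real.sqrt_nonneg _
  rw [← her] at c1 c5 h5 ⊢
  have hCe : C * er ≤ C' * er := mul_le_mul_of_nonneg_right hCC her0
  refine ⟨f0, f1, c5, fun f hf => ⟨fun q hq0 hq => ?_, ?_, ?_⟩⟩
  · have hF : ∀ R : P → P → Prop, Fr Z R κ' m' (fun w => ∏ i, f i w ^ q i) := fun R =>
      fr_mono (hprod R (fun i w => f i w ^ q i) fun i =>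
        fr_rpow hκ (fr_of_fw (hf i) R) hs M (q i) (hq0 i) (hq i)) k2 l2
    obtain ⟨g1, g2, g3, g4⟩ := h5 (fun _ w => ∏ i, f i w ^ q i) (fun ω => hF (R ω))
      (fun _ => measurable_const)
    refine ⟨g1, g2, g3.trans hCe, fun R' hR' hsub => ?_⟩
    exact (g4 R' hR' (fun _ w => ∏ i, f i w ^ q i) (fun ω => hF (R' ω))
      (fun _ => measurable_const) (fun k => XX_monoR ν hR hR' hsub (fun ω => hF (R ω))
        (fun _ => measurable_const) (fun ω => hF (R' ω)) (fun _ => measurable_const)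
        (fun _ _ => le_rfl) k)).trans hCe
  · intro i
    obtain ⟨g1, g2, -, -⟩ := h5 (fun _ => f i) (fun ω => fr_mono (fr_of_fw (hf i) (R ω)) k1 l1)
      (fun _ => measurable_const)
    exact ⟨div_pos g1 f0, div_pos g2 f1⟩
  · intro R' hR' hsub g hg hm
    have ha : ∀ i, 0 < mw A ν R (f i) n ∧ 0 < mw A ν R (f i) (n + Z.s) ∧
        |Real.log (mw A ν R (f i) (n + Z.s)) - Real.log (mw A ν R (f i) n)| ≤ 2 * (C * er) := by
      intro i
      obtain ⟨g1, g2, g3, -⟩ := h5 (fun _ => f i) (fun ω => fr_mono (fr_of_fw (hf i) (R ω)) k1 l1)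
        (fun _ => measurable_const)
      have b1 : 0 < mw A ν R (f i) n := div_pos g1 f0
      have b2 : 0 < mw A ν R (f i) (n + Z.s) := div_pos g2 f1
      refine ⟨b1, b2, ?_⟩
      rw [← Real.log_div b2.ne' b1.ne']
      exact Po.log_near (by positivity) (div_pos b2 b1) g3 c1
    obtain ⟨a, hadef⟩ : ∃ a : Fin j → ℝ, a = fun i => mw A ν R (f i) n := ⟨_, rfl⟩
    obtain ⟨a', hadef'⟩ : ∃ a' : Fin j → ℝ, a' = fun i => mw A ν R (f i) (n + Z.s) := ⟨_, rfl⟩
    have e1 : ∀ i, mw A ν R (f i) n = a i := fun i => by rw [hadef]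
    have e2 : ∀ i, mw A ν R (f i) (n + Z.s) = a' i := fun i => by rw [hadef']
    simp only [e1, e2] at ha ⊢
    have hga : ∀ ω, TstJ L (fun e x => g ω e fun i => x i / a i) :=
      fun ω => (hg ω).scale fun i => (ha i).1
    have hga' : ∀ ω, TstJ L (fun e x => g ω e fun i => x i / a' i) :=
      fun ω => (hg ω).scale fun i => (ha i).2.1
    have hma : ∀ e (x : Fin j → ℝ), Measurable fun ω => g ω e fun i => x i / a i :=
      fun e x => hm _ _
    have hma' : ∀ e (x : Fin j → ℝ), Measurable fun ω => g ω e fun i => x i / a' i :=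
      fun e x => hm _ _
    have hfR : ∀ (ω : Ω) (i : Fin j), Fr Z (R' ω) κ m (f i) := fun ω i => fr_of_fw (hf i) (R' ω)
    -- the difference with one scale
    have hmt : ∀ w : List P, Measurable fun ω =>
        tp f (fun ω e x => g ω e fun i => x i / a i) ω w := fun w => by
      unfold tp tw
      exact measurable_const.add ((measurable_const.add (hma _ _)).div_const 2)
    have hf2 : ∀ ω, Fr Z (R ω) κ' m' (fun _ => (2 : ℝ)) :=
      fun ω => fr_mono (fr_two Z (R ω) κ' (hκ.trans k1) 1 le_rfl) le_rfl l3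
    have hft : ∀ ω, Fr Z (R' ω) κ' m' (tp f (fun ω e x => g ω e fun i => x i / a i) ω) :=
      fun ω => fr_mono (fr_test hκ hL (hfR ω) hs (hga ω)) k3 l3
    have hf1 : ∀ ω, Fr Z (R' ω) κ' m' (fun _ => (1 : ℝ)) :=
      fun ω => fr_one Z (R' ω) m' κ' (hκ.trans k1)
    obtain ⟨-, -, -, i4⟩ := h5 (fun _ _ => 2) hf2 (fun _ => measurable_const)
    have j1 := i4 R' hR' (tp f (fun ω e x => g ω e fun i => x i / a i)) hft hmt
      (fun k => XX_monoR ν hR hR' hsub hf2 (fun _ => measurable_const) hft hmt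
        (fun ω w => tp_le f _ hga ω w) k)
    have j2 := i4 R' hR' (fun _ _ => 1) hf1 (fun _ => measurable_const)
      (fun k => XX_monoR ν hR hR' hsub hf2 (fun _ => measurable_const) hf1
        (fun _ => measurable_const) (fun ω w => by norm_num) k)
    rw [XX_one, XX_one] at j2
    rw [XX_two, XX_two] at j1 j2
    have j3 := abs_tw_le (A := A) (Z := Z) ν hR' hκ hL hs hfR hga' hma' hga hma (n + Z.s)
      (e := L * (j * (2 * (C * er)))) (fun ω w hw => by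
        unfold tw
        have hx : ∀ i, 0 < f i w := fun i => by
          have := (hf i).ge (n + Z.s) (by omega) w (KR_sub _ _ hw)
          linarith
        refine ((hg ω).2 _ _ _ (fun i => div_pos (hx i) (ha i).2.1)
          (fun i => div_pos (hx i) (ha i).1)).trans ?_
        refine mul_le_mul_of_nonneg_left ?_ hL
        have j4 : ∑ i : Fin j, |Real.log (f i w / a' i) - Real.log (f i w / a i)| ≤
            ∑ _i : Fin j, 2 * (C * er) := by
          refine sum_le_sum fun i _ => ?_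
          rw [Real.log_div (hx i).ne' (ha i).2.1.ne', Real.log_div (hx i).ne' (ha i).1.ne']
          have j5 := (ha i).2.2
          rw [← abs_neg] at j5
          refine le_trans (le_of_eq ?_) j5
          congr 1
          ring
        rw [sum_const, card_univ, Fintype.card_fin, nsmul_eq_mul] at j4
        exact j4)
    have j6 : Q78.UR.FF A ν R' (n + Z.s) ≤ Q78.UR.FF A ν R (n + Z.s) := by
      have := XX_monoR (κ := 0) (κ' := 0) (m := 0) (m' := 0) (Z := Z) ν hR hR' hsub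
        (f := fun _ _ => 1) (f' := fun _ _ => 1)
        (fun ω => fr_one _ _ 0 0 le_rfl) (fun _ => measurable_const)
        (fun ω => fr_one _ _ 0 0 le_rfl) (fun _ => measurable_const) (fun _ _ => le_rfl) (n + Z.s)
      rw [XX_one, XX_one] at this
      exact this
    have t1 := (int_tw (A := A) (Z := Z) ν hR' hκ hL hs hfR hga hma (n + Z.s)).2
    have t0 := (int_tw (A := A) (Z := Z) ν hR' hκ hL hs hfR hga hma n).2
    obtain ⟨X', hX'⟩ : ∃ X, X = XX A ν R' (tw f fun ω e x => g ω e fun i => x i / a' i)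
      (n + Z.s) := ⟨_, rfl⟩
    obtain ⟨X1, hX1⟩ : ∃ X, X = XX A ν R' (tw f fun ω e x => g ω e fun i => x i / a i)
      (n + Z.s) := ⟨_, rfl⟩
    obtain ⟨X0, hX0⟩ : ∃ X, X = XX A ν R' (tw f fun ω e x => g ω e fun i => x i / a i) n :=
      ⟨_, rfl⟩
    obtain ⟨T1, hT1⟩ : ∃ X, X = XX A ν R' (tp f fun ω e x => g ω e fun i => x i / a i)
      (n + Z.s) := ⟨_, rfl⟩
    obtain ⟨T0, hT0⟩ : ∃ X, X = XX A ν R' (tp f fun ω e x => g ω e fun i => x i / a i) n :=
      ⟨_, rfl⟩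
    obtain ⟨Y1, hY1⟩ : ∃ Y, Y = Q78.UR.FF A ν R' (n + Z.s) := ⟨_, rfl⟩
    obtain ⟨Y0, hY0⟩ : ∃ Y, Y = Q78.UR.FF A ν R' n := ⟨_, rfl⟩
    rw [← hX', ← hX0]
    rw [← hX', ← hX1, ← hY1] at j3
    rw [← hX1, ← hT1, ← hY1] at t1
    rw [← hX0, ← hT0, ← hY0] at t0
    rw [← hT1, ← hT0] at j1
    rw [← hY1, ← hY0] at j2
    rw [← hY1] at j6
    have e3 : X1 / Q78.UR.FF A ν R (n + Z.s) - X0 / Q78.UR.FF A ν R n =
        4 * (T1 / (2 * Q78.UR.FF A ν R (n + Z.s)) - T0 / (2 * Q78.UR.FF A ν R n)) -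
          6 * (Y1 / (2 * Q78.UR.FF A ν R (n + Z.s)) - Y0 / (2 * Q78.UR.FF A ν R n)) := by
      have a1 : ∀ X F : ℝ, X / (2 * F) = X / F / 2 := fun X F => by
        rw [mul_comm, div_mul_eq_div_div]
      rw [a1, a1, a1, a1, t1, t0]
      ring
    have e4 : |X1 / Q78.UR.FF A ν R (n + Z.s) - X0 / Q78.UR.FF A ν R n| ≤ 10 * (C * er) := by
      rw [e3]
      obtain ⟨b1, b2⟩ := abs_le.1 j1
      obtain ⟨b3, b4⟩ := abs_le.1 j2
      rw [abs_le]
      constructor <;> linarith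
    have e5 : |X' / Q78.UR.FF A ν R (n + Z.s) - X1 / Q78.UR.FF A ν R (n + Z.s)| ≤
        L * (j * (2 * (C * er))) := by
      rw [← sub_div, abs_div, abs_of_pos f1, div_le_iff₀ f1]
      exact j3.trans (mul_le_mul_of_nonneg_left j6 (by positivity))
    refine (abs_sub_le _ (X1 / Q78.UR.FF A ν R (n + Z.s)) _).trans ?_
    rw [hC']
    linarith

end

end Q78.UW
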