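import Pool.Agent.Q78.UW.PolyEx
import Pool.Agent.Q78.UW.Joint

set_option autoImplicit false

/-! Sharper rates when the numbers are regular along a sparse set of perimeters. -/

namespace Q78.UW.Ex

open Finset Filter Topology TH966.KS Q78.Z3

theorem exp_le_lin {u U : ℝ} (h0 : 0 ≤ u) (h1 : u ≤ U) : Real.exp u ≤ 1 + u * Real.exp U := by
  have h2 := Q78.UW.Po.abs_exp_le u
  rw [abs_of_nonneg (by linarith [Real.add_one_le_exp u]), abs_of_nonneg h0] at h2
  have h3 := mul_le_mul_of_nonneg_left (Real.exp_le_exp.2 h1) h0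
  linarith

/-- the normalised sequences -/
theorem cl_slow (N : ℕ) (D θ : ℝ) (hD : 0 ≤ D) (hθ0 : 0 < θ) (hθ1 : θ < 1) {ψ : ℕ → ℝ}
    (hψ : Slow ψ) : ∃ (N' : ℕ) (D' θ' : ℝ), 0 ≤ D' ∧ 0 < θ' ∧ θ' < 1 ∧ ∀ x : ℕ → ℝ,
      Cl 1 N D θ x → Cl 1 N' D' θ' (fun n => x n * Real.exp (-ψ n)) := by
  obtain ⟨hq0, hq1⟩ := sqrt_range hθ0 hθ1
  have hz := hψ.zero
  obtain ⟨B, hB⟩ := hψ
  have hB0 : 0 ≤ B := by
    have := hB 1 2 le_rfl (by norm_num)
    norm_num at this
    linarith [abs_nonneg (ψ 2 - ψ 1)]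
  have hl : 0 < Real.log (1 / √θ) := Real.log_pos (by rw [lt_div_iff₀ hq0]; linarith)
  obtain ⟨N1, hN1⟩ := eventually_atTop.1
    ((hz.abs).eventually_le_const (show |(0 : ℝ)| < Real.log (1 / √θ) by rw [abs_zero]; exact hl))
  refine ⟨max (max N N1) 1, 2 * B * Real.exp (2 * B) + D + 2 * B * Real.exp (2 * B) * D, √θ,
    by positivity, hq0, hq1, fun x hx => ⟨fun n => mul_nonneg (hx.nn n) (Real.exp_pos _).le,
      fun n hn hbig => ?_⟩⟩
  have hnN : N ≤ n := ((le_max_left _ _).trans (le_max_left _ _)).trans hn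
  have hn1 : N1 ≤ n := ((le_max_right _ _).trans (le_max_left _ _)).trans hn
  have hn0 : 1 ≤ n := (le_max_right _ _).trans hn
  have hnR : (1 : ℝ) ≤ n := by exact_mod_cast hn0
  have hthr : θ ^ (n + 1) ≤ x (n + 1) := by
    have h1 := hN1 (n + 1) (by omega)
    rw [abs_div, Nat.abs_cast, div_le_iff₀ (by positivity)] at h1
    have h2 : θ ^ (n + 1) = (√θ) ^ (n + 1) * (√θ) ^ (n + 1) := by
      rw [← mul_pow, Real.mul_self_sqrt hθ0.le]
    have h3 : (√θ) ^ (n + 1) ≤ Real.exp (ψ (n + 1)) := by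
      have h4 : (√θ) ^ (n + 1) = Real.exp (-(((n + 1 : ℕ) : ℝ) * Real.log (1 / √θ))) := by
        rw [one_div, Real.log_inv, mul_neg, neg_neg, Real.exp_nat_mul, Real.exp_log hq0]
      rw [h4]
      refine Real.exp_le_exp.2 ?_
      have := (abs_le.1 h1).1
      linarith
    calc θ ^ (n + 1) = (√θ) ^ (n + 1) * (√θ) ^ (n + 1) := h2
      _ ≤ x (n + 1) * Real.exp (-ψ (n + 1)) * Real.exp (ψ (n + 1)) :=
          mul_le_mul hbig h3 (by positivity) (mul_nonneg (hx.nn _) (Real.exp_pos _).le)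
      _ = x (n + 1) := by rw [mul_assoc, ← Real.exp_add, neg_add_cancel, Real.exp_zero, mul_one]
  have hk := hx.kes n hnN hthr
  have e2 : (x (n + 1) * Real.exp (-ψ (n + 1))) ^ 2 =
      x (n + 1) ^ 2 * Real.exp (-(2 * ψ (n + 1))) := by
    rw [mul_pow, ← Real.exp_nat_mul]
    congr 2
    push_cast
    ring
  have e3 : Real.exp (-(2 * ψ (n + 1))) = Real.exp (-ψ n) * Real.exp (-ψ (n + 2 * 1)) *
      Real.exp ((ψ n - ψ (n + 1)) + (ψ (n + 2 * 1) - ψ (n + 1))) := by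
    rw [← Real.exp_add, ← Real.exp_add]
    congr 1
    ring
  have h5 : (ψ n - ψ (n + 1)) + (ψ (n + 2 * 1) - ψ (n + 1)) ≤ 2 * B / n := by
    have h6 := hB n (n + 1) hn0 (by omega)
    have h7 := hB (n + 1) (n + 2 * 1) (by omega) (by omega)
    push_cast at h6 h7
    have h8 : B * (((n : ℝ) + 1 - n) / n) = B / n := by
      rw [add_sub_cancel_left]
      ring
    have h9 : B * (((n : ℝ) + 2 - (n + 1)) / (n + 1)) ≤ B / n := by
      have : ((n : ℝ) + 2 - (n + 1)) = 1 := by ring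
      rw [this, mul_one_div]
      exact div_le_div_of_nonneg_left hB0 (by linarith) (by linarith)
    rw [h8] at h6
    have h10 := h7.trans h9
    have h11 := (abs_le.1 h6).1
    have h12 := (abs_le.1 h10).2
    have : 2 * B / n = B / n + B / n := by ring
    linarith
  obtain ⟨u, hu⟩ : ∃ u, u = 2 * B / (n : ℝ) := ⟨_, rfl⟩
  have hu0 : 0 ≤ u := by rw [hu]; positivity
  have hu1 : u ≤ 2 * B := by rw [hu]; exact div_le_self (by positivity) hnR
  have h13 : Real.exp ((ψ n - ψ (n + 1)) + (ψ (n + 2 * 1) - ψ (n + 1))) ≤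
      1 + u * Real.exp (2 * B) :=
    (Real.exp_le_exp.2 (by rw [hu]; exact h5)).trans (exp_le_lin hu0 hu1)
  have hDn : 0 ≤ D / n := by positivity
  have h14 : (1 + D / n) * (1 + u * Real.exp (2 * B)) ≤
      1 + (2 * B * Real.exp (2 * B) + D + 2 * B * Real.exp (2 * B) * D) / n := by
    have e4 : u * Real.exp (2 * B) = 2 * B * Real.exp (2 * B) / n := by rw [hu]; ring
    have h15 : D / n * (u * Real.exp (2 * B)) ≤ 2 * B * Real.exp (2 * B) * D / n := by
      have h16 : u * Real.exp (2 * B) ≤ 2 * B * Real.exp (2 * B) :=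
        mul_le_mul_of_nonneg_right hu1 (Real.exp_pos _).le
      have := mul_le_mul_of_nonneg_left h16 hDn
      refine this.trans (le_of_eq ?_)
      ring
    have e5 : (2 * B * Real.exp (2 * B) + D + 2 * B * Real.exp (2 * B) * D) / n =
        2 * B * Real.exp (2 * B) / n + D / n + 2 * B * Real.exp (2 * B) * D / n := by ring
    rw [e5]
    have e6 : (1 + D / n) * (1 + u * Real.exp (2 * B)) =
        1 + u * Real.exp (2 * B) + D / n + D / n * (u * Real.exp (2 * B)) := by ring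
    rw [e6, e4]
    rw [e4] at h15
    linarith
  have hxx : 0 ≤ x n * x (n + 2 * 1) := mul_nonneg (hx.nn _) (hx.nn _)
  show (x (n + 1) * Real.exp (-ψ (n + 1))) ^ 2 ≤ x n * Real.exp (-ψ n) *
    (x (n + 2 * 1) * Real.exp (-ψ (n + 2 * 1))) * _
  rw [e2, e3]
  calc x (n + 1) ^ 2 * (Real.exp (-ψ n) * Real.exp (-ψ (n + 2 * 1)) *
        Real.exp ((ψ n - ψ (n + 1)) + (ψ (n + 2 * 1) - ψ (n + 1)))) ≤
        (x n * x (n + 2 * 1) * (1 + D / n)) * (Real.exp (-ψ n) * Real.exp (-ψ (n + 2 * 1)) *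
        (1 + u * Real.exp (2 * B))) :=
        mul_le_mul hk (mul_le_mul_of_nonneg_left h13 (by positivity)) (by positivity)
          (mul_nonneg hxx (by linarith))
    _ = x n * Real.exp (-ψ n) * (x (n + 2 * 1) * Real.exp (-ψ (n + 2 * 1))) *
        ((1 + D / n) * (1 + u * Real.exp (2 * B))) := by ring
    _ ≤ _ := by
        refine mul_le_mul_of_nonneg_left h14 ?_
        exact mul_nonneg (mul_nonneg (hx.nn _) (Real.exp_pos _).le)
          (mul_nonneg (hx.nn _) (Real.exp_pos _).le)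

/-- **ratios and quotients for regular sequences** -/
theorem nested_slow (N : ℕ) (D θ : ℝ) (hD : 0 ≤ D) (hθ0 : 0 < θ) (hθ1 : θ < 1) {ψ : ℕ → ℝ}
    (hψ : Slow ψ) (K0 : ℝ) (hK0 : 0 ≤ K0) : ∃ (C : ℝ) (N1 : ℕ), 0 < C ∧ 1 ≤ N1 ∧
      ∀ x y : ℕ → ℝ, Cl 1 N D θ x → Cl 1 N D θ y → (∀ n, y n ≤ x n) → ∀ n, N1 ≤ n →
      (∀ m, n ≤ 2 * m → m ≤ 2 * n → 0 < x m ∧ |Real.log (x m) - ψ m| ≤ K0) →
      |x (n + 1) / x n - 1| ≤ C / √n ∧ |y (n + 1) / x (n + 1) - y n / x n| ≤ C / √n := by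
  obtain ⟨N', D', θ', hD', hθ0', hθ1', hcl⟩ := cl_slow N D θ hD hθ0 hθ1 hψ
  obtain ⟨C0, δ, N0, hC0, hδ, hN0, h⟩ := Loc.nested 1 le_rfl N' D' θ' 1 hD' hθ0' hθ1' zero_le_one
  obtain ⟨B, hB⟩ := hψ
  have hB0 : 0 ≤ B := by
    have := hB 1 2 le_rfl (by norm_num)
    norm_num at this
    linarith [abs_nonneg (ψ 2 - ψ 1)]
  obtain ⟨M, hM⟩ := exists_nat_ge ((K0 + 1) / δ)
  obtain ⟨T, hT⟩ : ∃ T, T = C0 * √(K0 + 1) := ⟨_, rfl⟩
  have hT0 : 0 < T := by rw [hT]; positivity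
  refine ⟨T * Real.exp B + B * Real.exp B + T, max N0 M, by positivity,
    le_trans (by omega) (le_max_left _ _), ?_⟩
  intro x y hx hy hyx n hn hloc
  have hnN0 : N0 ≤ n := (le_max_left _ _).trans hn
  have hnM : M ≤ n := (le_max_right _ _).trans hn
  have hn1 : 1 ≤ n := by omega
  have hnR : (1 : ℝ) ≤ n := by exact_mod_cast hn1
  have ha : K0 + 1 ≤ δ * n := by
    have h1 : (K0 + 1) / δ ≤ n := hM.trans (by exact_mod_cast hnM)
    rw [div_le_iff₀ hδ] at h1
    linarith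
  have hlogx : ∀ m, 0 < x m → Real.log (x m * Real.exp (-ψ m)) = Real.log (x m) - ψ m := by
    intro m hm
    rw [Real.log_mul hm.ne' (Real.exp_pos _).ne', Real.log_exp]
    ring
  obtain ⟨g1, g2⟩ := h (fun n => x n * Real.exp (-ψ n)) (fun n => y n * Real.exp (-ψ n))
    (hcl x hx) (hcl y hy) (fun m => mul_le_mul_of_nonneg_right (hyx m) (Real.exp_pos _).le) n
    hnN0 (K0 + 1) (by linarith) ha (fun m h1 h2 _ => by
      obtain ⟨h3, h4⟩ := hloc m h1 h2
      rw [← Real.log_le_iff_le_exp (mul_pos h3 (Real.exp_pos _)), hlogx m h3]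
      linarith [(abs_le.1 h4).2]) (by
      obtain ⟨h3, h4⟩ := hloc n (by omega) (by omega)
      show Real.exp (-(K0 + 1)) ≤ x n * Real.exp (-ψ n)
      rw [← Real.le_log_iff_exp_le (mul_pos h3 (Real.exp_pos _)), hlogx n h3]
      linarith [(abs_le.1 h4).1])
  have hx0 := (hloc n (by omega) (by omega)).1
  have hx1 := (hloc (n + 1) (by omega) (by omega)).1
  have hs0 : 0 < √(n : ℝ) := Real.sqrt_pos.2 (by linarith)
  have hsq : C0 * √((K0 + 1) / n) = T / √n := by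
    rw [Real.sqrt_div (by linarith), hT]
    ring
  rw [hsq] at g1 g2
  have hexp := Real.exp_pos B
  have hTn : 0 ≤ T / √(n : ℝ) := by positivity
  constructor
  · have h6 := hB n (n + 1) hn1 (by omega)
    have h8 : B * ((((n + 1 : ℕ) : ℝ) - n) / n) = B / n := by
      push_cast
      rw [add_sub_cancel_left]
      ring
    rw [h8] at h6
    have hBn : B / n ≤ B := div_le_self hB0 hnR
    have hBs : B / n ≤ B / √n := by
      refine div_le_div_of_nonneg_left hB0 hs0 ?_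
      rw [Real.sqrt_le_left (by linarith)]
      nlinarith
    obtain ⟨r, hr⟩ : ∃ r, r = x (n + 1) * Real.exp (-ψ (n + 1)) / (x n * Real.exp (-ψ n)) :=
      ⟨_, rfl⟩
    obtain ⟨v, hv⟩ : ∃ v, v = ψ (n + 1) - ψ n := ⟨_, rfl⟩
    rw [← hr] at g1
    rw [← hv] at h6
    have e1 : x (n + 1) / x n = r * Real.exp v := by
      rw [hr, hv, Real.exp_sub, Real.exp_neg, Real.exp_neg]
      have := (Real.exp_pos (ψ (n + 1))).ne'
      have := (Real.exp_pos (ψ n)).ne'
      field_simp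
    have h9 : |Real.exp v - 1| ≤ B / √n * Real.exp B := by
      refine (Q78.UW.Po.abs_exp_le v).trans ?_
      exact mul_le_mul (h6.trans hBs) (Real.exp_le_exp.2 (h6.trans hBn)) (Real.exp_pos _).le
        (by positivity)
    have h10 : Real.exp v ≤ Real.exp B := Real.exp_le_exp.2 ((le_abs_self v).trans (h6.trans hBn))
    have h11 : x (n + 1) / x n - 1 = (r - 1) * Real.exp v + (Real.exp v - 1) := by
      rw [e1]; ring
    rw [h11]
    refine (abs_add_le _ _).trans ?_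
    rw [abs_mul, abs_of_pos (Real.exp_pos v)]
    have h12 : |r - 1| * Real.exp v ≤ T / √n * Real.exp B :=
      mul_le_mul g1 h10 (Real.exp_pos _).le hTn
    have e2 : (T * Real.exp B + B * Real.exp B + T) / √n =
        T / √n * Real.exp B + B / √n * Real.exp B + T / √n := by ring
    rw [e2]
    linarith
  · have e3 : ∀ m, 0 < x m → y m * Real.exp (-ψ m) / (x m * Real.exp (-ψ m)) = y m / x m :=
      fun m hm => by rw [mul_div_mul_right _ _ (Real.exp_pos _).ne']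
    rw [e3 n hx0, e3 (n + 1) hx1] at g2
    refine g2.trans ?_
    refine div_le_div_of_nonneg_right ?_ hs0.le
    have : 0 ≤ T * Real.exp B + B * Real.exp B := by positivity
    linarith

/-- limits from a sparse set -/
theorem lim_gap {h : ℕ → ℝ} {S : Set ℕ} {C ℓ : ℝ} (hC : 0 < C)
    (h1 : ∀ᶠ n : ℕ in atTop, |h (n + 1) - h n| ≤ C / √n)
    (hS : ∀ δ : ℝ, 0 < δ → Gap S δ (fun _ => 1))
    (hl : Tendsto h (atTop ⊓ 𝓟 S) (𝓝 ℓ)) : Tendsto h atTop (𝓝 ℓ) := by
  rw [Metric.tendsto_atTop']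
  intro ε hε
  obtain ⟨M, hM⟩ := eventually_atTop.1 h1
  have h2 := Metric.tendsto_nhds.1 hl (ε / 2) (by linarith)
  rw [eventually_inf_principal] at h2
  obtain ⟨M2, hM2⟩ := eventually_atTop.1 h2
  obtain ⟨M3, hM3⟩ := eventually_atTop.1 (hS (ε / (4 * C)) (by positivity))
  refine ⟨M + M2 + M3 + 1, fun n hn => ?_⟩
  have hn0 : (0 : ℝ) < n := by exact_mod_cast (show 0 < n by omega)
  have hs0 : 0 < √(n : ℝ) := Real.sqrt_pos.2 hn0
  obtain ⟨k, hkS, hnk, hk⟩ := hM3 n (by omega)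
  rw [mul_one] at hk
  have h3 := hM2 k (by omega) hkS
  have h4 : ∀ j : ℕ, |h (n + j) - h n| ≤ j * (C / √n) := by
    intro j
    induction j with
    | zero => simp
    | succ j ih =>
      have h5 := hM (n + j) (by omega)
      have h6 : C / √((n + j : ℕ) : ℝ) ≤ C / √n := by
        refine div_le_div_of_nonneg_left hC.le hs0 (Real.sqrt_le_sqrt ?_)
        push_cast
        linarith [(Nat.cast_nonneg j : (0 : ℝ) ≤ j)]
      have e : h (n + (j + 1)) - h n = (h (n + j + 1) - h (n + j)) + (h (n + j) - h n) := by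
        rw [show n + (j + 1) = n + j + 1 by ring]
        ring
      rw [e]
      refine (abs_add_le _ _).trans ?_
      push_cast
      linarith
  obtain ⟨j, hj⟩ : ∃ j, k = n + j := ⟨k - n, by omega⟩
  have h7 := h4 j
  rw [← hj] at h7
  have h8 : (j : ℝ) * (C / √n) ≤ ε / 4 := by
    have h9 : (j : ℝ) ≤ ε / (4 * C) * √n := by
      rw [hj] at hk
      push_cast at hk
      linarith
    calc (j : ℝ) * (C / √n) ≤ ε / (4 * C) * √n * (C / √n) :=
          mul_le_mul_of_nonneg_right h9 (by positivity)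
      _ = ε / 4 := by field_simp
  rw [Real.dist_eq] at h3 ⊢
  have h10 : h n - ℓ = (h k - ℓ) - (h k - h n) := by ring
  rw [h10]
  have := abs_sub (h k - ℓ) (h k - h n)
  linarith

end Q78.UW.Ex
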