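import Pool.Agent.Q78.UW.Dia

set_option autoImplicit false

/-! Algebra of the weights: powers, products, functions of several weights. -/

namespace Q78.UW

open Finset Filter Topology MeasureTheory TH966.AK Q294.Av Q294.Rs
open scoped Classical

noncomputable section

variable {A : P → P → Prop} {Z : Rule A} {μ K : ℝ}

/-- powers of numbers near one -/
theorem rpow_near (M : ℕ) (κ : ℝ) (hκ : 0 ≤ κ) (q t : ℝ) (hq0 : 0 ≤ q) (hq : q ≤ M) (ht0 : 0 ≤ t)
    (ht : t ≤ 1 + κ) : |t ^ q - 1| ≤ (M + 1) * (1 + κ) ^ M * |t - 1| := by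
  have hM : (0 : ℝ) ≤ M := Nat.cast_nonneg _
  have hK1 : (1 : ℝ) ≤ (1 + κ) ^ M := one_le_pow₀ (by linarith)
  rcases le_total 1 t with h1 | h1
  · have h2 : 1 ≤ t ^ q := Real.one_le_rpow h1 hq0
    rw [abs_of_nonneg (by linarith), abs_of_nonneg (by linarith)]
    have h3 : t ^ q ≤ t ^ M := by
      calc t ^ q ≤ t ^ (M : ℝ) := Real.rpow_le_rpow_of_exponent_le h1 hq
        _ = t ^ M := Real.rpow_natCast _ _
    have ht' : 0 < t := by linarith
    have h4 := one_add_mul_le_pow (show (-2 : ℝ) ≤ t⁻¹ - 1 by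
      have : 0 < t⁻¹ := inv_pos.2 ht'
      linarith) M
    have h5 : (1 + (t⁻¹ - 1)) ^ M * t ^ M = 1 := by
      rw [← mul_pow]
      have : (1 + (t⁻¹ - 1)) * t = 1 := by field_simp; ring
      rw [this, one_pow]
    have h6 : t ^ M ≤ (1 + κ) ^ M := pow_le_pow_left₀ ht0 ht M
    have h7 : (1 + M * (t⁻¹ - 1)) * t ^ M ≤ 1 := by
      have := mul_le_mul_of_nonneg_right h4 (pow_nonneg ht0 M)
      linarith
    have h8 : (1 - t⁻¹) ≤ t - 1 := by
      have : 1 - t⁻¹ = (t - 1) / t := by field_simp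
      rw [this]
      exact div_le_self (by linarith) h1
    have h9 : (0 : ℝ) ≤ 1 - t⁻¹ := by
      have := inv_le_one_of_one_le₀ h1
      linarith
    have h10 : t ^ M - 1 ≤ M * (1 - t⁻¹) * t ^ M := by linarith
    have h11 : M * (1 - t⁻¹) * t ^ M ≤ M * (t - 1) * (1 + κ) ^ M :=
      mul_le_mul (mul_le_mul_of_nonneg_left h8 hM) h6 (pow_nonneg ht0 M)
        (mul_nonneg hM (by linarith))
    have h12 : 0 ≤ (1 + κ) ^ M * (t - 1) := mul_nonneg (by linarith) (by linarith)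
    nlinarith
  · have h2 : |t - 1| = 1 - t := by rw [abs_of_nonpos (by linarith)]; ring
    rw [h2]
    have hle : (1 - t) * (M + 1) ≤ (M + 1) * (1 + κ) ^ M * (1 - t) := by
      have : (1 - t) * (M + 1) ≤ ((1 - t) * (M + 1)) * (1 + κ) ^ M :=
        le_mul_of_one_le_right (mul_nonneg (by linarith) (by linarith)) hK1
      linarith
    refine le_trans ?_ hle
    rcases ht0.eq_or_lt with rfl | ht'
    · rcases eq_or_ne q 0 with rfl | hq'
      · simp
        positivity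
      · rw [Real.zero_rpow hq']
        simp
    · have h3 : t ^ q ≤ 1 := Real.rpow_le_one ht0 h1 hq0
      rw [abs_of_nonpos (by linarith)]
      have h4 : t ^ ((M + 1 : ℕ) : ℝ) ≤ t ^ q :=
        Real.rpow_le_rpow_of_exponent_ge ht' h1 (by push_cast; linarith)
      rw [Real.rpow_natCast] at h4
      have h5 := one_add_mul_le_pow (show (-2 : ℝ) ≤ t - 1 by linarith) (M + 1)
      rw [add_sub_cancel] at h5
      push_cast at h5
      nlinarith

/-- ratios of a weight along a move -/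
theorem move_ratio {R : P → P → Prop} {κ : ℝ} {m : ℕ} {f : List P → ℝ} (h : Fr Z R κ m f)
    (hs : 1 ≤ Z.s) {n : ℕ} {w : List P} (hw : w ∈ (inn Z R).sys.K (n + (inn Z R).sys.s))
    {q : List P × List P} (hq : q ∈ (inn Z R).sys.B w) :
    1 ≤ f w ∧ 0 ≤ f ((inn Z R).sys.rem w q) ∧ f ((inn Z R).sys.rem w q) / f w ≤ 1 + κ ∧
      |f ((inn Z R).sys.rem w q) / f w - 1| = |f ((inn Z R).sys.rem w q) - f w| / f w := by
  have h1 : 1 ≤ f w := h.ge _ (by change 1 ≤ n + Z.s; omega) w hw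
  have hrem := (inn Z R).sys.rem_K n w q (Nat.zero_le _) hw hq
  have h2 : 0 ≤ f ((inn Z R).sys.rem w q) := h.aw.1 n _ hrem
  have h3 := h.aw.2 n w (Nat.zero_le _) hw
  have h4 : |f ((inn Z R).sys.rem w q) - f w| ≤ κ * f w :=
    (single_le_sum (f := fun q => |f ((inn Z R).sys.rem w q) - f w|)
      (fun _ _ => abs_nonneg _) hq).trans h3
  have h0 : 0 < f w := by linarith
  refine ⟨h1, h2, ?_, ?_⟩
  · rw [div_le_iff₀ h0]
    have := (abs_le.1 h4).2
    linarith
  · rw [div_sub_one h0.ne', abs_div, abs_of_pos h0]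

theorem sum_ratio {R : P → P → Prop} {κ : ℝ} {m : ℕ} {f : List P → ℝ} (h : Fr Z R κ m f)
    (hs : 1 ≤ Z.s) {n : ℕ} {w : List P} (hw : w ∈ (inn Z R).sys.K (n + (inn Z R).sys.s)) :
    ∑ q ∈ (inn Z R).sys.B w, |f ((inn Z R).sys.rem w q) / f w - 1| ≤ κ := by
  have h1 : 1 ≤ f w := h.ge _ (by change 1 ≤ n + Z.s; omega) w hw
  have h3 := h.aw.2 n w (Nat.zero_le _) hw
  rw [sum_congr rfl fun q hq => (move_ratio h hs hw hq).2.2.2, ← sum_div,
    div_le_iff₀ (by linarith)]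
  exact h3

/-- **powers of weights** -/
theorem fr_rpow {R : P → P → Prop} {κ : ℝ} (hκ : 0 ≤ κ) {m : ℕ} {f : List P → ℝ}
    (h : Fr Z R κ m f) (hs : 1 ≤ Z.s) (M : ℕ) (q : ℝ) (hq0 : 0 ≤ q) (hq : q ≤ M) :
    Fr Z R ((M + 1) * (1 + κ) ^ M * κ) (m * M) (fun w => f w ^ q) := by
  refine ⟨⟨fun n w hw => Real.rpow_nonneg (h.aw.1 n w hw) _, fun n w _ hw => ?_⟩,
    fun n hn w hw => Real.one_le_rpow (h.ge n hn w hw) hq0, fun n w hw => ?_⟩
  · have h1 : ∀ q' ∈ (inn Z R).sys.B w, |f ((inn Z R).sys.rem w q') ^ q - f w ^ q| ≤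
        (M + 1) * (1 + κ) ^ M * f w ^ q * |f ((inn Z R).sys.rem w q') / f w - 1| := by
      intro q' hq'
      obtain ⟨a1, a2, a3, -⟩ := move_ratio h hs hw hq'
      have h0 : 0 < f w := by linarith
      have b1 := rpow_near M κ hκ q _ hq0 hq (div_nonneg a2 h0.le) a3
      have b2 : f ((inn Z R).sys.rem w q') ^ q - f w ^ q =
          f w ^ q * ((f ((inn Z R).sys.rem w q') / f w) ^ q - 1) := by
        rw [Real.div_rpow a2 h0.le]
        have : f w ^ q ≠ 0 := (Real.rpow_pos_of_pos h0 q).ne'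
        field_simp
      rw [b2, abs_mul, abs_of_nonneg (Real.rpow_nonneg h0.le q)]
      have := mul_le_mul_of_nonneg_left b1 (Real.rpow_nonneg h0.le q)
      linarith
    refine (sum_le_sum h1).trans ?_
    rw [← mul_sum]
    have h2 := sum_ratio h hs hw
    have h3 : 0 ≤ (M + 1) * (1 + κ) ^ M * f w ^ q := by
      have := Real.rpow_nonneg (h.aw.1 _ w hw) q
      positivity
    have := mul_le_mul_of_nonneg_left h2 h3
    linarith
  · have h0 := h.aw.1 n w hw
    have h1 := h.le n w hw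
    have g1 : (1 : ℝ) ≤ (2 * (n : ℝ) + 2) ^ m := one_le_pow₀ (by
      have : (0 : ℝ) ≤ n := Nat.cast_nonneg n
      linarith)
    calc f w ^ q ≤ ((2 * (n : ℝ) + 2) ^ m) ^ q := Real.rpow_le_rpow h0 h1 hq0
      _ ≤ ((2 * (n : ℝ) + 2) ^ m) ^ (M : ℝ) := Real.rpow_le_rpow_of_exponent_le g1 hq
      _ = (2 * (n : ℝ) + 2) ^ (m * M) := by rw [Real.rpow_natCast, ← pow_mul]

/-- **products of weights** -/
theorem fr_mul {R : P → P → Prop} {κ₁ κ₂ : ℝ} (h2κ : 0 ≤ κ₂) {m₁ m₂ : ℕ} {f₁ f₂ : List P → ℝ}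
    (h₁ : Fr Z R κ₁ m₁ f₁) (h₂ : Fr Z R κ₂ m₂ f₂) (hs : 1 ≤ Z.s) :
    Fr Z R ((1 + κ₂) * κ₁ + κ₂) (m₁ + m₂) (fun w => f₁ w * f₂ w) := by
  refine ⟨⟨fun n w hw => mul_nonneg (h₁.aw.1 n w hw) (h₂.aw.1 n w hw), fun n w _ hw => ?_⟩,
    fun n hn w hw => one_le_mul_of_one_le_of_one_le (h₁.ge n hn w hw) (h₂.ge n hn w hw),
    fun n w hw => ?_⟩
  · have hf1 : 0 ≤ f₁ w := h₁.aw.1 _ w hw
    have hf2 : 0 ≤ f₂ w := h₂.aw.1 _ w hw
    have h1 : ∀ q ∈ (inn Z R).sys.B w, |f₁ ((inn Z R).sys.rem w q) * f₂ ((inn Z R).sys.rem w q) -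
        f₁ w * f₂ w| ≤ (1 + κ₂) * f₂ w * |f₁ ((inn Z R).sys.rem w q) - f₁ w| +
          f₁ w * |f₂ ((inn Z R).sys.rem w q) - f₂ w| := by
      intro q hq
      obtain ⟨a1, a2, a3, -⟩ := move_ratio h₂ hs hw hq
      have h0 : 0 < f₂ w := by linarith
      rw [div_le_iff₀ h0] at a3
      have e : f₁ ((inn Z R).sys.rem w q) * f₂ ((inn Z R).sys.rem w q) - f₁ w * f₂ w =
          (f₁ ((inn Z R).sys.rem w q) - f₁ w) * f₂ ((inn Z R).sys.rem w q) +
            f₁ w * (f₂ ((inn Z R).sys.rem w q) - f₂ w) := by ring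
      rw [e]
      refine (abs_add_le _ _).trans ?_
      rw [abs_mul, abs_mul, abs_of_nonneg a2, abs_of_nonneg hf1]
      have := mul_le_mul_of_nonneg_left a3 (abs_nonneg (f₁ ((inn Z R).sys.rem w q) - f₁ w))
      linarith
    refine (sum_le_sum h1).trans ?_
    rw [sum_add_distrib, ← mul_sum, ← mul_sum]
    have b1 := mul_le_mul_of_nonneg_left (h₁.aw.2 n w (Nat.zero_le _) hw)
      (show 0 ≤ (1 + κ₂) * f₂ w by positivity)
    have b2 := mul_le_mul_of_nonneg_left (h₂.aw.2 n w (Nat.zero_le _) hw) hf1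
    linarith
  · rw [pow_add]
    exact mul_le_mul (h₁.le n w hw) (h₂.le n w hw) (h₂.aw.1 n w hw) (by positivity)

/-- test functions of several positive variables and of the last point: bounded by one, and
Lipschitz in the logarithms of the variables -/
def TstJ {j : ℕ} (L : ℝ) (g : P → (Fin j → ℝ) → ℝ) : Prop :=
  (∀ e x, |g e x| ≤ 1) ∧ ∀ e x y, (∀ i, 0 < x i) → (∀ i, 0 < y i) →
    |g e x - g e y| ≤ L * ∑ i, |Real.log (x i) - Real.log (y i)|

theorem TstJ.scale {j : ℕ} {L : ℝ} {g : P → (Fin j → ℝ) → ℝ} (h : TstJ L g) {a : Fin j → ℝ}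
    (ha : ∀ i, 0 < a i) : TstJ L (fun e x => g e (fun i => x i / a i)) := by
  refine ⟨fun e x => h.1 _ _, fun e x y hx hy => ?_⟩
  refine (h.2 e _ _ (fun i => div_pos (hx i) (ha i)) (fun i => div_pos (hy i) (ha i))).trans
    (le_of_eq ?_)
  congr 1
  refine sum_congr rfl fun i _ => ?_
  rw [Real.log_div (hx i).ne' (ha i).ne', Real.log_div (hy i).ne' (ha i).ne']
  congr 1
  ring

/-- logarithms of ratios -/
theorem log_ratio {t : ℝ} (ht : 1 / 2 ≤ t) : |Real.log t| ≤ 2 * |t - 1| := by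
  have ht0 : 0 < t := by linarith
  have h3 := Real.log_le_sub_one_of_pos ht0
  have h4 := Real.one_sub_inv_le_log_of_pos ht0
  have h5 : 1 - t⁻¹ = (t - 1) / t := by field_simp
  rw [h5] at h4
  have h6 : |(t - 1) / t| ≤ 2 * |t - 1| := by
    rw [abs_div, abs_of_pos ht0, div_le_iff₀ ht0]
    nlinarith [abs_nonneg (t - 1)]
  have h7 := neg_abs_le ((t - 1) / t)
  have h8 := le_abs_self (t - 1)
  have h9 := abs_nonneg (t - 1)
  rw [abs_le]
  constructor <;> linarith

/-- **bounded functions of several weights and of the last point** -/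
theorem fr_test {j : ℕ} {R : P → P → Prop} {κ L : ℝ} (hκ : 0 ≤ κ) (hL : 0 ≤ L) {m : ℕ}
    {f : Fin j → List P → ℝ} (h : ∀ i, Fr Z R κ m (f i)) (hs : 1 ≤ Z.s)
    {g : P → (Fin j → ℝ) → ℝ} (hg : TstJ L g) :
    Fr Z R ((L + 2) * (j * κ)) 1 (fun w => 1 + (1 + g (lst w) (fun i => f i w)) / 2) := by
  have hb : ∀ w : List P, 1 ≤ 1 + (1 + g (lst w) (fun i => f i w)) / 2 ∧
      1 + (1 + g (lst w) (fun i => f i w)) / 2 ≤ 2 := by
    intro w
    obtain ⟨a1, a2⟩ := abs_le.1 (hg.1 (lst w) (fun i => f i w))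
    constructor <;> linarith
  refine ⟨⟨fun n w _ => by linarith [(hb w).1], fun n w _ hw => ?_⟩, fun n _ w _ => (hb w).1,
    fun n w _ => (hb w).2.trans ?_⟩
  · have h1 : ∀ q ∈ (inn Z R).sys.B w,
        |1 + (1 + g (lst ((inn Z R).sys.rem w q)) (fun i => f i ((inn Z R).sys.rem w q))) / 2 -
          (1 + (1 + g (lst w) (fun i => f i w)) / 2)| ≤
          (L + 2) * ∑ i, |f i ((inn Z R).sys.rem w q) / f i w - 1| := by
      intro q hq
      have hl : lst ((inn Z R).sys.rem w q) = lst w := by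
        have hqB := ((mem_sysB (inn Z R)).1 hq).1
        have hw0 := KR_sub R _ hw
        obtain ⟨U, U'⟩ := q
        rw [Rule.mem_B] at hqB
        have hw' := (Z.mem_K).1 hw0
        obtain ⟨L', R', h1, h2, h3, -⟩ := Rule.rep_all (Z.pair _ _ hqB.1).symm hw'.2 hqB.2
        simp only at h1 h2 h3
        change lst (Rule.rep w U' U) = lst w
        rw [h2, h1, Q294.Av.lst_rep (Z.pair _ _ hqB.1)]
      rw [hl]
      obtain ⟨x, hx⟩ : ∃ x : Fin j → ℝ, x = fun i => f i ((inn Z R).sys.rem w q) := ⟨_, rfl⟩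
      obtain ⟨y, hy⟩ : ∃ y : Fin j → ℝ, y = fun i => f i w := ⟨_, rfl⟩
      have hx0 : ∀ i, 0 ≤ x i := fun i => by
        rw [hx]
        exact (move_ratio (h i) hs hw hq).2.1
      have hy0 : ∀ i, 0 < y i := fun i => by
        rw [hy]
        have := (move_ratio (h i) hs hw hq).1
        dsimp only
        linarith
      have e1 : ∀ i, f i ((inn Z R).sys.rem w q) / f i w = x i / y i := fun i => by rw [hx, hy]
      simp only [e1]
      rw [← hx, ← hy]
      have e2 : 1 + (1 + g (lst w) x) / 2 - (1 + (1 + g (lst w) y) / 2) =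
          (g (lst w) x - g (lst w) y) / 2 := by ring
      rw [e2, abs_div, abs_of_pos (show (0 : ℝ) < 2 by norm_num)]
      have hS : 0 ≤ ∑ i, |x i / y i - 1| := sum_nonneg fun _ _ => abs_nonneg _
      by_cases hall : ∀ i, 1 / 2 ≤ x i / y i
      · have hx1 : ∀ i, 0 < x i := fun i => by
          have h2 : 0 < x i / y i := by linarith [hall i]
          exact (div_pos_iff_of_pos_right (hy0 i)).1 h2
        have h2 := hg.2 (lst w) x y hx1 hy0
        have h3 : ∑ i, |Real.log (x i) - Real.log (y i)| ≤ ∑ i, 2 * |x i / y i - 1| := by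
          refine sum_le_sum fun i _ => ?_
          rw [← Real.log_div (hx1 i).ne' (hy0 i).ne']
          exact log_ratio (hall i)
        rw [← mul_sum] at h3
        have h4 := mul_le_mul_of_nonneg_left h3 hL
        nlinarith
      · push Not at hall
        obtain ⟨i, hi⟩ := hall
        have h2 : 1 / 2 ≤ ∑ i, |x i / y i - 1| := by
          refine le_trans ?_ (single_le_sum (f := fun i => |x i / y i - 1|)
            (fun _ _ => abs_nonneg _) (mem_univ i))
          rw [abs_of_nonpos (by linarith)]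
          linarith
        have h3 := abs_le.1 (hg.1 (lst w) x)
        have h4 := abs_le.1 (hg.1 (lst w) y)
        have h5 : |g (lst w) x - g (lst w) y| ≤ 2 := by
          rw [abs_le]
          constructor <;> linarith [h3.1, h3.2, h4.1, h4.2]
        nlinarith
    refine (sum_le_sum h1).trans ?_
    rw [← mul_sum, sum_comm]
    have h2 : ∑ i : Fin j, ∑ q ∈ (inn Z R).sys.B w,
        |f i ((inn Z R).sys.rem w q) / f i w - 1| ≤ ∑ _i : Fin j, κ :=
      sum_le_sum fun i _ => sum_ratio (h i) hs hw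
    rw [sum_const, card_univ, Fintype.card_fin, nsmul_eq_mul] at h2
    have h3 := mul_le_mul_of_nonneg_left h2 (show 0 ≤ L + 2 by linarith)
    refine h3.trans ?_
    have h4 := (hb w).1
    have h5 : 0 ≤ (L + 2) * ((j : ℝ) * κ) := by positivity
    nlinarith
  · have h0 : (0 : ℝ) ≤ n := Nat.cast_nonneg n
    rw [pow_one]
    linarith

end

end Q78.UW
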