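import Pool.Agent.Q78.UW.Reg
import Pool.Agent.H739K.AREA
import Pool.Agent.H739K.HOR

set_option autoImplicit false

/-! The area of closed walks under the local moves. -/

namespace Q78.UW.Po

open Finset Filter Topology MeasureTheory TH966.AK Q294.Av Q294.Rs
open Pool.Agent.H924P (IsLoop area Encl Above)
open Pool.Agent.H976R2 (Dir dirOf wordOf pth Saw SW ins adm opp perp dx dy wX wY)
open Pool.Agent.H739K (ar lp)
open scoped Classical

noncomputable section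

/-- the word of a list of points -/
def wd : List P → List Dir
  | a :: b :: l => dirOf (b.1 - a.1, b.2 - a.2) :: wd (b :: l)
  | _ => []

theorem wd_split (p : P) (l : List P) : ∀ L : List P, wd (L ++ p :: l) = wd (L ++ [p]) ++ wd (p :: l)
  | [] => by simp [wd]
  | [a] => by simp [wd]
  | a :: b :: L => by
    have := wd_split p l (b :: L)
    simp only [List.cons_append, wd] at this ⊢
    rw [this]

theorem wd_ofFn : ∀ (n : ℕ) (g : Fin (n + 1) → P), wd (List.ofFn g) = wordOf n g := by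
  intro n
  induction n with
  | zero => intro g; simp [wd, wordOf]
  | succ n ih =>
    intro g
    have h := ih (fun i => g i.succ)
    unfold wordOf at h ⊢
    rw [List.ofFn_succ (n := n), List.ofFn_succ, List.ofFn_succ]
    rw [List.ofFn_succ] at h
    simp only [wd]
    rw [h]
    rfl

/-- the area enclosed by a closed walk -/
def arL (w : List P) : ℕ := ar (wd w)

theorem isSAW_of {n : ℕ} {g : Fin (n + 1) → P} (h : g 0 = 0 ∧ Function.Injective g ∧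
    ∀ i : Fin n, Q78.UR.Sq.A (g i.castSucc) (g i.succ)) : Pool.Agent.H976R2.IsSAW n g :=
  ⟨h.1, fun i => (Q78.UR.Sq.A_abs _ _).1 (h.2.2 i), h.2.1⟩

theorem lp_eq {n : ℕ} {g : Fin (n + 1) → P} (h : Pool.Agent.H976R2.IsSAW n g) :
    lp (n + 1) (wordOf n g) = g := Pool.Agent.H976R2.pth_wordOf h

theorem arL_ofFn {n : ℕ} {g : Fin (n + 1) → P} (h : Pool.Agent.H976R2.IsSAW n g) :
    arL (List.ofFn g) = area (n + 1) g := by
  unfold arL ar
  rw [wd_ofFn]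
  have hlen : (wordOf n g).length = n := by simp [wordOf]
  rw [hlen, lp_eq h]

/-- data of the word of a closed walk -/
theorem word_data {D : P → Prop} {n : ℕ} {w : List P} (hw : w ∈ KR Q78.UR.Sq.A (RD D) n) :
    (wd w).length = n ∧ Saw (wd w) ∧ Pool.Agent.H976R2.sq (wd w) = 1 ∧
      ∃ g : Fin (n + 1) → P, w = List.ofFn g ∧ Pool.Agent.H976R2.IsSAW n g ∧ IsLoop (n + 1) g ∧
        ∀ i, D (g i) := by
  rw [mem_KR] at hw
  obtain ⟨g, hg, rfl, hl⟩ := Q78.UR.exists_fun Q78.UR.Sq.rule hw.1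
  have hs := isSAW_of hg
  have hA : Q78.UR.Sq.A 0 (g (Fin.last n)) := by
    have := (hw.2 (g 0) (by rw [List.mem_ofFn]; exact ⟨0, rfl⟩)).1
    rwa [lst_ofFn] at this
  have hD : ∀ i, D (g i) := fun i => (hw.2 (g i) (by rw [List.mem_ofFn]; exact ⟨i, rfl⟩)).2
  have h1 := Pool.Agent.H976R2.wordOf_mem hs
  have h2 := Pool.Agent.H976R2.mem_SW.1 h1
  have h3 : |(g (Fin.last n)).1| + |(g (Fin.last n)).2| = 1 := by
    have := (Q78.UR.Sq.A_abs _ _).1 hA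
    simpa using this
  rw [wd_ofFn]
  refine ⟨h2.1, h2.2, ?_, g, rfl, hs, ?_, hD⟩
  · have h4 := Pool.Agent.H976R2.pth_last h1
    rw [Pool.Agent.H976R2.pth_wordOf hs] at h4
    rw [h4] at h3
    exact (Pool.Agent.H739K.CONV.sq_iff _ _).2 h3
  · exact (Pool.Agent.H739K.CONV.isLoop_iff n g).2 ⟨hs, h3⟩

/-- the geometry of the move -/
theorem square_dirs {p v u r : P} (h1 : Q78.UR.Sq.A p r) (h2 : Q78.UR.Sq.A p v)
    (h3 : Q78.UR.Sq.A v u) (h4 : Q78.UR.Sq.A u r) (n4 : p ≠ u) (n5 : v ≠ r) :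
    dirOf (u.1 - v.1, u.2 - v.2) = dirOf (r.1 - p.1, r.2 - p.2) ∧
    dirOf (r.1 - u.1, r.2 - u.2) = opp (dirOf (v.1 - p.1, v.2 - p.2)) ∧
    perp (dirOf (v.1 - p.1, v.2 - p.2)) (dirOf (r.1 - p.1, r.2 - p.2)) := by
  rw [Q78.UR.Sq.A_iff] at h1 h2 h3 h4
  have n4' : ¬ (p.1 = u.1 ∧ p.2 = u.2) := fun h => n4 (Prod.ext h.1 h.2)
  have n5' : ¬ (v.1 = r.1 ∧ v.2 = r.2) := fun h => n5 (Prod.ext h.1 h.2)
  rcases h1 with ⟨a1, a2⟩ | ⟨a1, a2⟩ | ⟨a1, a2⟩ | ⟨a1, a2⟩ <;>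
  rcases h2 with ⟨b1, b2⟩ | ⟨b1, b2⟩ | ⟨b1, b2⟩ | ⟨b1, b2⟩ <;>
  rcases h3 with ⟨c1, c2⟩ | ⟨c1, c2⟩ | ⟨c1, c2⟩ | ⟨c1, c2⟩ <;>
  rcases h4 with ⟨d1, d2⟩ | ⟨d1, d2⟩ | ⟨d1, d2⟩ | ⟨d1, d2⟩ <;>
  first
  | (exfalso; omega)
  | (have e1 : (u.1 - v.1, u.2 - v.2) = (r.1 - p.1, r.2 - p.2) := by
       rw [Prod.mk.injEq]; omega
     have e2 : r.1 - u.1 = -(v.1 - p.1) ∧ r.2 - u.2 = -(v.2 - p.2) := by omega
     have e3 : v.1 - p.1 = v.1 - p.1 := rfl
     rw [e1]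
     refine ⟨rfl, ?_, ?_⟩
     · rw [e2.1, e2.2, b1, b2]
       simp [dirOf, opp]
     · rw [a1, a2, b1, b2]
       simp [dirOf, perp, dx, dy])

/-- **a move changes the area by at most one** -/
theorem arL_move {D : P → Prop} {n : ℕ} (hn : 3 ≤ n) {w : List P}
    (hw : w ∈ KR Q78.UR.Sq.A (RD D) (n + Q78.UR.Sq.rule.s)) {q : List P × List P}
    (hq : q ∈ (inn Q78.UR.Sq.rule (RD D)).sys.B w) :
    (arL (Rule.rep w q.2 q.1) : ℝ) ≤ arL w + 1 ∧
      (arL w : ℝ) ≤ arL (Rule.rep w q.2 q.1) + 1 := by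
  have hrem : Rule.rep w q.2 q.1 ∈ KR Q78.UR.Sq.A (RD D) n :=
    (inn Q78.UR.Sq.rule (RD D)).sys.rem_K n w q (Nat.zero_le _) hw hq
  have hqB := ((mem_sysB (inn Q78.UR.Sq.rule (RD D))).1 hq).1
  have hw0 := KR_sub _ _ hw
  obtain ⟨U, U'⟩ := q
  rw [Rule.mem_B] at hqB
  have hw' := (Q78.UR.Sq.rule.mem_K).1 hw0
  obtain ⟨L, R', e1, e2, -⟩ := Rule.rep_all (Q78.UR.Sq.rule.pair _ _ hqB.1).symm hw'.2 hqB.2
  simp only at e1 e2 hqB hrem ⊢
  obtain ⟨p, v, u, r, rfl, rfl, h1, h2, h3, h4, n4, n5⟩ := hqB.1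
  obtain ⟨k1, k2, k3, -⟩ := word_data hrem
  obtain ⟨k4, k5, k6, -⟩ := word_data hw
  obtain ⟨s1, s2, s3⟩ := square_dirs h1 h2 h3 h4 n4 n5
  have w1 : wd (L ++ [p, r] ++ R') = wd (L ++ [p]) ++ dirOf (r.1 - p.1, r.2 - p.2) ::
      wd (r :: R') := by
    have e : L ++ [p, r] ++ R' = L ++ p :: (r :: R') := by simp
    rw [e, wd_split]
    rfl
  have w2 : wd (L ++ [p, v, u, r] ++ R') = wd (L ++ [p]) ++ dirOf (v.1 - p.1, v.2 - p.2) ::
      dirOf (r.1 - p.1, r.2 - p.2) :: opp (dirOf (v.1 - p.1, v.2 - p.2)) :: wd (r :: R') := by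
    have e : L ++ [p, v, u, r] ++ R' = L ++ p :: (v :: u :: r :: R') := by simp
    rw [e, wd_split]
    congr 1
    simp only [wd]
    rw [s1, s2]
  rw [e2] at hrem k1 k2 k3 ⊢
  obtain ⟨X, hX⟩ : ∃ X, X = wd (L ++ [p]) := ⟨_, rfl⟩
  obtain ⟨Y, hY⟩ : ∃ Y, Y = wd (r :: R') := ⟨_, rfl⟩
  rw [← hX, ← hY] at w1 w2
  have hlt : Pool.Agent.H976R2.lt (wd (L ++ [p, r] ++ R')) X.length =
      dirOf (r.1 - p.1, r.2 - p.2) := by
    rw [w1]
    unfold Pool.Agent.H976R2.lt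
    simp [List.getD_append_right]
  have hins : ins (wd (L ++ [p, r] ++ R')) X.length (dirOf (v.1 - p.1, v.2 - p.2)) = wd w := by
    unfold ins
    rw [hlt, w1, e1, w2]
    have t1 : (X ++ dirOf (r.1 - p.1, r.2 - p.2) :: Y).take X.length = X := by simp
    have t2 : (X ++ dirOf (r.1 - p.1, r.2 - p.2) :: Y).drop (X.length + 1) = Y := by
      simp
    rw [t1, t2]
  have hadm : (X.length, dirOf (v.1 - p.1, v.2 - p.2)) ∈ adm (wd (L ++ [p, r] ++ R')) := by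
    unfold adm
    rw [mem_filter, mem_product, mem_range]
    refine ⟨⟨?_, mem_univ _⟩, ?_, ?_⟩
    · rw [w1]
      simp
    · simp only
      rw [hlt]
      exact s3
    · simp only
      rw [hins]
      exact k5
  have hmain := Pool.Agent.H739K.AREA_proof (wd (L ++ [p, r] ++ R')) X.length _ (by omega) k2 k3 hadm
  rw [hins] at hmain
  unfold arL
  constructor
  · exact_mod_cast hmain.2
  · exact_mod_cast hmain.1

end

end Q78.UW.Po
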