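import Pool.Agent.Q78.UW.Poly2

set_option autoImplicit false

/-! Polygons in finite regions: from random domains to regions. -/

namespace Q78.UW.Po

open Finset Filter Topology MeasureTheory TH966.AK Q294.Av Q294.Rs
open Pool.Agent.H924P (IsLoop)
open scoped Classical

noncomputable section

/-- the uniform law on a finite region -/
def uni (Λ : Finset P) : @Measure P ⊤ := Q78.UR.wlaw Λ (fun _ => 1)

theorem uni_prob {Λ : Finset P} (h : Λ.Nonempty) : @IsProbabilityMeasure P ⊤ (uni Λ) :=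
  Q78.UR.wlaw_prob Λ _ (fun _ _ => zero_le_one) (by
    rw [sum_const, nsmul_one]
    exact_mod_cast h.card_pos)

theorem uni_int {Λ : Finset P} (h : Λ.Nonempty) (f : P → ℝ) :
    @integral P ℝ _ _ ⊤ (uni Λ) f = (∑ x ∈ Λ, f x) / Λ.card := by
  unfold uni
  rw [Q78.UR.wlaw_int Λ _ (fun _ _ => zero_le_one) (by
    rw [sum_const, nsmul_one]
    exact_mod_cast h.card_pos)]
  simp

/-- the region seen from a point of it -/
def Dr (Λ : Finset P) (x y : P) : Prop := x + y ∈ Λ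

theorem zero_mem {n : ℕ} {w : List P} (hw : w ∈ Kw Q78.UR.Sq.A n) : (0 : P) ∈ w := by
  have hw' := (Q78.UR.Sq.rule.mem_K).1 hw
  obtain ⟨a, b, rfl⟩ := List.exists_cons_of_ne_nil (ne_nil hw Q78.UR.Sq.rule)
  have := hw'.2.1
  simp only [List.head?_cons, Option.some.injEq] at this
  rw [this]
  simp

theorem KR_empty {Λ : Finset P} {x : P} (hx : x ∉ Λ) (k : ℕ) :
    KR Q78.UR.Sq.A (RD (Dr Λ x)) k = ∅ := by
  refine Finset.eq_empty_of_forall_notMem fun w hw => ?_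
  rw [mem_KR] at hw
  have h1 := (hw.2 0 (zero_mem hw.1)).2
  unfold Dr at h1
  rw [add_zero] at h1
  exact hx h1

/-- numbers of polygons in the region -/
theorem reg_card (m k : ℕ) (hm : m = k + 1) {Λ Λ' : Finset P} (h : Λ.Nonempty) (hsub : Λ' ⊆ Λ)
    (E : ∀ m, (ZMod m → P) → Prop) (E' : P → List P → Prop)
    (hE : ∀ (x : P) (k : ℕ) (g : Fin (k + 1) → P),
      E (k + 1) (fun i => x + g i) ↔ E' x (List.ofFn g)) :
    (Nat.card {f : ZMod m → P // (Poly m f ∧ ∀ i, f i ∈ Λ') ∧ E m f} : ℝ) =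
      Λ.card * @EE P ⊤ Q78.UR.Sq.A (uni Λ) (fun x => RD (Dr Λ' x)) E' k := by
  subst hm
  have hcard : (0 : ℝ) < Λ.card := by exact_mod_cast h.card_pos
  rw [unroot_card (k + 1) Λ' (E (k + 1))]
  unfold EE
  rw [uni_int h, mul_div_cancel₀ _ hcard.ne']
  have h1 : ∀ x, (Nat.card {g : ZMod (k + 1) → P // (IsLoop (k + 1) g ∧ ∀ i, x + g i ∈ Λ') ∧
      E (k + 1) (fun i => x + g i)} : ℝ) =
      (((KR Q78.UR.Sq.A (RD (Dr Λ' x)) k).filter (E' x)).card : ℝ) := by
    intro x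
    rw [← loop_card k (Dr Λ' x) (fun g => E (k + 1) (fun i => x + g i)) (E' x)
      (fun g => hE x k g)]
    rfl
  push_cast
  rw [Finset.sum_congr rfl fun x _ => h1 x]
  refine Finset.sum_subset hsub fun x _ hx => ?_
  rw [KR_empty hx, Finset.filter_empty, Finset.card_empty, Nat.cast_zero]

theorem reg_card' (m k : ℕ) (hm : m = k + 1) {Λ Λ' : Finset P} (h : Λ.Nonempty)
    (hsub : Λ' ⊆ Λ) : (Nat.card {f : ZMod m → P // Poly m f ∧ ∀ i, f i ∈ Λ'} : ℝ) =
      Λ.card * @Q78.UR.FF P ⊤ Q78.UR.Sq.A (uni Λ) (fun x => RD (Dr Λ' x)) k := by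
  have h1 := reg_card m k hm h hsub (fun _ _ => True) (fun _ _ => True) (fun _ _ _ => Iff.rfl)
  unfold EE at h1
  simp only [Finset.filter_true] at h1
  unfold Q78.UR.FF
  rw [← h1]
  congr 1
  exact Nat.card_congr (Equiv.subtypeEquivRight fun f => by simp)

/-- sums over the polygons in the region -/
theorem reg_sum (m k : ℕ) (hm : m = k + 1) {Λ : Finset P} (h : Λ.Nonempty)
    (F : ∀ m, (ZMod m → P) → ℝ) (F' : P → List P → ℝ)
    (hF : ∀ (x : P) (k : ℕ) (g : Fin (k + 1) → P),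
      F (k + 1) (fun i => x + g i) = F' x (List.ofFn g)) :
    ∑ᶠ f : {f : ZMod m → P // Poly m f ∧ ∀ i, f i ∈ Λ}, F m f.1 =
      Λ.card * @XX P ⊤ Q78.UR.Sq.A (uni Λ) (fun x => RD (Dr Λ x)) F' k := by
  subst hm
  have hcard : (0 : ℝ) < Λ.card := by exact_mod_cast h.card_pos
  rw [unroot_sum (k + 1) Λ (F (k + 1))]
  unfold XX
  rw [uni_int h, mul_div_cancel₀ _ hcard.ne']
  refine Finset.sum_congr rfl fun x _ => ?_
  rw [← loop_sum k (Dr Λ x) (fun g => F (k + 1) (fun i => x + g i)) (F' x) (fun g => hF x k g)]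
  rfl

/-- rooted polygons: numbers -/
theorem root_card (m k : ℕ) (hm : m = k + 1) (D : P → Prop) (E : ∀ m, (ZMod m → P) → Prop)
    (E' : List P → Prop) (hE : ∀ (k : ℕ) (g : Fin (k + 1) → P), E (k + 1) g ↔ E' (List.ofFn g)) :
    Nat.card {f : ZMod m → P // (IsLoop m f ∧ ∀ i, D (f i)) ∧ E m f} =
      ((KR Q78.UR.Sq.A (RD D) k).filter E').card := by
  subst hm
  exact loop_card k D (E (k + 1)) E' (fun g => hE k g)

theorem root_card' (m k : ℕ) (hm : m = k + 1) (D : P → Prop) :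
    Nat.card {f : ZMod m → P // IsLoop m f ∧ ∀ i, D (f i)} =
      (KR Q78.UR.Sq.A (RD D) k).card := by
  subst hm
  exact loop_card' k D

/-- rooted polygons: sums -/
theorem root_sum (m k : ℕ) (hm : m = k + 1) (D : P → Prop) (F : ∀ m, (ZMod m → P) → ℝ)
    (F' : List P → ℝ) (hF : ∀ (k : ℕ) (g : Fin (k + 1) → P), F (k + 1) g = F' (List.ofFn g)) :
    ∑ᶠ g : {g : ZMod m → P // IsLoop m g ∧ ∀ i, D (g i)}, F m g.1 =
      WR Q78.UR.Sq.A (RD D) F' k := by
  subst hm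
  exact loop_sum k D (F (k + 1)) F' (fun g => hF k g)

/-- the trivial event -/
theorem EE_univ {Ω : Type} [MeasurableSpace Ω] (ν : Measure Ω) (D : Ω → P → Prop)
    (c : Ω → Fin 0 → P → ℂ) (k : ℕ) :
    EE Q78.UR.Sq.A ν (fun ω => RD (D ω)) (Ev FcT c (fun _ => Set.univ)) k =
      Q78.UR.FF Q78.UR.Sq.A ν (fun ω => RD (D ω)) k := by
  unfold EE Q78.UR.FF
  congr 1
  funext ω
  congr 2
  refine Finset.filter_true_of_mem fun w hw => ?_
  rw [mem_KR] at hw
  exact ⟨ne_nil hw.1 Q78.UR.Sq.rule, trivial⟩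

/-- the whole plane -/
theorem Fp_all {Ω : Type} [MeasurableSpace Ω] (ν : Measure Ω) [IsProbabilityMeasure ν] {n : ℕ}
    (hn : 1 ≤ n) : Fp ν (fun _ _ => True) n = 4 * n * H981.PP n := by
  rw [← all_loops n hn]
  unfold Fp Q78.UR.FF
  simp

theorem Pl_all {Ω : Type} [MeasurableSpace Ω] (ν : Measure Ω) [IsProbabilityMeasure ν] {n : ℕ}
    (hn : 2 ≤ n) : Pl ν (fun _ _ => True) n = 1 := by
  unfold Pl
  rw [Fp_all ν (by omega)]
  have h1 := PP_pos hn
  have h2 : (0 : ℝ) < n := by exact_mod_cast (show 0 < n by omega)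
  exact div_self (by positivity)

end

end Q78.UW.Po
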