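import Pool.Agent.Q78.UW.Ar

set_option autoImplicit false

/-! The area of a polygon is at least a quarter of its perimeter. -/

namespace Q78.UW.Po

open Finset Pool.Agent.H924P
open Pool.Agent.H739K.HORaux (finite_encl)
open scoped Classical

noncomputable section

variable {m : ℕ} {f : ZMod m → ℤ × ℤ}

/-- the edge `k` is the vertical edge from `(a, b)` to `(a, b+1)` -/
def VE (f : ZMod m → ℤ × ℤ) (a b : ℤ) (k : ZMod m) : Prop :=
  (f k = (a, b) ∧ f (k + 1) = (a, b + 1)) ∨ (f k = (a, b + 1) ∧ f (k + 1) = (a, b))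

theorem two_ne (hm : 3 ≤ m) : (2 : ZMod m) ≠ 0 := by
  intro h
  have h3 : (m : ℕ) ∣ 2 := (ZMod.natCast_eq_zero_iff 2 m).mp (by exact_mod_cast h)
  have := Nat.le_of_dvd (by norm_num) h3
  omega

theorem VE.uniq (hm : 3 ≤ m) (hinj : Function.Injective f) {a b : ℤ} {j k : ZMod m}
    (hj : VE f a b j) (hk : VE f a b k) : j = k := by
  rcases hj with ⟨h1, h2⟩ | ⟨h1, h2⟩ <;> rcases hk with ⟨h3, h4⟩ | ⟨h3, h4⟩
  · exact hinj (h1.trans h3.symm)
  · exfalso
    have e1 : j = k + 1 := hinj (h1.trans h4.symm)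
    have e2 : j + 1 = k := hinj (h2.trans h3.symm)
    apply two_ne hm
    have h7 : k + 2 = k + 0 := by
      calc k + 2 = k + 1 + 1 := by ring
        _ = k + 0 := by rw [← e1, e2, add_zero]
    exact add_left_cancel h7
  · exfalso
    have e1 : j = k + 1 := hinj (h1.trans h4.symm)
    have e2 : j + 1 = k := hinj (h2.trans h3.symm)
    apply two_ne hm
    have h7 : k + 2 = k + 0 := by
      calc k + 2 = k + 1 + 1 := by ring
        _ = k + 0 := by rw [← e1, e2, add_zero]
    exact add_left_cancel h7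
  · exact hinj (h1.trans h3.symm)

/-- one crosses the polygon when one passes a vertical edge -/
theorem ver_parity [NeZero m] (hm : 3 ≤ m) (hinj : Function.Injective f)
    (hs : ∀ i : ZMod m, |(f (i+1)).1 - (f i).1| + |(f (i+1)).2 - (f i).2| = 1)
    {a b : ℤ} {k : ZMod m} (hk : VE f a b k) :
    Encl m f (a - 1, b) ↔ ¬ Encl m f (a, b) := by
  unfold Encl
  rw [Nat.card_eq_fintype_card, Nat.card_eq_fintype_card, Fintype.card_subtype,
    Fintype.card_subtype]
  simp only
  have hid : ∀ j : ZMod m, (if (f j).1 = a ∧ b < (f j).2 then 1 else 0) +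
      (if (f (j + 1)).1 = a ∧ b < (f (j + 1)).2 then 1 else 0) =
      (if Above m f (a - 1) b j then 1 else 0) + (if Above m f a b j then 1 else 0) +
      (if VE f a b j then 1 else 0) +
      2 * (if (f j).1 = a ∧ (f (j + 1)).1 = a ∧ b < (f j).2 ∧ b < (f (j + 1)).2 then 1 else 0) := by
    intro j
    have h := hs j
    have hV : VE f a b j ↔ ((f j).1 = a ∧ (f j).2 = b ∧ (f (j + 1)).1 = a ∧
        (f (j + 1)).2 = b + 1) ∨ ((f j).1 = a ∧ (f j).2 = b + 1 ∧ (f (j + 1)).1 = a ∧
        (f (j + 1)).2 = b) := by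
      unfold VE
      simp only [Prod.ext_iff]
      tauto
    unfold Above
    rw [if_congr hV rfl rfl]
    obtain ⟨x, hx⟩ : ∃ x, x = (f j).1 := ⟨_, rfl⟩
    obtain ⟨y, hy⟩ : ∃ y, y = (f j).2 := ⟨_, rfl⟩
    obtain ⟨x', hx'⟩ : ∃ x', x' = (f (j + 1)).1 := ⟨_, rfl⟩
    obtain ⟨y', hy'⟩ : ∃ y', y' = (f (j + 1)).2 := ⟨_, rfl⟩
    rw [← hx, ← hy, ← hx', ← hy'] at h ⊢
    have hcases : (x' = x + 1 ∧ y' = y) ∨ (x' = x - 1 ∧ y' = y) ∨ (x' = x ∧ y' = y + 1) ∨
        (x' = x ∧ y' = y - 1) := by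
      rcases abs_cases (x' - x) with ⟨g1, g2⟩ | ⟨g1, g2⟩ <;>
      rcases abs_cases (y' - y) with ⟨g3, g4⟩ | ⟨g3, g4⟩ <;> omega
    rcases hcases with ⟨e1, e2⟩ | ⟨e1, e2⟩ | ⟨e1, e2⟩ | ⟨e1, e2⟩ <;> rw [e1, e2] <;>
      split_ifs <;> first | rfl | (exfalso; omega)
  have hsum := Finset.sum_congr (rfl : (univ : Finset (ZMod m)) = univ) fun j _ => hid j
  rw [Finset.sum_add_distrib, Finset.sum_add_distrib, Finset.sum_add_distrib,
    Finset.sum_add_distrib, ← Finset.mul_sum] at hsum
  have hshift : ∑ j : ZMod m, (if (f (j + 1)).1 = a ∧ b < (f (j + 1)).2 then 1 else 0) =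
      ∑ j : ZMod m, (if (f j).1 = a ∧ b < (f j).2 then 1 else 0) :=
    Equiv.sum_comp (Equiv.addRight (1 : ZMod m))
      (fun j => if (f j).1 = a ∧ b < (f j).2 then (1 : ℕ) else 0)
  rw [hshift] at hsum
  have hone : ∑ j : ZMod m, (if VE f a b j then 1 else 0) = 1 := by
    rw [Finset.sum_eq_single k]
    · rw [if_pos hk]
    · intro j _ hj
      rw [if_neg]
      intro h
      exact hj (VE.uniq hm hinj h hk)
    · intro h
      exact absurd (mem_univ k) h
  rw [hone] at hsum
  have c1 : ∑ j : ZMod m, (if Above m f (a - 1) b j then 1 else 0) =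
      (univ.filter fun j => Above m f (a - 1) b j).card := by
    rw [Finset.card_filter]
  have c2 : ∑ j : ZMod m, (if Above m f a b j then 1 else 0) =
      (univ.filter fun j => Above m f a b j).card := by
    rw [Finset.card_filter]
  rw [c1, c2] at hsum
  rw [Nat.odd_iff, Nat.odd_iff]
  omega

theorem ver_le (hm : 3 ≤ m) (hf : IsLoop m f) :
    Nat.card {k : ZMod m // (f (k + 1)).1 = (f k).1} ≤ 2 * area m f := by
  have hne : NeZero m := ⟨by omega⟩
  obtain ⟨-, hinj, hs⟩ := hf
  have hfin := finite_encl (f := f) hs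
  let b : ZMod m → ℤ := fun k => min (f k).2 (f (k + 1)).2
  have hve : ∀ k : ZMod m, (f (k + 1)).1 = (f k).1 → VE f (f k).1 (b k) k := by
    intro k hk
    have h1 := hs k
    rw [hk, sub_self, abs_zero, zero_add] at h1
    simp only [b]
    rcases abs_eq (by norm_num : (0 : ℤ) ≤ 1) |>.mp h1 with h2 | h2
    · left
      rw [min_eq_left (by omega)]
      exact ⟨rfl, Prod.ext hk (by simp only; omega)⟩
    · right
      rw [min_eq_right (by omega)]
      exact ⟨Prod.ext rfl (by simp only; omega), Prod.ext hk rfl⟩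
  have hA : area m f = Nat.card {c : ℤ × ℤ // Encl m f c} := rfl
  let Φ : {k : ZMod m // (f (k + 1)).1 = (f k).1} → {c : ℤ × ℤ // Encl m f c} × Bool :=
    fun k => if h : Encl m f ((f k.1).1, b k.1) then (⟨((f k.1).1, b k.1), h⟩, true)
      else (⟨((f k.1).1 - 1, b k.1), (ver_parity hm hinj hs (hve k.1 k.2)).mpr h⟩, false)
  have hΦ : Function.Injective Φ := by
    rintro ⟨k, hk⟩ ⟨j, hj⟩ h
    apply Subtype.ext
    simp only [Φ] at h
    have key : (f k).1 = (f j).1 → b k = b j → k = j := by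
      intro h1 h2
      have h3 := hve k hk
      rw [h1, h2] at h3
      exact VE.uniq hm hinj h3 (hve j hj)
    split_ifs at h with h1 h2 h2
    · have h3 := congrArg (fun p => p.1.1) h
      simp only [Prod.mk.injEq] at h3
      exact key h3.1 h3.2
    · simp at h
    · simp at h
    · have h3 := congrArg (fun p => p.1.1) h
      simp only [Prod.mk.injEq] at h3
      exact key (by omega) h3.2
  have h1 := Nat.card_le_card_of_injective Φ hΦ
  rw [Nat.card_prod, Nat.card_eq_fintype_card (α := Bool), Fintype.card_bool] at h1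
  rw [hA]
  linarith

/-- the perimeter is at most four times the area -/
theorem le_area (hm : 4 ≤ m) (hf : IsLoop m f) : m ≤ 4 * area m f := by
  have hne : NeZero m := ⟨by omega⟩
  have h1 := Pool.Agent.H739K.HOR_proof m f hm hf
  have h2 := ver_le (by omega) hf
  have h3 : ∀ k : ZMod m, ((f (k + 1)).2 = (f k).2) ↔ ¬ ((f (k + 1)).1 = (f k).1) := by
    intro k
    have h := hf.2.2 k
    rcases abs_cases ((f (k + 1)).1 - (f k).1) with ⟨g1, g2⟩ | ⟨g1, g2⟩ <;>
    rcases abs_cases ((f (k + 1)).2 - (f k).2) with ⟨g3, g4⟩ | ⟨g3, g4⟩ <;> omega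
  have h4 : Nat.card {k : ZMod m // (f (k + 1)).2 = (f k).2} +
      Nat.card {k : ZMod m // (f (k + 1)).1 = (f k).1} = m := by
    rw [Nat.card_eq_fintype_card, Nat.card_eq_fintype_card, Fintype.card_subtype,
      Fintype.card_subtype]
    have h5 : (Finset.univ.filter fun k : ZMod m => (f (k + 1)).2 = (f k).2) =
        Finset.univ.filter fun k : ZMod m => ¬ ((f (k + 1)).1 = (f k).1) := by
      ext k
      simp only [Finset.mem_filter, Finset.mem_univ, true_and]
      exact h3 k
    rw [h5, add_comm, Finset.card_filter_add_card_filter_not, Finset.card_univ, ZMod.card]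
  omega

end

end Q78.UW.Po
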