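import Pool.Agent.Q78.UW.Ar
import Pool.Agent.Q78.UW.Ver
import Pool.Agent.Q78.UW.Reg
import Pool.Agent.H924P.Mean

set_option autoImplicit false

/-! Weights which depend on the area of a polygon. -/

namespace Q78.UW.Po

open Finset Filter Topology MeasureTheory TH966.AK Q294.Av Q294.Rs
open Pool.Agent.H924P (IsLoop area Encl Above)
open scoped Classical

noncomputable section

/-- the area of a list of points -/
def arP (w : List P) : ℕ := area w.length (fun i : ZMod w.length => w.getD i.val 0)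

theorem arP_ofFn (k : ℕ) (g : Fin (k + 1) → P) : arP (List.ofFn g) = area (k + 1) g := by
  have key : ∀ m (_ : m = k + 1), area m (fun i : ZMod m => (List.ofFn g).getD i.val 0) =
      area (k + 1) g := by
    rintro _ rfl
    congr 1
    funext i
    rw [List.getD_eq_getElem _ _ (by
      rw [List.length_ofFn]
      exact (i : Fin (k + 1)).isLt), List.getElem_ofFn]
    rfl
  exact key _ (by simp)

theorem arP_eq {D : P → Prop} {n : ℕ} {w : List P} (hw : w ∈ KR Q78.UR.Sq.A (RD D) n) :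
    arP w = arL w := by
  obtain ⟨-, -, -, g, rfl, hs, -, -⟩ := word_data hw
  rw [arP_ofFn, arL_ofFn hs]

theorem arP_up {D : P → Prop} {n : ℕ} {w : List P} (hw : w ∈ KR Q78.UR.Sq.A (RD D) n) :
    arP w ≤ (2 * (n + 1)) ^ 2 := by
  obtain ⟨-, -, -, g, rfl, hs, hl, -⟩ := word_data hw
  rw [arP_ofFn]
  exact Pool.Agent.H924P.all_area hl

theorem arP_low {D : P → Prop} {n : ℕ} (hn : 3 ≤ n) {w : List P}
    (hw : w ∈ KR Q78.UR.Sq.A (RD D) n) : n + 1 ≤ 4 * arP w := by
  obtain ⟨-, -, -, g, rfl, hs, hl, -⟩ := word_data hw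
  rw [arP_ofFn]
  exact le_area (by omega) hl

theorem max_dist (a b : ℝ) : |max 1 a - max 1 b| ≤ |a - b| := by
  rw [max_comm 1 a, max_comm 1 b]
  exact abs_max_sub_max_le_abs a b 1

/-- functions which vary slowly -/
structure Mod (m : ℕ) (L K0 : ℝ) (φ : ℝ → ℝ) : Prop where
  ge : ∀ x, 1 ≤ x → 1 ≤ φ x
  lip : ∀ x y, 1 ≤ x → 1 ≤ y → |x - y| ≤ 1 → |φ y - φ x| ≤ L / x * φ x
  crude : ∀ x y, 1 ≤ x → x ≤ 100 → 1 ≤ y → y ≤ 100 → φ y ≤ K0 * φ x
  up : ∀ x, 1 ≤ x → φ x ≤ 2 * x ^ m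

/-- the constant for the class `Mod` -/
def kap (L K0 : ℝ) : ℝ := 4 * Q78.UR.Sq.rule.CC * L + 5 * Q78.UR.Sq.rule.CC * (K0 + 1)

theorem fr_area {m : ℕ} {L K0 : ℝ} (hL : 0 ≤ L) (hK : 0 ≤ K0) {φ : ℝ → ℝ} (h : Mod m L K0 φ)
    (D : P → Prop) :
    Fr Q78.UR.Sq.rule (RD D) (kap L K0) (2 * m + 1) (fun w => φ (max 1 (arP w))) := by
  have hpos : ∀ w : List P, 1 ≤ φ (max 1 (arP w)) := fun w => h.ge _ (le_max_left _ _)
  refine ⟨⟨fun n w _ => by linarith [hpos w], fun n w _ hw => ?_⟩, fun n _ w _ => hpos w,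
    fun n w hw => ?_⟩
  · have hB := BR_le Q78.UR.Sq.rule (RD D) _ w hw
    obtain ⟨C, hC⟩ : ∃ C : ℕ, C = (inn Q78.UR.Sq.rule (RD D)).sys.C := ⟨_, rfl⟩
    have hC' : C = Q78.UR.Sq.rule.CC := hC
    rw [← hC] at hB
    have hs : (inn Q78.UR.Sq.rule (RD D)).sys.s = 2 := rfl
    have hC0 : (0 : ℝ) ≤ C := Nat.cast_nonneg _
    have hBR : (((inn Q78.UR.Sq.rule (RD D)).sys.B w).card : ℝ) ≤ C * ((n : ℝ) + 3) := by
      have h1 : (((inn Q78.UR.Sq.rule (RD D)).sys.B w).card : ℝ) ≤ ((C * (n + 2 + 1) : ℕ) : ℝ) := by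
        exact_mod_cast hB
      refine h1.trans (le_of_eq ?_)
      push_cast
      ring
    have hw1 : w ∈ KR Q78.UR.Sq.A (RD D) (n + 2) := hw
    have h0 := hpos w
    rcases Nat.lt_or_ge n 3 with hn | hn
    · -- few steps
      have h1 : ∀ q ∈ (inn Q78.UR.Sq.rule (RD D)).sys.B w,
          |φ (max 1 (arP ((inn Q78.UR.Sq.rule (RD D)).sys.rem w q))) - φ (max 1 (arP w))| ≤
            (K0 + 1) * φ (max 1 (arP w)) := by
        intro q hq
        have hrem : (inn Q78.UR.Sq.rule (RD D)).sys.rem w q ∈ KR Q78.UR.Sq.A (RD D) n :=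
          (inn Q78.UR.Sq.rule (RD D)).sys.rem_K n w q (Nat.zero_le _) hw hq
        have a1 := arP_up hrem
        have a2 := arP_up hw1
        have a3 : arP ((inn Q78.UR.Sq.rule (RD D)).sys.rem w q) ≤ 100 := by
          refine a1.trans ?_
          have : (2 * (n + 1)) ^ 2 ≤ (2 * 5) ^ 2 := Nat.pow_le_pow_left (by omega) 2
          omega
        have a4 : arP w ≤ 100 := by
          refine a2.trans ?_
          have : (2 * (n + 2 + 1)) ^ 2 ≤ (2 * 5) ^ 2 := Nat.pow_le_pow_left (by omega) 2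
          omega
        have b1 : (arP ((inn Q78.UR.Sq.rule (RD D)).sys.rem w q) : ℝ) ≤ 100 := by exact_mod_cast a3
        have b2 : (arP w : ℝ) ≤ 100 := by exact_mod_cast a4
        have h2 := h.crude (max 1 (arP w)) (max 1 (arP ((inn Q78.UR.Sq.rule (RD D)).sys.rem w q)))
          (le_max_left _ _) (max_le (by norm_num) b2) (le_max_left _ _) (max_le (by norm_num) b1)
        have h3 := hpos ((inn Q78.UR.Sq.rule (RD D)).sys.rem w q)
        rw [abs_le]
        constructor <;> nlinarith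
      refine (sum_le_sum h1).trans ?_
      rw [sum_const, nsmul_eq_mul]
      have hn3 : (n : ℝ) + 3 ≤ 5 := by
        have : (n : ℝ) ≤ 2 := by exact_mod_cast (show n ≤ 2 by omega)
        linarith
      have h4 : (((inn Q78.UR.Sq.rule (RD D)).sys.B w).card : ℝ) ≤ 5 * C := by nlinarith
      unfold kap
      rw [← hC']
      have h5 : 0 ≤ 4 * (C : ℝ) * L * φ (max 1 (arP w)) := by positivity
      have h6 := mul_le_mul_of_nonneg_right h4
        (show 0 ≤ (K0 + 1) * φ (max 1 (arP w)) by positivity)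
      nlinarith
    · have hx : ((n : ℝ) + 3) / 4 ≤ max 1 (arP w : ℝ) := by
        have h1 := arP_low (show 3 ≤ n + 2 by omega) hw1
        have h2 : ((n : ℝ) + 3) ≤ 4 * arP w := by exact_mod_cast h1
        exact le_max_of_le_right (by linarith)
      have h1 : ∀ q ∈ (inn Q78.UR.Sq.rule (RD D)).sys.B w,
          |φ (max 1 (arP ((inn Q78.UR.Sq.rule (RD D)).sys.rem w q))) - φ (max 1 (arP w))| ≤
            L / max 1 (arP w : ℝ) * φ (max 1 (arP w : ℝ)) := by
        intro q hq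
        have hrem : (inn Q78.UR.Sq.rule (RD D)).sys.rem w q ∈ KR Q78.UR.Sq.A (RD D) n :=
          (inn Q78.UR.Sq.rule (RD D)).sys.rem_K n w q (Nat.zero_le _) hw hq
        have hmv := arL_move hn (w := w) hw1 hq
        change (arL ((inn Q78.UR.Sq.rule (RD D)).sys.rem w q) : ℝ) ≤ arL w + 1 ∧
          (arL w : ℝ) ≤ arL ((inn Q78.UR.Sq.rule (RD D)).sys.rem w q) + 1 at hmv
        rw [← arP_eq hrem, ← arP_eq hw1] at hmv
        refine h.lip _ _ (le_max_left _ _) (le_max_left _ _) ?_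
        refine (max_dist _ _).trans ?_
        rw [abs_le]
        constructor <;> linarith [hmv.1, hmv.2]
      refine (sum_le_sum h1).trans ?_
      rw [sum_const, nsmul_eq_mul]
      have hn0 : (0 : ℝ) ≤ n := Nat.cast_nonneg _
      have hx0 : 0 < max 1 (arP w : ℝ) := by positivity
      have h2 : (((inn Q78.UR.Sq.rule (RD D)).sys.B w).card : ℝ) * (L / max 1 (arP w : ℝ)) ≤
          4 * C * L := by
        rw [mul_div_assoc', div_le_iff₀ hx0]
        have h3 := mul_le_mul_of_nonneg_right hBR hL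
        have h4 := mul_le_mul_of_nonneg_left hx (show 0 ≤ 4 * C * L by positivity)
        linarith
      have h3 := mul_le_mul_of_nonneg_right h2 (show 0 ≤ φ (max 1 (arP w)) by positivity)
      unfold kap
      rw [← hC']
      have h5 : 0 ≤ 5 * (C : ℝ) * (K0 + 1) * φ (max 1 (arP w)) := by positivity
      nlinarith
  · have h1 := h.up (max 1 (arP w)) (le_max_left _ _)
    have h2 : (arP w : ℝ) ≤ (2 * (n : ℝ) + 2) ^ 2 := by
      have := arP_up hw
      have h3 : (arP w : ℝ) ≤ ((2 * (n + 1)) ^ 2 : ℕ) := by exact_mod_cast this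
      refine h3.trans (le_of_eq ?_)
      push_cast
      ring
    have hn0 : (0 : ℝ) ≤ n := Nat.cast_nonneg _
    have h3 : (1 : ℝ) ≤ (2 * (n : ℝ) + 2) ^ 2 := one_le_pow₀ (by linarith)
    have h4 : max 1 (arP w : ℝ) ^ m ≤ ((2 * (n : ℝ) + 2) ^ 2) ^ m :=
      pow_le_pow_left₀ (by positivity) (max_le h3 h2) m
    rw [pow_succ, pow_mul]
    have h5 : (0 : ℝ) ≤ ((2 * (n : ℝ) + 2) ^ 2) ^ m := by positivity
    nlinarith

end

end Q78.UW.Po
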