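import Pool.Agent.Q78.UW.ArW

set_option autoImplicit false

/-! Powers and bounded functions of the area; polygons with weights, nested. -/

namespace Q78.UW.Po

open Finset Filter Topology MeasureTheory TH966.AK Q294.Av Q294.Rs
open Pool.Agent.H924P (IsLoop area Encl Above)
open scoped Classical

noncomputable section

theorem abs_exp_le (u : ℝ) : |Real.exp u - 1| ≤ |u| * Real.exp |u| := by
  rcases le_total 0 u with h | h
  · rw [abs_of_nonneg h, abs_of_nonneg (by linarith [Real.add_one_le_exp u])]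
    have h1 := Real.add_one_le_exp (-u)
    have h2 := Real.exp_pos u
    have h3 : Real.exp u * Real.exp (-u) = 1 := by rw [← Real.exp_add]; simp
    nlinarith
  · have h1 : Real.exp u ≤ 1 := Real.exp_le_one_iff.2 h
    rw [abs_of_nonpos h, abs_of_nonpos (by linarith)]
    have h2 := Real.add_one_le_exp u
    have h3 : 1 ≤ Real.exp (-u) := Real.one_le_exp (by linarith)
    nlinarith

theorem near_log {x y : ℝ} (hx : 1 ≤ x) (hy : 1 ≤ y) (h : |x - y| ≤ 1) :
    |Real.log y - Real.log x| ≤ 2 / x := by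
  obtain ⟨h1, h2⟩ := abs_le.1 h
  have hx0 : 0 < x := by linarith
  have hy0 : 0 < y := by linarith
  have e1 : Real.log y - Real.log x ≤ 1 / x := by
    rw [← Real.log_div hy0.ne' hx0.ne']
    refine (Real.log_le_sub_one_of_pos (div_pos hy0 hx0)).trans ?_
    rw [div_sub_one hx0.ne']
    exact div_le_div_of_nonneg_right (by linarith) hx0.le
  have e2 : Real.log x - Real.log y ≤ 1 / y := by
    rw [← Real.log_div hx0.ne' hy0.ne']
    refine (Real.log_le_sub_one_of_pos (div_pos hx0 hy0)).trans ?_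
    rw [div_sub_one hy0.ne']
    exact div_le_div_of_nonneg_right (by linarith) hy0.le
  have e3 : 1 / y ≤ 2 / x := by
    rw [div_le_div_iff₀ hy0 hx0]
    linarith
  have e4 : 1 / x ≤ 2 / x := div_le_div_of_nonneg_right (by norm_num) hx0.le
  rw [abs_le]
  constructor <;> linarith

/-- powers -/
theorem mod_pow (m : ℕ) (q : ℝ) (hq0 : 0 ≤ q) (hq : q ≤ m) :
    Mod m (2 * m * Real.exp (2 * m)) (100 ^ m) (fun x => x ^ q) := by
  have hm0 : (0 : ℝ) ≤ m := Nat.cast_nonneg _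
  refine ⟨fun x hx => Real.one_le_rpow hx hq0, fun x y hx hy h => ?_, fun x y hx _ hy hy2 => ?_,
    fun x hx => ?_⟩
  · have hx0 : 0 < x := by linarith
    have hy0 : 0 < y := by linarith
    have e : y ^ q - x ^ q = x ^ q * (Real.exp (q * (Real.log y - Real.log x)) - 1) := by
      rw [mul_sub, mul_one, Real.rpow_def_of_pos hx0, Real.rpow_def_of_pos hy0, ← Real.exp_add]
      congr 2
      ring
    have hl := near_log hx hy h
    have hu : |q * (Real.log y - Real.log x)| ≤ 2 * m / x := by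
      rw [abs_mul, abs_of_nonneg hq0]
      calc q * |Real.log y - Real.log x| ≤ m * (2 / x) := mul_le_mul hq hl (abs_nonneg _) hm0
        _ = 2 * m / x := by ring
    have hu2 : 2 * (m : ℝ) / x ≤ 2 * m := div_le_self (by positivity) hx
    have hxq : 0 < x ^ q := Real.rpow_pos_of_pos hx0 _
    show |y ^ q - x ^ q| ≤ 2 * m * Real.exp (2 * m) / x * x ^ q
    rw [e, abs_mul, abs_of_pos hxq, mul_comm]
    refine mul_le_mul_of_nonneg_right ?_ hxq.le
    refine (abs_exp_le _).trans ?_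
    calc |q * (Real.log y - Real.log x)| * Real.exp |q * (Real.log y - Real.log x)| ≤
          (2 * m / x) * Real.exp (2 * m) :=
          mul_le_mul hu (Real.exp_le_exp.2 (hu.trans hu2)) (Real.exp_pos _).le (by positivity)
      _ = _ := by ring
  · show y ^ q ≤ 100 ^ m * x ^ q
    have h1 : 1 ≤ x ^ q := Real.one_le_rpow hx hq0
    have h2 : y ^ q ≤ 100 ^ m := by
      calc y ^ q ≤ (100 : ℝ) ^ q := Real.rpow_le_rpow (by linarith) hy2 hq0
        _ ≤ (100 : ℝ) ^ (m : ℝ) := Real.rpow_le_rpow_of_exponent_le (by norm_num) hq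
        _ = 100 ^ m := Real.rpow_natCast _ _
    have h3 : (0 : ℝ) < 100 ^ m := by positivity
    nlinarith
  · show x ^ q ≤ 2 * x ^ m
    have h2 : x ^ q ≤ x ^ m := by
      calc x ^ q ≤ x ^ (m : ℝ) := Real.rpow_le_rpow_of_exponent_le hx hq
        _ = x ^ m := Real.rpow_natCast _ _
    have h3 : (0 : ℝ) < x ^ m := by positivity
    linarith

/-- bounded functions which are Lipschitz on the logarithmic scale -/
def LL (L : ℝ) (g : ℝ → ℝ) : Prop :=
  (∀ x, 1 ≤ x → 0 ≤ g x ∧ g x ≤ 1) ∧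
    ∀ x y, 1 ≤ x → 1 ≤ y → |g x - g y| ≤ L * |Real.log x - Real.log y|

theorem mod_bdd {L : ℝ} (hL : 0 ≤ L) {g : ℝ → ℝ} (h : LL L g) :
    Mod 0 (2 * L) 2 (fun x => 1 + g x) := by
  refine ⟨fun x hx => by linarith [(h.1 x hx).1], fun x y hx hy hxy => ?_,
    fun x y hx _ hy _ => ?_, fun x hx => ?_⟩
  · show |1 + g y - (1 + g x)| ≤ 2 * L / x * (1 + g x)
    have hx0 : 0 < x := by linarith
    have h1 := h.2 y x hy hx
    have h2 := near_log hx hy hxy
    have h3 : |1 + g y - (1 + g x)| = |g y - g x| := by congr 1; ring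
    rw [h3]
    have h4 : 2 * L / x ≤ 2 * L / x * (1 + g x) := by
      have h5 : 0 ≤ 2 * L / x := by positivity
      nlinarith [(h.1 x hx).1]
    refine le_trans ?_ h4
    calc |g y - g x| ≤ L * |Real.log y - Real.log x| := h1
      _ ≤ L * (2 / x) := mul_le_mul_of_nonneg_left h2 hL
      _ = 2 * L / x := by ring
  · show 1 + g y ≤ 2 * (1 + g x)
    linarith [(h.1 x hx).1, (h.1 y hy).2]
  · show 1 + g x ≤ 2 * x ^ 0
    rw [pow_zero]
    linarith [(h.1 x hx).2]

/-- the area does not change under translations -/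
theorem area_shift (m : ℕ) (x : P) (f : ZMod m → P) : area m (fun i => x + f i) = area m f := by
  unfold area
  refine Nat.card_congr ?_
  refine Equiv.subtypeEquiv (Equiv.addRight (-x)) fun c => ?_
  unfold Encl
  have e : (fun k : ZMod m => Above m (fun i => x + f i) c.1 c.2 k) =
      fun k => Above m f ((Equiv.addRight (-x)) c).1 ((Equiv.addRight (-x)) c).2 k := by
    funext k
    unfold Above
    simp only [Equiv.coe_addRight, Prod.fst_add, Prod.snd_add, Prod.fst_neg, Prod.snd_neg]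
    apply propext
    constructor
    · rintro ⟨⟨h1, h2⟩ | ⟨h1, h2⟩, h3⟩
      · exact ⟨Or.inl ⟨by omega, by omega⟩, by omega⟩
      · exact ⟨Or.inr ⟨by omega, by omega⟩, by omega⟩
    · rintro ⟨⟨h1, h2⟩ | ⟨h1, h2⟩, h3⟩
      · exact ⟨Or.inl ⟨by omega, by omega⟩, by omega⟩
      · exact ⟨Or.inr ⟨by omega, by omega⟩, by omega⟩
  rw [e]

/-- a polygon has positive area -/
theorem one_le_area {m : ℕ} (hm : 4 ≤ m) {f : ZMod m → P} (hf : Poly m f) : 1 ≤ area m f := by
  have h1 : IsLoop m (fun i => -f 0 + f i) := by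
    refine ⟨by simp, fun i j h => hf.1 (add_left_cancel h), fun i => ?_⟩
    have h2 := hf.2 i
    simp only [Prod.fst_add, Prod.snd_add, add_sub_add_left_eq_sub]
    exact h2
  have h2 := le_area hm h1
  rw [area_shift] at h2
  omega

/-- sums over the polygons in a part of the region -/
theorem reg_sum' (m k : ℕ) (hm : m = k + 1) {Λ Λ' : Finset P} (h : Λ.Nonempty) (hsub : Λ' ⊆ Λ)
    (F : ∀ m, (ZMod m → P) → ℝ) (F' : P → List P → ℝ)
    (hF : ∀ (x : P) (k : ℕ) (g : Fin (k + 1) → P),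
      F (k + 1) (fun i => x + g i) = F' x (List.ofFn g)) :
    ∑ᶠ f : {f : ZMod m → P // Poly m f ∧ ∀ i, f i ∈ Λ'}, F m f.1 =
      Λ.card * @XX P ⊤ Q78.UR.Sq.A (uni Λ) (fun x => RD (Dr Λ' x)) F' k := by
  subst hm
  have hcard : (0 : ℝ) < Λ.card := by exact_mod_cast h.card_pos
  rw [unroot_sum (k + 1) Λ' (F (k + 1))]
  unfold XX
  rw [uni_int h, mul_div_cancel₀ _ hcard.ne']
  have e : ∑ x ∈ Λ', ∑ᶠ g : {g : ZMod (k + 1) → P // IsLoop (k + 1) g ∧ ∀ i, x + g i ∈ Λ'},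
      F (k + 1) (fun i => x + g.1 i) = ∑ x ∈ Λ', WR Q78.UR.Sq.A (RD (Dr Λ' x)) (F' x) k := by
    refine Finset.sum_congr rfl fun x _ => ?_
    rw [← loop_sum k (Dr Λ' x) (fun g => F (k + 1) (fun i => x + g i)) (F' x)
      (fun g => hF x k g)]
    rfl
  rw [e]
  refine Finset.sum_subset hsub fun x _ hx => ?_
  unfold WR
  rw [KR_empty hx]
  simp

/-- **polygons with weights in random domains, nested** -/
theorem poly_nest (mm : ℕ) (κ : ℝ) (hκ : 0 ≤ κ) : ∃ (C δ : ℝ) (N : ℕ), 0 < C ∧ 0 < δ ∧ 2 ≤ N ∧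
    ∀ (Ω : Type) [MeasurableSpace Ω] (ν : Measure Ω) [IsProbabilityMeasure ν]
      (D : Ω → P → Prop), (∀ x, MeasurableSet {ω | D ω x}) →
      ∀ n, N ≤ n → Real.exp (-δ * n) ≤ Pl ν D n →
        0 < Fp ν D n ∧
        ∀ f : Ω → List P → ℝ, (∀ ω, Fr Q78.UR.Sq.rule (RD (D ω)) κ mm (f ω)) →
          (∀ w, Measurable fun ω => f ω w) →
          0 < XX Q78.UR.Sq.A ν (fun ω => RD (D ω)) f (2 * n - 1) ∧
          |XX Q78.UR.Sq.A ν (fun ω => RD (D ω)) f (2 * (n + 1) - 1) /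
            (H981.mu ^ 2 * XX Q78.UR.Sq.A ν (fun ω => RD (D ω)) f (2 * n - 1)) - 1| ≤
            C * √((Real.log (1 / Pl ν D n) + Real.log n ^ 2) / n) ∧
          ∀ D' : Ω → P → Prop, (∀ x, MeasurableSet {ω | D' ω x}) →
            ∀ f' : Ω → List P → ℝ, (∀ ω, Fr Q78.UR.Sq.rule (RD (D' ω)) κ mm (f' ω)) →
            (∀ w, Measurable fun ω => f' ω w) →
            (∀ n, XX Q78.UR.Sq.A ν (fun ω => RD (D' ω)) f' n ≤
              XX Q78.UR.Sq.A ν (fun ω => RD (D ω)) f n) →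
            |XX Q78.UR.Sq.A ν (fun ω => RD (D' ω)) f' (2 * (n + 1) - 1) /
                XX Q78.UR.Sq.A ν (fun ω => RD (D ω)) f (2 * (n + 1) - 1) -
              XX Q78.UR.Sq.A ν (fun ω => RD (D' ω)) f' (2 * n - 1) /
                XX Q78.UR.Sq.A ν (fun ω => RD (D ω)) f (2 * n - 1)| ≤
              C * √((Real.log (1 / Pl ν D n) + Real.log n ^ 2) / n) := by
  obtain ⟨Kg, G⟩ := Q78.UR.Sq.growth
  obtain ⟨C3, δ3, N3, hC3, hδ3, -, h3⟩ := ratiosW G mm κ hκ
  obtain ⟨K0, hK0, hb⟩ := b_loop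
  obtain ⟨δ', N4, hδ', hN4, h4⟩ := hb δ3 hδ3
  refine ⟨C3 * K0, δ', max N3 N4, by positivity, hδ', hN4.trans (le_max_right _ _), ?_⟩
  intro Ω _ ν _ D hD n hn hp
  have hn3 : N3 ≤ n := (le_max_left _ _).trans hn
  have hn4 : N4 ≤ n := (le_max_right _ _).trans hn
  have hn2' : 2 ≤ n := hN4.trans hn4
  obtain ⟨b1, b2, b3, b4, b5⟩ := h4 Ω ν D hD n hn4 hp
  obtain ⟨b, hbdef⟩ : ∃ b, b = Real.log (1 / Pl ν D n) + K0 * Real.log n ^ 2 := ⟨_, rfl⟩
  rw [← hbdef] at b1 b2 b3 b4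
  have hle : n ≤ 2 * n - 1 := by omega
  have hs : 2 * (n + 1) - 1 = 2 * n - 1 + Q78.UR.Sq.rule.s := by
    change 2 * (n + 1) - 1 = 2 * n - 1 + 2
    omega
  have hs2 : Q78.UR.Sq.rule.s = 2 := rfl
  have hbnd : C3 * √(b / (2 * n - 1 : ℕ)) ≤
      C3 * K0 * √((Real.log (1 / Pl ν D n) + Real.log n ^ 2) / n) := by
    rw [mul_assoc]
    exact mul_le_mul_of_nonneg_left b4 hC3.le
  refine ⟨b5, fun f hf hm => ?_⟩
  obtain ⟨g0, g1, g2⟩ := h3 Ω ν (fun ω => RD (D ω)) (fun e x => meas_RD hD e x) f hf hm (2 * n - 1)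
    (hn3.trans hle) b b1 b2 b3
  rw [hs2] at g1
  refine ⟨g0, ?_, fun D' hD' f' hf' hm' hle' => ?_⟩
  · rw [hs, hs2]
    exact g1.trans hbnd
  · have g3 := g2 (fun ω => RD (D' ω)) (fun e x => meas_RD hD' e x) f' hf' hm' hle'
    rw [hs]
    exact g3.trans hbnd

end

end Q78.UW.Po
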