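import Pool.Agent.Q78.UW.ArW2

set_option autoImplicit false

/-! Comparison of weighted numbers. -/

namespace Q78.UW.Po

open Finset Filter Topology MeasureTheory TH966.AK Q294.Av Q294.Rs
open Pool.Agent.H924P (IsLoop area Encl Above)
open scoped Classical

noncomputable section

theorem XX_mono {Ω : Type} [MeasurableSpace Ω] (ν : Measure Ω) [IsProbabilityMeasure ν]
    {D D' : Ω → P → Prop} (hD : ∀ x, MeasurableSet {ω | D ω x})
    (hD' : ∀ x, MeasurableSet {ω | D' ω x}) (hsub : ∀ ω x, D' ω x → D ω x)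
    {f f' : Ω → List P → ℝ} {κ κ' : ℝ} {m m' : ℕ}
    (hf : ∀ ω, Fr Q78.UR.Sq.rule (RD (D ω)) κ m (f ω)) (hm : ∀ w, Measurable fun ω => f ω w)
    (hf' : ∀ ω, Fr Q78.UR.Sq.rule (RD (D' ω)) κ' m' (f' ω)) (hm' : ∀ w, Measurable fun ω => f' ω w)
    (hle : ∀ ω w, f' ω w ≤ f ω w) (n : ℕ) :
    XX Q78.UR.Sq.A ν (fun ω => RD (D' ω)) f' n ≤ XX Q78.UR.Sq.A ν (fun ω => RD (D ω)) f n := by
  unfold XX
  refine integral_mono (integrable_WR ν (fun e x => meas_RD hD' e x) hf' hm' n)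
    (integrable_WR ν (fun e x => meas_RD hD e x) hf hm n) fun ω => ?_
  show WR Q78.UR.Sq.A (RD (D' ω)) (f' ω) n ≤ WR Q78.UR.Sq.A (RD (D ω)) (f ω) n
  unfold WR
  have h1 : KR Q78.UR.Sq.A (RD (D' ω)) n ⊆ KR Q78.UR.Sq.A (RD (D ω)) n := by
    intro w hw
    rw [mem_KR] at hw ⊢
    exact ⟨hw.1, fun x hx => ⟨(hw.2 x hx).1, hsub _ _ (hw.2 x hx).2⟩⟩
  calc ∑ w ∈ KR Q78.UR.Sq.A (RD (D' ω)) n, f' ω w ≤
        ∑ w ∈ KR Q78.UR.Sq.A (RD (D' ω)) n, f ω w := sum_le_sum fun w _ => hle ω w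
    _ ≤ ∑ w ∈ KR Q78.UR.Sq.A (RD (D ω)) n, f ω w :=
        sum_le_sum_of_subset_of_nonneg h1 fun w hw _ => (hf ω).aw.1 n w hw

/-- the weight `area ^ q` -/
def aq (q : ℝ) (w : List P) : ℝ := (max 1 (arP w : ℝ)) ^ q

/-- the constant of the powers of the area -/
def kq (m : ℕ) : ℝ := kap (2 * m * Real.exp (2 * m)) (100 ^ m)

theorem kq_nonneg (m : ℕ) : 0 ≤ kq m := by
  unfold kq kap
  positivity

theorem fr_aq (m : ℕ) (q : ℝ) (hq0 : 0 ≤ q) (hq : q ≤ m) (D : P → Prop) :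
    Fr Q78.UR.Sq.rule (RD D) (kq m) (2 * m + 1) (aq q) :=
  fr_area (by positivity) (by positivity) (mod_pow m q hq0 hq) D

/-- **powers of the area of polygons in random domains** -/
theorem area_main (m : ℕ) : ∃ (C δ : ℝ) (N : ℕ), 0 < C ∧ 0 < δ ∧ 2 ≤ N ∧
    ∀ (Ω : Type) [MeasurableSpace Ω] (ν : Measure Ω) [IsProbabilityMeasure ν]
      (D : Ω → P → Prop), (∀ x, MeasurableSet {ω | D ω x}) →
      ∀ n, N ≤ n → Real.exp (-δ * n) ≤ Pl ν D n →
        0 < Fp ν D n ∧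
        ∀ q : ℝ, 0 ≤ q → q ≤ m →
          0 < XX Q78.UR.Sq.A ν (fun ω => RD (D ω)) (fun _ => aq q) (2 * n - 1) ∧
          |(XX Q78.UR.Sq.A ν (fun ω => RD (D ω)) (fun _ => aq q) (2 * (n + 1) - 1) /
              Fp ν D (n + 1)) /
            (XX Q78.UR.Sq.A ν (fun ω => RD (D ω)) (fun _ => aq q) (2 * n - 1) / Fp ν D n) - 1| ≤
            C * √((Real.log (1 / Pl ν D n) + Real.log n ^ 2) / n) ∧
          ∀ D' : Ω → P → Prop, (∀ x, MeasurableSet {ω | D' ω x}) → (∀ ω x, D' ω x → D ω x) →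
            |XX Q78.UR.Sq.A ν (fun ω => RD (D' ω)) (fun _ => aq q) (2 * (n + 1) - 1) /
                XX Q78.UR.Sq.A ν (fun ω => RD (D ω)) (fun _ => aq q) (2 * (n + 1) - 1) -
              XX Q78.UR.Sq.A ν (fun ω => RD (D' ω)) (fun _ => aq q) (2 * n - 1) /
                XX Q78.UR.Sq.A ν (fun ω => RD (D ω)) (fun _ => aq q) (2 * n - 1)| ≤
              C * √((Real.log (1 / Pl ν D n) + Real.log n ^ 2) / n) := by
  obtain ⟨C1, δ1, N1, hC1, hδ1, hN1, h1⟩ := poly_main 0 (2 * m + 1) (kq m) (kq_nonneg m)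
  obtain ⟨C2, δ2, N2, hC2, hδ2, hN2, h2⟩ := poly_nest (2 * m + 1) (kq m) (kq_nonneg m)
  refine ⟨max C1 C2, min δ1 δ2, max N1 N2, lt_max_of_lt_left hC1, lt_min hδ1 hδ2,
    hN1.trans (le_max_left _ _), ?_⟩
  intro Ω _ ν _ D hD n hn hp
  have hn0 : (0 : ℝ) ≤ n := Nat.cast_nonneg _
  have p1 : Real.exp (-δ1 * n) ≤ Pl ν D n := by
    refine le_trans (Real.exp_le_exp.2 ?_) hp
    have := mul_le_mul_of_nonneg_right (min_le_left δ1 δ2) hn0
    linarith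
  have p2 : Real.exp (-δ2 * n) ≤ Pl ν D n := by
    refine le_trans (Real.exp_le_exp.2 ?_) hp
    have := mul_le_mul_of_nonneg_right (min_le_right δ1 δ2) hn0
    linarith
  obtain ⟨a1, -, -, a4⟩ := h1 Ω ν D hD n ((le_max_left _ _).trans hn) p1
  obtain ⟨-, b2⟩ := h2 Ω ν D hD n ((le_max_right _ _).trans hn) p2
  have hsq := Real.sqrt_nonneg ((Real.log (1 / Pl ν D n) + Real.log n ^ 2) / n)
  have c1 := mul_le_mul_of_nonneg_right (le_max_left C1 C2) hsq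
  have c2 := mul_le_mul_of_nonneg_right (le_max_right C1 C2) hsq
  refine ⟨a1, fun q hq0 hq => ?_⟩
  obtain ⟨a5, a6⟩ := a4 (fun _ => aq q) (fun ω => fr_aq m q hq0 hq _) (fun _ => measurable_const)
  obtain ⟨-, -, b5⟩ := b2 (fun _ => aq q) (fun ω => fr_aq m q hq0 hq _) (fun _ => measurable_const)
  refine ⟨a5, a6.trans c1, fun D' hD' hsub => ?_⟩
  refine (b5 D' hD' (fun _ => aq q) (fun ω => fr_aq m q hq0 hq _) (fun _ => measurable_const)
    (fun k => XX_mono ν hD hD' hsub (fun ω => fr_aq m q hq0 hq _) (fun _ => measurable_const)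
      (fun ω => fr_aq m q hq0 hq _) (fun _ => measurable_const) (fun _ _ => le_rfl) k)).trans c2

end

end Q78.UW.Po
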