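import Pool.Agent.Q78.UW.ArW3

set_option autoImplicit false

/-! Laws of the area of polygons in random domains. -/

namespace Q78.UW.Po

open Finset Filter Topology MeasureTheory TH966.AK Q294.Av Q294.Rs
open Pool.Agent.H924P (IsLoop area Encl Above)
open scoped Classical

noncomputable section

/-- test functions on `(0, ∞)`: bounded by one and Lipschitz on the logarithmic scale -/
def Tst (L : ℝ) (g : ℝ → ℝ) : Prop :=
  (∀ x, 0 < x → |g x| ≤ 1) ∧ ∀ x y, 0 < x → 0 < y → |g x - g y| ≤ L * |Real.log x - Real.log y|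

theorem Tst.scale {L : ℝ} {g : ℝ → ℝ} (h : Tst L g) {a : ℝ} (ha : 0 < a) :
    Tst L (fun x => g (x / a)) := by
  refine ⟨fun x hx => h.1 _ (div_pos hx ha), fun x y hx hy => ?_⟩
  refine (h.2 _ _ (div_pos hx ha) (div_pos hy ha)).trans (le_of_eq ?_)
  rw [Real.log_div hx.ne' ha.ne', Real.log_div hy.ne' ha.ne']
  congr 2
  ring

/-- the function of the area -/
def ag {Ω : Type} (g : Ω → ℝ → ℝ) (ω : Ω) (w : List P) : ℝ := g ω (max 1 (arP w : ℝ))

theorem LL_of {L : ℝ} {g : ℝ → ℝ} (h : Tst L g) : LL (L / 2) (fun x => (1 + g x) / 2) := by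
  refine ⟨fun x hx => ?_, fun x y hx hy => ?_⟩
  · obtain ⟨h1, h2⟩ := abs_le.1 (h.1 x (by linarith))
    constructor <;> linarith
  · have h1 := h.2 x y (by linarith) (by linarith)
    have h2 : (1 + g x) / 2 - (1 + g y) / 2 = (g x - g y) / 2 := by ring
    rw [h2, abs_div, abs_of_pos (show (0 : ℝ) < 2 by norm_num)]
    linarith

/-- the weight built from the test function -/
def fg {Ω : Type} (g : Ω → ℝ → ℝ) (ω : Ω) (w : List P) : ℝ := 1 + (1 + ag g ω w) / 2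

theorem fr_fg {Ω : Type} {L : ℝ} (hL : 0 ≤ L) {g : Ω → ℝ → ℝ} (ω : Ω) (h : Tst L (g ω))
    (D : P → Prop) : Fr Q78.UR.Sq.rule (RD D) (kap L 2) 1 (fg g ω) := by
  have h1 := fr_area (m := 0) (L := 2 * (L / 2)) (K0 := 2) (by linarith) (by norm_num)
    (mod_bdd (by linarith) (LL_of h)) D
  rw [show 2 * (L / 2) = L by ring] at h1
  exact h1

theorem fg_le {Ω : Type} {L : ℝ} {g : Ω → ℝ → ℝ} (ω : Ω) (h : Tst L (g ω)) (w : List P) :
    fg g ω w ≤ 2 := by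
  unfold fg ag
  have := (abs_le.1 (h.1 (max 1 (arP w : ℝ)) (by positivity))).2
  linarith

theorem meas_fg {Ω : Type} [MeasurableSpace Ω] {g : Ω → ℝ → ℝ} (hg : ∀ x, Measurable fun ω => g ω x)
    (w : List P) : Measurable fun ω => fg g ω w := by
  unfold fg ag
  exact measurable_const.add ((measurable_const.add (hg _)).div_const 2)

theorem int_ag {Ω : Type} [MeasurableSpace Ω] (ν : Measure Ω) [IsProbabilityMeasure ν]
    {D : Ω → P → Prop} (hD : ∀ x, MeasurableSet {ω | D ω x}) {L : ℝ} (hL : 0 ≤ L)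
    {g : Ω → ℝ → ℝ} (hg : ∀ ω, Tst L (g ω)) (hm : ∀ x, Measurable fun ω => g ω x) (n : ℕ) :
    Integrable (fun ω => WR Q78.UR.Sq.A (RD (D ω)) (ag g ω) n) ν ∧
    XX Q78.UR.Sq.A ν (fun ω => RD (D ω)) (ag g) n =
      2 * XX Q78.UR.Sq.A ν (fun ω => RD (D ω)) (fg g) n -
        3 * Q78.UR.FF Q78.UR.Sq.A ν (fun ω => RD (D ω)) n := by
  have i1 := integrable_WR ν (fun e x => meas_RD hD e x)
    (fun ω => fr_fg hL ω (hg ω) (D ω)) (fun w => meas_fg hm w) n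
  have i2 := Q78.UR.integrable_card (A := Q78.UR.Sq.A) ν (fun e x => meas_RD hD e x) n
  have e : (fun ω => WR Q78.UR.Sq.A (RD (D ω)) (ag g ω) n) = fun ω =>
      2 * WR Q78.UR.Sq.A (RD (D ω)) (fg g ω) n -
        3 * ((KR Q78.UR.Sq.A (RD (D ω)) n).card : ℝ) := by
    funext ω
    unfold WR fg
    rw [Finset.mul_sum, ← nsmul_one (KR Q78.UR.Sq.A (RD (D ω)) n).card, ← sum_const, mul_sum,
      ← sum_sub_distrib]
    refine Finset.sum_congr rfl fun w _ => ?_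
    ring
  constructor
  · rw [e]
    exact (i1.const_mul 2).sub (i2.const_mul 3)
  · unfold XX Q78.UR.FF
    rw [e, integral_sub (i1.const_mul 2) (i2.const_mul 3), integral_const_mul, integral_const_mul]

theorem law_area (L : ℝ) (hL : 0 ≤ L) : ∃ (C δ : ℝ) (N : ℕ), 0 < C ∧ 0 < δ ∧ 2 ≤ N ∧
    ∀ (Ω : Type) [MeasurableSpace Ω] (ν : Measure Ω) [IsProbabilityMeasure ν]
      (D : Ω → P → Prop), (∀ x, MeasurableSet {ω | D ω x}) →
      ∀ n, N ≤ n → Real.exp (-δ * n) ≤ Pl ν D n →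
        0 < Fp ν D n ∧
        ∀ D' : Ω → P → Prop, (∀ x, MeasurableSet {ω | D' ω x}) → (∀ ω x, D' ω x → D ω x) →
          ∀ g : Ω → ℝ → ℝ, (∀ ω, Tst L (g ω)) → (∀ x, Measurable fun ω => g ω x) →
            |XX Q78.UR.Sq.A ν (fun ω => RD (D' ω)) (ag g) (2 * (n + 1) - 1) / Fp ν D (n + 1) -
              XX Q78.UR.Sq.A ν (fun ω => RD (D' ω)) (ag g) (2 * n - 1) / Fp ν D n| ≤
              C * √((Real.log (1 / Pl ν D n) + Real.log n ^ 2) / n) := by
  have hk : 0 ≤ kap L 2 := by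
    unfold kap
    positivity
  obtain ⟨C, δ, N, hC, hδ, hN, h⟩ := poly_nest 1 (kap L 2) hk
  refine ⟨10 * C, δ, N, by positivity, hδ, hN, ?_⟩
  intro Ω _ ν _ D hD n hn hp
  obtain ⟨h1, h2⟩ := h Ω ν D hD n hn hp
  refine ⟨h1, fun D' hD' hsub g hg hm => ?_⟩
  have hf2 : ∀ ω, Fr Q78.UR.Sq.rule (RD (D ω)) (kap L 2) 1 (fun _ => (2 : ℝ)) :=
    fun ω => fr_two _ _ _ hk 1 le_rfl
  obtain ⟨-, -, h3⟩ := h2 (fun _ _ => 2) hf2 (fun _ => measurable_const)
  have g1 := h3 D' hD' (fg g) (fun ω => fr_fg hL ω (hg ω) (D' ω)) (fun w => meas_fg hm w)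
    (fun k => XX_mono ν hD hD' hsub hf2 (fun _ => measurable_const)
      (fun ω => fr_fg hL ω (hg ω) (D' ω)) (fun w => meas_fg hm w) (fun ω w => fg_le ω (hg ω) w) k)
  have hf1 : ∀ ω, Fr Q78.UR.Sq.rule (RD (D' ω)) (kap L 2) 1 (fun _ => (1 : ℝ)) :=
    fun ω => fr_one _ _ 1 _ hk
  have g2 := h3 D' hD' (fun _ _ => 1) hf1 (fun _ => measurable_const)
    (fun k => XX_mono ν hD hD' hsub hf2 (fun _ => measurable_const) hf1
      (fun _ => measurable_const) (fun ω w => by norm_num) k)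
  rw [XX_one, XX_one] at g2
  rw [XX_two, XX_two] at g1 g2
  rw [(int_ag ν hD' hL hg hm _).2, (int_ag ν hD' hL hg hm _).2]
  have e1 : ∀ m, Q78.UR.FF Q78.UR.Sq.A ν (fun ω => RD (D ω)) (2 * m - 1) = Fp ν D m :=
    fun _ => rfl
  rw [e1, e1] at g1 g2
  obtain ⟨er, her⟩ : ∃ er, er = C * √((Real.log (1 / Pl ν D n) + Real.log n ^ 2) / n) := ⟨_, rfl⟩
  rw [mul_assoc, ← her]
  rw [← her] at g1 g2
  obtain ⟨X1, hX1⟩ : ∃ X, X = XX Q78.UR.Sq.A ν (fun ω => RD (D' ω)) (fg g) (2 * (n + 1) - 1) :=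
    ⟨_, rfl⟩
  obtain ⟨X0, hX0⟩ : ∃ X, X = XX Q78.UR.Sq.A ν (fun ω => RD (D' ω)) (fg g) (2 * n - 1) := ⟨_, rfl⟩
  obtain ⟨Y1, hY1⟩ : ∃ Y, Y = Q78.UR.FF Q78.UR.Sq.A ν (fun ω => RD (D' ω)) (2 * (n + 1) - 1) :=
    ⟨_, rfl⟩
  obtain ⟨Y0, hY0⟩ : ∃ Y, Y = Q78.UR.FF Q78.UR.Sq.A ν (fun ω => RD (D' ω)) (2 * n - 1) := ⟨_, rfl⟩
  rw [← hX1, ← hX0] at g1 ⊢
  rw [← hY1, ← hY0] at g2 ⊢
  have e2 : (2 * X1 - 3 * Y1) / Fp ν D (n + 1) - (2 * X0 - 3 * Y0) / Fp ν D n =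
      4 * (X1 / (2 * Fp ν D (n + 1)) - X0 / (2 * Fp ν D n)) -
        6 * (Y1 / (2 * Fp ν D (n + 1)) - Y0 / (2 * Fp ν D n)) := by
    have a1 : ∀ X F : ℝ, X / (2 * F) = X / F / 2 := fun X F => by
      rw [mul_comm, div_mul_eq_div_div]
    rw [a1, a1, a1, a1]
    ring
  rw [e2]
  obtain ⟨b1, b2⟩ := abs_le.1 g1
  obtain ⟨b3, b4⟩ := abs_le.1 g2
  rw [abs_le]
  constructor <;> linarith

/-- the absolute value of a weighted number -/
theorem abs_XX_le {Ω : Type} [MeasurableSpace Ω] (ν : Measure Ω) [IsProbabilityMeasure ν]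
    {D : Ω → P → Prop} (hD : ∀ x, MeasurableSet {ω | D ω x}) {g g' : Ω → ℝ → ℝ} {e L : ℝ}
    (hL : 0 ≤ L) (hg : ∀ ω, Tst L (g ω)) (hm : ∀ x, Measurable fun ω => g ω x)
    (hg' : ∀ ω, Tst L (g' ω)) (hm' : ∀ x, Measurable fun ω => g' ω x)
    (hle : ∀ ω w, |ag g ω w - ag g' ω w| ≤ e) (n : ℕ) :
    |XX Q78.UR.Sq.A ν (fun ω => RD (D ω)) (ag g) n - XX Q78.UR.Sq.A ν (fun ω => RD (D ω)) (ag g') n|
      ≤ e * Q78.UR.FF Q78.UR.Sq.A ν (fun ω => RD (D ω)) n := by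
  have i1 := (int_ag ν hD hL hg hm n).1
  have i2 := (int_ag ν hD hL hg' hm' n).1
  have i3 := Q78.UR.integrable_card (A := Q78.UR.Sq.A) ν (fun e x => meas_RD hD e x) n
  unfold XX Q78.UR.FF
  rw [← integral_sub i1 i2, ← integral_const_mul, ← Real.norm_eq_abs]
  refine norm_integral_le_of_norm_le (i3.const_mul e) (Eventually.of_forall fun ω => ?_)
  rw [Real.norm_eq_abs]
  unfold WR
  rw [← sum_sub_distrib]
  refine (abs_sum_le_sum_abs _ _).trans ((sum_le_sum fun w _ => hle ω w).trans ?_)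
  rw [sum_const, nsmul_eq_mul, mul_comm]

/-- **the law of the area on any scale** -/
theorem law_scaled (L : ℝ) (hL : 0 ≤ L) : ∃ (C δ : ℝ) (N : ℕ), 0 < C ∧ 0 < δ ∧ 2 ≤ N ∧
    ∀ (Ω : Type) [MeasurableSpace Ω] (ν : Measure Ω) [IsProbabilityMeasure ν]
      (D : Ω → P → Prop), (∀ x, MeasurableSet {ω | D ω x}) →
      ∀ n, N ≤ n → Real.exp (-δ * n) ≤ Pl ν D n →
        0 < Fp ν D n ∧
        ∀ D' : Ω → P → Prop, (∀ x, MeasurableSet {ω | D' ω x}) → (∀ ω x, D' ω x → D ω x) →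
          ∀ g : Ω → ℝ → ℝ, (∀ ω, Tst L (g ω)) → (∀ x, Measurable fun ω => g ω x) →
            ∀ a a' : ℝ, 0 < a → 0 < a' →
            |XX Q78.UR.Sq.A ν (fun ω => RD (D' ω)) (ag fun ω x => g ω (x / a')) (2 * (n + 1) - 1) /
                Fp ν D (n + 1) -
              XX Q78.UR.Sq.A ν (fun ω => RD (D' ω)) (ag fun ω x => g ω (x / a)) (2 * n - 1) /
                Fp ν D n| ≤
              C * √((Real.log (1 / Pl ν D n) + Real.log n ^ 2) / n) +
                L * |Real.log a' - Real.log a| := by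
  obtain ⟨C, δ, N, hC, hδ, hN, h⟩ := law_area L hL
  obtain ⟨C2, δ2, N2, hC2, hδ2, hN2, h2⟩ := poly_nest 0 0 le_rfl
  obtain ⟨N3, hN3⟩ := eventually_atTop.1
    (Q78.UR.log_sq_div.eventually_le_const (show (0 : ℝ) < 1 / (8 * C2 ^ 2) by positivity))
  refine ⟨C, min δ (min δ2 (1 / (8 * C2 ^ 2))), max N (max N2 N3), hC,
    lt_min hδ (lt_min hδ2 (by positivity)), hN.trans (le_max_left _ _), ?_⟩
  intro Ω _ ν _ D hD n hn hp
  have hn1 : N ≤ n := (le_max_left _ _).trans hn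
  have hn2 : N2 ≤ n := ((le_max_left _ _).trans (le_max_right _ _)).trans hn
  have hn3 : N3 ≤ n := ((le_max_right _ _).trans (le_max_right _ _)).trans hn
  have hn0 : (0 : ℝ) < n := by exact_mod_cast (show 0 < n by omega)
  have p1 : Real.exp (-δ * n) ≤ Pl ν D n := by
    refine le_trans (Real.exp_le_exp.2 ?_) hp
    have := mul_le_mul_of_nonneg_right (min_le_left δ (min δ2 (1 / (8 * C2 ^ 2)))) hn0.le
    linarith
  have p2 : Real.exp (-δ2 * n) ≤ Pl ν D n := by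
    refine le_trans (Real.exp_le_exp.2 ?_) hp
    have := mul_le_mul_of_nonneg_right ((min_le_right δ (min δ2 (1 / (8 * C2 ^ 2)))).trans
      (min_le_left _ _)) hn0.le
    linarith
  obtain ⟨h3, h4⟩ := h Ω ν D hD n hn1 p1
  refine ⟨h3, fun D' hD' hsub g hg hm a a' ha ha' => ?_⟩
  -- positivity of `Fp` at `n + 1`
  have hF1 : 0 < Fp ν D (n + 1) := by
    obtain ⟨-, h5⟩ := h2 Ω ν D hD n hn2 p2
    obtain ⟨-, h6, -⟩ := h5 (fun _ _ => 1) (fun ω => fr_one _ _ 0 0 le_rfl)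
      (fun _ => measurable_const)
    rw [XX_one, XX_one] at h6
    have e1 : ∀ m, Q78.UR.FF Q78.UR.Sq.A ν (fun ω => RD (D ω)) (2 * m - 1) = Fp ν D m :=
      fun _ => rfl
    rw [e1, e1] at h6
    have hPl0 : 0 < Pl ν D n := (Real.exp_pos _).trans_le hp
    have h7 : Real.log (1 / Pl ν D n) ≤ 1 / (8 * C2 ^ 2) * n := by
      rw [one_div, Real.log_inv]
      have h8 := Real.log_le_log (Real.exp_pos _) hp
      rw [Real.log_exp] at h8
      have := mul_le_mul_of_nonneg_right ((min_le_right δ (min δ2 (1 / (8 * C2 ^ 2)))).trans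
        (min_le_right _ _)) hn0.le
      linarith
    have h9 : Real.log n ^ 2 / n ≤ 1 / (8 * C2 ^ 2) := hN3 n hn3
    have h10 : (Real.log (1 / Pl ν D n) + Real.log n ^ 2) / n ≤ (1 / (2 * C2)) ^ 2 := by
      rw [add_div]
      have h11 : Real.log (1 / Pl ν D n) / n ≤ 1 / (8 * C2 ^ 2) := by
        rw [div_le_iff₀ hn0]
        exact h7
      have h12 : (1 / (2 * C2)) ^ 2 = 1 / (8 * C2 ^ 2) + 1 / (8 * C2 ^ 2) := by
        field_simp
        norm_num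
      rw [h12]
      exact add_le_add h11 h9
    have h13 : C2 * √((Real.log (1 / Pl ν D n) + Real.log n ^ 2) / n) ≤ 1 / 2 := by
      have h14 := Real.sqrt_le_sqrt h10
      rw [Real.sqrt_sq (by positivity)] at h14
      have h15 := mul_le_mul_of_nonneg_left h14 hC2.le
      refine h15.trans (le_of_eq ?_)
      field_simp
    have h16 := (abs_le.1 (h6.trans h13)).1
    have hμ := H981.mu_pos
    have h17 : 0 < Fp ν D (n + 1) / (H981.mu ^ 2 * Fp ν D n) := by linarith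
    exact (div_pos_iff_of_pos_right (by positivity)).1 h17
  have h5 := h4 D' hD' hsub (fun ω x => g ω (x / a)) (fun ω => (hg ω).scale ha) (fun x => hm _)
  have h6 := abs_XX_le ν hD' hL (fun ω => (hg ω).scale ha') (fun x => hm _)
    (fun ω => (hg ω).scale ha) (fun x => hm _) (e := L * |Real.log a' - Real.log a|)
    (fun ω w => by
      unfold ag
      have hx : 0 < max 1 (arP w : ℝ) := by positivity
      refine ((hg ω).2 _ _ (div_pos hx ha') (div_pos hx ha)).trans (le_of_eq ?_)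
      rw [Real.log_div hx.ne' ha'.ne', Real.log_div hx.ne' ha.ne', ← abs_neg]
      congr 2
      ring) (2 * (n + 1) - 1)
  have h7 : Q78.UR.FF Q78.UR.Sq.A ν (fun ω => RD (D' ω)) (2 * (n + 1) - 1) ≤ Fp ν D (n + 1) := by
    have := XX_mono (κ := 0) (κ' := 0) (m := 0) (m' := 0) ν hD hD' hsub (f := fun _ _ => 1)
      (f' := fun _ _ => 1)
      (fun ω => fr_one _ _ 0 0 le_rfl) (fun _ => measurable_const)
      (fun ω => fr_one _ _ 0 0 le_rfl) (fun _ => measurable_const) (fun _ _ => le_rfl)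
      (2 * (n + 1) - 1)
    rw [XX_one, XX_one] at this
    exact this
  obtain ⟨X, hX⟩ : ∃ X, X = XX Q78.UR.Sq.A ν (fun ω => RD (D' ω))
    (ag fun ω x => g ω (x / a')) (2 * (n + 1) - 1) := ⟨_, rfl⟩
  obtain ⟨Y, hY⟩ : ∃ Y, Y = XX Q78.UR.Sq.A ν (fun ω => RD (D' ω))
    (ag fun ω x => g ω (x / a)) (2 * (n + 1) - 1) := ⟨_, rfl⟩
  rw [← hX] at h6 ⊢
  rw [← hY] at h5 h6
  have h8 : |X / Fp ν D (n + 1) - Y / Fp ν D (n + 1)| ≤ L * |Real.log a' - Real.log a| := by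
    rw [← sub_div, abs_div, abs_of_pos hF1, div_le_iff₀ hF1]
    exact h6.trans (mul_le_mul_of_nonneg_left h7 (by positivity))
  refine (abs_sub_le _ (Y / Fp ν D (n + 1)) _).trans ?_
  linarith

/-- logarithms of ratios near one -/
theorem log_near {r e : ℝ} (he : 0 ≤ e) (hr : 0 < r) (h : |r - 1| ≤ e) (he2 : e ≤ 1 / 2) :
    |Real.log r| ≤ 2 * e := by
  obtain ⟨h1, h2⟩ := abs_le.1 h
  have h3 := Real.log_le_sub_one_of_pos hr
  have h4 := Real.one_sub_inv_le_log_of_pos hr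
  have h5 : r⁻¹ - 1 ≤ 2 * e := by
    have : r⁻¹ - 1 = (1 - r) / r := by field_simp
    rw [this, div_le_iff₀ hr]
    nlinarith
  rw [abs_le]
  constructor <;> linarith

end

end Q78.UW.Po
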