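import Pool.Agent.Q294.Rs2
import Pool.Agent.Q294.Av1

set_option autoImplicit false

/-! Approximate logarithmic convexity for approximately invariant weights, uniformly in the system
with local moves. -/

namespace Q78.UW

open Finset Filter Topology TH966.AK Q294.Av
open scoped Classical

noncomputable section

variable {α σ : Type}

/-- approximate logarithmic convexity, uniformly in the system and in the weight -/
theorem convexAU (C s n0 M : ℕ) (hC : 1 ≤ C) (hM : 1 ≤ M) (μ θ θ₁ C' κ : ℝ) (hμ : 0 < μ)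
    (hθ : 0 < θ) (hθ₁ : θ < θ₁) (hκ : 0 ≤ κ) :
    ∃ D : ℝ, 0 ≤ D ∧ ∀ᶠ n : ℕ in atTop, ∀ Y : Sys α σ, Y.C = C → Y.s = s → Y.n0 = n0 →
    (∀ n w, w ∈ Y.K n → (Y.B w).card ≤ Y.C * (n + 1)) → ∀ f : α → ℝ, AW Y κ f →
    (∀ n : ℕ, Y.badf f M n ≤ C' * (θ * μ) ^ n) →
    (θ₁ * μ) ^ (n + s) ≤ Y.af f (n + s) →
    Y.af f (n + s) ^ 2 ≤ Y.af f n * Y.af f (n + s + s) * (1 + D / n) := by
  have hCR0 : (1 : ℝ) ≤ C := by exact_mod_cast hC
  have hMR : (1 : ℝ) ≤ M := by exact_mod_cast hM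
  obtain ⟨c1, hc1⟩ : ∃ c1 : ℝ, c1 = 2 * C * M := ⟨_, rfl⟩
  obtain ⟨c2, hc2⟩ : ∃ c2 : ℝ, c2 = 4 * C * M + 8 * C * M ^ 2 * κ * (4 * C * M) := ⟨_, rfl⟩
  obtain ⟨c3, hc3⟩ : ∃ c3 : ℝ, c3 = 1 + κ * M := ⟨_, rfl⟩
  have hc10 : 0 ≤ c1 := by rw [hc1]; positivity
  have hc20 : 0 ≤ c2 := by rw [hc2]; positivity
  have hc30 : 0 ≤ c3 := by rw [hc3]; positivity
  refine ⟨8 * (c1 + c2 + c3) + 2 * κ * M * 2, by positivity, ?_⟩
  obtain ⟨N1, hN1⟩ := exists_nat_ge (10 * (c1 + c2 + c3) + 1)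
  filter_upwards [Q294.Rs.errorsU C s μ θ θ₁ C' hμ hθ hθ₁, eventually_ge_atTop n0,
    eventually_ge_atTop (4 * M * C), eventually_ge_atTop N1, eventually_ge_atTop (s + 1)]
    with n hk1 hn1 hn2 hn3 hn4 Y hYC hYs hYn hB f hf hbad hbig
  subst hYC
  subst hYs
  subst hYn
  have hCR : (1 : ℝ) ≤ Y.C := by exact_mod_cast Y.hC
  have hn3' : 10 * (c1 + c2 + c3) + 1 ≤ n := hN1.trans (by exact_mod_cast hn3)
  have hn2' : (4 * M * Y.C : ℝ) ≤ n := by exact_mod_cast hn2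
  have hn0 : (0 : ℝ) < n := by linarith
  have hn1' : 1 ≤ n := by omega
  have up := upperA Y hκ hf M n hn1 hn2 hn1'
  have lo := lowerA Y hf M n hM hn1 hn2 hn4
  have hpos : ∀ m, 0 ≤ Y.af f m := fun m => af_nonneg Y hf m
  obtain ⟨G, hG⟩ : ∃ G, G = (Y.K n).filter (Y.good M n) := ⟨_, rfl⟩
  rw [← hG] at up lo
  have hGK : ∀ w ∈ G, w ∈ Y.K n := fun w hw => by
    rw [hG] at hw
    exact (mem_filter.1 hw).1
  have hf0 : ∀ w ∈ G, 0 ≤ f w := fun w hw => hf.1 n w (hGK w hw)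
  obtain ⟨S1, hS1⟩ : ∃ S1 : ℝ, S1 = ∑ w ∈ G, f w * (((Y.S w).card : ℝ) / ((Y.B w).card : ℝ)) :=
    ⟨_, rfl⟩
  obtain ⟨S2, hS2⟩ : ∃ S2 : ℝ, S2 =
    ∑ w ∈ G, f w * (((Y.S w).card : ℝ) / ((Y.B w).card : ℝ)) ^ 2 := ⟨_, rfl⟩
  have hgood : ∀ w ∈ G, ((n : ℝ) < M * (Y.S w).card ∧ (n : ℝ) < M * (Y.B w).card) ∧
      (4 * Y.C : ℝ) < (Y.S w).card ∧ (4 * Y.C : ℝ) < (Y.B w).card := by
    intro w hw
    rw [hG] at hw
    have := (mem_filter.mp hw).2
    exact ⟨⟨by exact_mod_cast this.1, by exact_mod_cast this.2⟩,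
      by exact_mod_cast Y.big hn2 this.1, by exact_mod_cast Y.big hn2 this.2⟩
  have hS2' : 0 ≤ S2 := by
    rw [hS2]
    apply sum_nonneg; intro w hw
    exact mul_nonneg (hf0 w hw) (by positivity)
  have hcs : S1 ^ 2 ≤ Y.af f n * S2 := by
    have h1 : S1 ^ 2 ≤ (∑ w ∈ G, f w) * S2 := by
      have h2 := Finset.sum_mul_sq_le_sq_mul_sq G (fun w => √(f w))
        (fun w => √(f w) * (((Y.S w).card : ℝ) / ((Y.B w).card : ℝ)))
      have e1 : ∑ w ∈ G, √(f w) * (√(f w) * (((Y.S w).card : ℝ) / ((Y.B w).card : ℝ))) =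
          S1 := by
        rw [hS1]
        refine Finset.sum_congr rfl fun w hw => ?_
        rw [← mul_assoc, Real.mul_self_sqrt (hf0 w hw)]
      have e2 : ∑ w ∈ G, √(f w) ^ 2 = ∑ w ∈ G, f w :=
        Finset.sum_congr rfl fun w hw => Real.sq_sqrt (hf0 w hw)
      have e3 : ∑ w ∈ G, (√(f w) * (((Y.S w).card : ℝ) / ((Y.B w).card : ℝ))) ^ 2 = S2 := by
        rw [hS2]
        refine Finset.sum_congr rfl fun w hw => ?_
        rw [mul_pow, Real.sq_sqrt (hf0 w hw)]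
      rw [e1, e2, e3] at h2
      exact h2
    refine h1.trans ?_
    apply mul_le_mul_of_nonneg_right _ hS2'
    unfold Sys.af
    exact sum_le_sum_of_subset_of_nonneg hGK
      fun w hw _ => hf.1 n w hw
  -- `S1` is bounded by `S2`
  have hS12 : S1 ≤ 2 * Y.C * M * S2 := by
    rw [hS1, hS2, mul_sum]
    apply sum_le_sum
    intro w hw
    have hg := hgood w hw
    have hBn := hB n w (hGK w hw)
    have hBn' : ((Y.B w).card : ℝ) ≤ Y.C * (2 * n) := by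
      have : (Y.B w).card ≤ Y.C * (2 * n) := hBn.trans (Nat.mul_le_mul_left _ (by omega))
      exact_mod_cast this
    obtain ⟨x, hx⟩ : ∃ x : ℝ, x = ((Y.S w).card : ℝ) / ((Y.B w).card : ℝ) := ⟨_, rfl⟩
    have hBp : (0 : ℝ) < (Y.B w).card := by linarith [hg.2.2]
    have hx0 : 0 < x := by
      rw [hx]
      have : (0 : ℝ) < (Y.S w).card := by linarith [hg.2.1]
      positivity
    have hx1 : 1 ≤ 2 * Y.C * M * x := by
      rw [hx, mul_div_assoc', le_div_iff₀ hBp, one_mul]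
      refine hBn'.trans ?_
      have h1 := hg.1.1
      have h2 : (2 * (Y.C : ℝ)) * n ≤ (2 * Y.C) * (M * (Y.S w).card) :=
        mul_le_mul_of_nonneg_left h1.le (by positivity)
      linarith
    rw [← hx]
    have h3 : 0 ≤ f w * x := mul_nonneg (hf0 w hw) hx0.le
    calc f w * x = (f w * x) * 1 := by ring
      _ ≤ (f w * x) * (2 * Y.C * M * x) := mul_le_mul_of_nonneg_left hx1 h3
      _ = _ := by ring
  have u3 : (Y.badf f M (n + Y.s) + Y.C * (n + 1) * Y.badf f M n : ℝ) ≤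
      Y.af f (n + Y.s) * (1 / n) := by
    rw [mul_one_div, le_div_iff₀ hn0]
    have b1 := hbad (n + Y.s)
    have b2 := hbad n
    calc (Y.badf f M (n + Y.s) + Y.C * (n + 1) * Y.badf f M n : ℝ) * n
        ≤ (C' * (θ * μ) ^ (n + Y.s) + Y.C * (n + 1) * (C' * (θ * μ) ^ n)) * n := by
          apply mul_le_mul_of_nonneg_right _ hn0.le
          apply add_le_add b1
          exact mul_le_mul_of_nonneg_left b2 (by positivity)
      _ = n * (C' * (θ * μ) ^ (n + Y.s) + Y.C * (n + 1) * (C' * (θ * μ) ^ n)) := mul_comm _ _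
      _ ≤ (θ₁ * μ) ^ (n + Y.s) := hk1
      _ ≤ _ := hbig
  have u1 : Y.af f (n + Y.s) - ((Y.badf f M (n + Y.s) + Y.C * (n + 1) * Y.badf f M n) +
      κ * M / n * Y.af f (n + Y.s)) ≤ (1 + c1 / n) * S1 := by
    have : ∑ w ∈ G, f w * (((Y.S w).card : ℝ) / (((Y.B w).card : ℝ) - Y.C)) ≤
        (1 + c1 / n) * S1 := by
      rw [hS1, mul_sum, hc1]
      apply sum_le_sum
      intro w hw
      have hg := hgood w hw
      have h3 := Sys.term1 ((Y.S w).card : ℝ) ((Y.B w).card : ℝ) Y.C M n hCR hn0 (by positivity)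
        hg.1.2 hg.2.2
      calc f w * (((Y.S w).card : ℝ) / (((Y.B w).card : ℝ) - Y.C)) ≤
            f w * ((1 + 2 * Y.C * M / n) * (((Y.S w).card : ℝ) / ((Y.B w).card : ℝ))) :=
            mul_le_mul_of_nonneg_left h3 (hf0 w hw)
        _ = _ := by ring
    linarith
  have hE : (Y.badf f M (n + Y.s) + Y.C * (n + 1) * Y.badf f M n) +
      κ * M / n * Y.af f (n + Y.s) ≤ Y.af f (n + Y.s) * (c3 / n) := by
    rw [hc3]
    have : Y.af f (n + Y.s) * ((1 + κ * M) / n) = Y.af f (n + Y.s) * (1 / n) +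
      κ * M / n * Y.af f (n + Y.s) := by ring
    rw [this]
    linarith
  have hc1n : c1 / n ≤ 1 / 10 := by rw [div_le_div_iff₀ hn0 (by norm_num)]; linarith
  have hc3n : c3 / n ≤ 1 / 10 := by rw [div_le_div_iff₀ hn0 (by norm_num)]; linarith
  have hS10 : 0 ≤ S1 := by
    rw [hS1]
    apply sum_nonneg; intro w hw
    exact mul_nonneg (hf0 w hw) (by positivity)
  -- a crude bound
  have hcr : Y.af f (n + Y.s) ≤ 4 * Y.C * M * S2 := by
    have h1 : Y.af f (n + Y.s) * (1 - c3 / n) ≤ (1 + c1 / n) * S1 := by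
      have : Y.af f (n + Y.s) * (1 - c3 / n) = Y.af f (n + Y.s) - Y.af f (n + Y.s) * (c3 / n) := by
        ring
      rw [this]
      linarith
    have h2 : Y.af f (n + Y.s) * (9 / 10) ≤ Y.af f (n + Y.s) * (1 - c3 / n) :=
      mul_le_mul_of_nonneg_left (by linarith) (hpos _)
    have h3 : (1 + c1 / n) * S1 ≤ (11 / 10) * S1 := mul_le_mul_of_nonneg_right (by linarith) hS10
    nlinarith [hpos (n + Y.s)]
  have u2 : (1 - c2 / n) * S2 ≤ (1 + 2 * κ * M / n) * Y.af f (n + Y.s + Y.s) := by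
    have h1 : (1 - 4 * Y.C * M / n) * S2 ≤ ∑ w ∈ G, f w *
        (((Y.S w).card : ℝ) * (((Y.S w).card : ℝ) - Y.C) /
        ((((Y.B w).card : ℝ) + Y.C) * (((Y.B w).card : ℝ) + 2 * Y.C))) := by
      rw [hS2, mul_sum]
      apply sum_le_sum
      intro w hw
      have hg := hgood w hw
      have h3 := Sys.term2 ((Y.S w).card : ℝ) ((Y.B w).card : ℝ) Y.C M n hCR hMR hn2'
        hg.1.1 hg.1.2 hg.2.1 hg.2.2
      calc (1 - 4 * Y.C * M / (n : ℝ)) *
            (f w * (((Y.S w).card : ℝ) / ((Y.B w).card : ℝ)) ^ 2) =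
            f w * ((1 - 4 * Y.C * M / n) * (((Y.S w).card : ℝ) / ((Y.B w).card : ℝ)) ^ 2) := by
              ring
        _ ≤ _ := mul_le_mul_of_nonneg_left h3 (hf0 w hw)
    have h2 : 8 * Y.C * M ^ 2 * κ / n * Y.af f (n + Y.s) ≤
        8 * Y.C * M ^ 2 * κ / n * (4 * Y.C * M * S2) :=
      mul_le_mul_of_nonneg_left hcr (by positivity)
    have h3 : (1 - c2 / n) * S2 = (1 - 4 * Y.C * M / n) * S2 -
        8 * Y.C * M ^ 2 * κ / n * (4 * Y.C * M * S2) := by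
      rw [hc2]; ring
    rw [h3]
    linarith
  have hA2 : 0 ≤ (1 + 2 * κ * M / n) * Y.af f (n + Y.s + Y.s) := by
    have := hpos (n + Y.s + Y.s)
    positivity
  have hfin := Sys.fin_ineq (Y.af f n) (Y.af f (n + Y.s))
    ((1 + 2 * κ * M / n) * Y.af f (n + Y.s + Y.s))
    ((Y.badf f M (n + Y.s) + Y.C * (n + 1) * Y.badf f M n) +
      κ * M / n * Y.af f (n + Y.s)) S1 S2 (c1 / n) (c2 / n) (c3 / n) (hpos _) (hpos _) hcs
    (by positivity) (by positivity) (by positivity) (by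
      have e : c1 / n + c2 / n + c3 / n = (c1 + c2 + c3) / n := by ring
      rw [e, div_le_div_iff₀ hn0 (by norm_num)]
      linarith) u1 hE u2 hA2
  refine hfin.trans ?_
  have e1 : Y.af f n * ((1 + 2 * κ * M / n) * Y.af f (n + Y.s + Y.s)) *
      (1 + 8 * (c1 / n + c2 / n + c3 / n)) =
      (Y.af f n * Y.af f (n + Y.s + Y.s)) *
        ((1 + 2 * κ * M / n) * (1 + 8 * (c1 / n + c2 / n + c3 / n))) := by ring
  rw [e1]
  refine mul_le_mul_of_nonneg_left ?_ (mul_nonneg (hpos _) (hpos _))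
  have e2 : c1 / n + c2 / n + c3 / n = (c1 + c2 + c3) / n := by ring
  rw [e2]
  have h5 : (c1 + c2 + c3) / n ≤ 1 / 10 := by
    rw [div_le_div_iff₀ hn0 (by norm_num)]; linarith
  have h6 : 0 ≤ 2 * κ * M / n := by positivity
  have h7 : (2 * κ * M / n) * (8 * ((c1 + c2 + c3) / n)) ≤ (2 * κ * M / n) * 1 :=
    mul_le_mul_of_nonneg_left (by linarith) h6
  have e3 : 1 + (8 * (c1 + c2 + c3) + 2 * κ * M * 2) / n =
      1 + 8 * ((c1 + c2 + c3) / n) + 2 * κ * M / n + (2 * κ * M / n) * 1 := by ring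
  rw [e3]
  nlinarith

end

end Q78.UW
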