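import Pool.Agent.Q78.UW.Wit
import Pool.Agent.Q78.UR.Mom

set_option autoImplicit false

/-! Laws and moments of diameters of walks in random domains. -/

namespace Q78.UW

open Finset Filter Topology MeasureTheory TH966.AK Q294.Av Q294.Rs
open scoped Classical

noncomputable section

variable {A : P → P → Prop} {Z : Rule A} {μ K : ℝ} {Fc : P → Finset P}

/-- probabilities instead of numbers -/
theorem b_ok (G : Growth Z μ K) {δ : ℝ} (hδ : 0 < δ) : ∃ (δ' : ℝ) (N : ℕ), 0 < δ' ∧ 3 ≤ N ∧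
    ∀ (Ω : Type) [MeasurableSpace Ω] (ν : Measure Ω) [IsProbabilityMeasure ν]
      (R : Ω → P → P → Prop), (∀ e x, MeasurableSet {ω | R ω e x}) →
      ∀ n, N ≤ n → Real.exp (-δ' * n) ≤ Q78.UR.PP A ν R n →
        Real.log n ^ 2 ≤ Real.log (1 / Q78.UR.PP A ν R n) + Real.log n ^ 2 ∧
        Real.log (1 / Q78.UR.PP A ν R n) + Real.log n ^ 2 ≤ δ * n ∧
        Real.exp (-(Real.log (1 / Q78.UR.PP A ν R n) + Real.log n ^ 2)) ≤
          Q78.UR.FF A ν R n / μ ^ n := by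
  obtain ⟨N1, hN1⟩ := eventually_atTop.1
    (Q78.UR.log_sq_div.eventually_le_const (show (0 : ℝ) < δ / 2 by linarith))
  have hμ : 0 < μ := by linarith [G.hμ]
  refine ⟨δ / 2, max N1 3, by linarith, le_max_right _ _, ?_⟩
  intro Ω _ ν _ R hR n hn hp
  have hn1 : N1 ≤ n := (le_max_left _ _).trans hn
  have hn3 : 3 ≤ n := (le_max_right _ _).trans hn
  have hn0 : (0 : ℝ) < n := by exact_mod_cast (show 0 < n by omega)
  have hp0 : 0 < Q78.UR.PP A ν R n := (Real.exp_pos _).trans_le hp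
  have hc : ∀ n, (0 : ℝ) < (Kw A n).card := fun n => lt_of_lt_of_le (pow_pos hμ n) (G.low n)
  have hF0 : 0 ≤ Q78.UR.FF A ν R n := by
    unfold Q78.UR.FF
    exact integral_nonneg fun ω => Nat.cast_nonneg _
  have hFle : Q78.UR.FF A ν R n ≤ (Kw A n).card := by
    unfold Q78.UR.FF
    have h1 : ∫ ω, ((KR A (R ω) n).card : ℝ) ∂ν ≤ ∫ _ω, ((Kw A n).card : ℝ) ∂ν :=
      integral_mono (Q78.UR.integrable_card ν hR n) (integrable_const _) fun ω => card_KR _ _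
    simpa using h1
  have hp1 : Q78.UR.PP A ν R n ≤ 1 := by
    unfold Q78.UR.PP
    rw [div_le_one (hc n)]
    exact hFle
  have hl0 : 0 ≤ Real.log (1 / Q78.UR.PP A ν R n) :=
    Real.log_nonneg (by rw [le_div_iff₀ hp0]; linarith)
  have hl1 : Real.log (1 / Q78.UR.PP A ν R n) ≤ δ / 2 * n := by
    rw [one_div, Real.log_inv]
    have := (Real.le_log_iff_exp_le hp0).2 hp
    linarith
  have hl2 : Real.log n ^ 2 ≤ δ / 2 * n := by
    have := hN1 n hn1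
    rw [div_le_iff₀ hn0] at this
    exact this
  refine ⟨by linarith, by linarith, ?_⟩
  calc Real.exp (-(Real.log (1 / Q78.UR.PP A ν R n) + Real.log n ^ 2)) ≤
        Real.exp (-(Real.log (1 / Q78.UR.PP A ν R n))) := by
        apply Real.exp_le_exp.2
        have := sq_nonneg (Real.log n)
        linarith
    _ = Q78.UR.PP A ν R n := by
        rw [one_div, Real.log_inv, neg_neg, Real.exp_log hp0]
    _ ≤ _ := by
        unfold Q78.UR.PP
        exact div_le_div_of_nonneg_left hF0 (pow_pos hμ n) (G.low n)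

/-- the event -/
def Ev {Ω : Type} (Fc : P → Finset P) {m : ℕ} (c : Ω → Fin m → P → ℂ)
    (S : Ω → Set (P × (Fin m → ℝ))) (ω : Ω) (w : List P) : Prop :=
  w ≠ [] ∧ (lst w, fun j => dm Fc (c ω j) w) ∈ S ω

theorem inv_congr {R : P → P → Prop} {κ : ℝ} {E E' : List P → Prop} (h : Inv Z R κ E)
    (hE : ∀ w, w ≠ [] → (E' w ↔ E w)) : Inv Z R κ E' := by
  intro n w hw
  refine le_trans ?_ (h n w hw)
  refine Nat.cast_le.2 (card_le_card fun q hq => ?_)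
  rw [mem_filter] at hq ⊢
  refine ⟨hq.1, fun hE2 => hq.2 ?_⟩
  have hw0 := KR_sub R _ hw
  have hq1 := ((mem_sysB (inn Z R)).1 hq.1).1
  have h1 : w ≠ [] := ne_nil hw0 Z
  have h2 : Rule.rep w q.2 q.1 ∈ Kw A n := Z.sys.rem_K n w q (Nat.zero_le _) hw0 hq1
  rw [hE _ h1, hE _ (ne_nil h2 Z)]
  exact hE2

theorem dia_main (G : Growth Z μ K) (hF : Feat Z Fc) (m : ℕ) : ∃ (C δ : ℝ) (N : ℕ), 0 < C ∧
    0 < δ ∧ 3 ≤ N ∧
    ∀ (Ω : Type) [MeasurableSpace Ω] (ν : Measure Ω) [IsProbabilityMeasure ν]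
      (R : Ω → P → P → Prop), (∀ e x, MeasurableSet {ω | R ω e x}) →
      ∀ n, N ≤ n → Real.exp (-δ * n) ≤ Q78.UR.PP A ν R n →
      (∀ R' : Ω → P → P → Prop, (∀ e x, MeasurableSet {ω | R' ω e x}) →
        (∀ ω e x, R' ω e x → R ω e x) →
        ∀ (c : Ω → Fin m → P → ℂ) (S : Ω → Set (P × (Fin m → ℝ))),
          (∀ w, MeasurableSet {ω | Ev Fc c S ω w}) →
        |EE A ν R' (Ev Fc c S) (n + Z.s) / Q78.UR.FF A ν R (n + Z.s) -
            EE A ν R' (Ev Fc c S) n / Q78.UR.FF A ν R n| ≤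
          C * √((Real.log (1 / Q78.UR.PP A ν R n) + Real.log n ^ 2) / n)) ∧
      (∀ f : List P → ℝ, Fw Z (2 * Z.c0) m f →
        0 < Q78.UR.FF A ν R n ∧ 0 < XX A ν R (fun _ => f) n ∧
        |(XX A ν R (fun _ => f) (n + Z.s) / Q78.UR.FF A ν R (n + Z.s)) /
          (XX A ν R (fun _ => f) n / Q78.UR.FF A ν R n) - 1| ≤
          C * √((Real.log (1 / Q78.UR.PP A ν R n) + Real.log n ^ 2) / n)) := by
  obtain ⟨C1, δ1, N1, hC1, hδ1, -, h1⟩ := lawW G (Fintype.card (Fin m × Bool) * Z.c0) (by positivity)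
  obtain ⟨C2, δ2, N2, hC2, hδ2, -, h2⟩ := meansW G m (2 * Z.c0) (by positivity)
  obtain ⟨δ', N3, hδ', hN3, h3⟩ := b_ok G (lt_min hδ1 hδ2)
  refine ⟨max C1 C2, δ', max (max N1 N2) N3, lt_max_of_lt_left hC1, hδ',
    hN3.trans (le_max_right _ _), ?_⟩
  intro Ω _ ν _ R hR n hn hp
  have hn1 : N1 ≤ n := ((le_max_left _ _).trans (le_max_left _ _)).trans hn
  have hn2 : N2 ≤ n := ((le_max_right _ _).trans (le_max_left _ _)).trans hn
  have hn3 : N3 ≤ n := (le_max_right _ _).trans hn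
  obtain ⟨b1, b2, b3⟩ := h3 Ω ν R hR n hn3 hp
  have hn0 : (0 : ℝ) ≤ n := Nat.cast_nonneg n
  have hs := Real.sqrt_nonneg ((Real.log (1 / Q78.UR.PP A ν R n) + Real.log n ^ 2) / n)
  refine ⟨fun R' hR' hsub c S hS => ?_, fun f hf => ?_⟩
  · refine (h1 Ω ν R hR n hn1 _ b1 (b2.trans (mul_le_mul_of_nonneg_right (min_le_left _ _) hn0)) b3
      R' hR' hsub (Ev Fc c S) hS (fun ω => ?_)).trans
      (mul_le_mul_of_nonneg_right (le_max_left _ _) hs)
    exact inv_congr (inv_dm hF (c ω) (R' ω) (S ω)) fun w hw => by simp [Ev, hw]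
  · obtain ⟨g1, g2, g3⟩ := h2 Ω ν R hR (fun _ => f) (fun ω => fr_of_fw hf (R ω))
      (fun _ => measurable_const) n hn2 _ b1
      (b2.trans (mul_le_mul_of_nonneg_right (min_le_right _ _) hn0)) b3
    exact ⟨g1, g2, g3.trans (mul_le_mul_of_nonneg_right (le_max_right _ _) hs)⟩

/-- powers of diameters -/
theorem fw_pow (hF : Feat Z Fc) (c : P → ℂ) (a Q : ℕ)
    (h1 : ∀ n, 1 ≤ n → ∀ w ∈ Kw A n, 1 ≤ dm Fc c w)
    (h2 : ∀ n, ∀ w ∈ Kw A n, dm Fc c w ≤ (2 * (n : ℝ) + 2) ^ a) (q : ℝ) (hq0 : 0 ≤ q)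
    (hq : q ≤ Q) : Fw Z (2 * Z.c0) (a * Q) (fun w => |dm Fc c w| ^ q) := by
  refine ⟨aw_dm hF c (fun _ r => |r| ^ q) (fun x r => by positivity) (fun x r r' g1 g2 => ?_),
    fun n hn w hw => ?_, fun n w hw => ?_⟩
  · have h3 : |r'| ^ q ≤ |r| ^ q := by
      refine Real.rpow_le_rpow (abs_nonneg _) ?_ hq0
      rw [abs_of_nonneg g2, abs_of_nonneg (g2.trans g1)]
      exact g1
    have h4 : 0 ≤ |r'| ^ q := by positivity
    rw [abs_le]
    constructor <;> linarith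
  · have g := h1 n hn w hw
    rw [abs_of_nonneg (by linarith)]
    exact Real.one_le_rpow g hq0
  · have g := h2 n w hw
    have g0 := dm_nonneg (Fc := Fc) c w
    have g1 : (1 : ℝ) ≤ (2 * (n : ℝ) + 2) ^ a := one_le_pow₀ (by
      have : (0 : ℝ) ≤ n := Nat.cast_nonneg n
      linarith)
    rw [abs_of_nonneg g0]
    calc dm Fc c w ^ q ≤ ((2 * (n : ℝ) + 2) ^ a) ^ q := Real.rpow_le_rpow g0 g hq0
      _ ≤ ((2 * (n : ℝ) + 2) ^ a) ^ (Q : ℝ) := Real.rpow_le_rpow_of_exponent_le g1 hq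
      _ = (2 * (n : ℝ) + 2) ^ (a * Q) := by rw [Real.rpow_natCast, ← pow_mul]

/-- sums over the walks in the domain, as functions -/
theorem sum_fun (Z : Rule A) (R : P → P → Prop) (n : ℕ) (f : (Fin (n + 1) → ℤ × ℤ) → ℝ)
    (F : List P → ℝ) (hf : ∀ g, f g = F (List.ofFn g)) :
    ∑ᶠ w : {w : Fin (n + 1) → ℤ × ℤ // (w 0 = 0 ∧ Function.Injective w ∧
      ∀ i : Fin n, A (w i.castSucc) (w i.succ)) ∧ ∀ i, R (w (Fin.last n)) (w i)},
      f w.1 = WR A R F n := by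
  have e1 : ∑ᶠ w : {w : Fin (n + 1) → ℤ × ℤ // (w 0 = 0 ∧ Function.Injective w ∧
      ∀ i : Fin n, A (w i.castSucc) (w i.succ)) ∧ ∀ i, R (w (Fin.last n)) (w i)},
      f w.1 = ∑ᶠ w ∈ {w : Fin (n + 1) → ℤ × ℤ | (w 0 = 0 ∧ Function.Injective w ∧
      ∀ i : Fin n, A (w i.castSucc) (w i.succ)) ∧ ∀ i, R (w (Fin.last n)) (w i)},
      f w :=
    finsum_set_coe_eq_finsum_mem (f := fun w : Fin (n + 1) → ℤ × ℤ => f w)
      {w : Fin (n + 1) → ℤ × ℤ | (w 0 = 0 ∧ Function.Injective w ∧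
      ∀ i : Fin n, A (w i.castSucc) (w i.succ)) ∧ ∀ i, R (w (Fin.last n)) (w i)}
  unfold WR
  rw [e1, ← finsum_mem_coe_finset]
  refine finsum_mem_eq_of_bijOn List.ofFn ⟨?_, List.ofFn_injective.injOn, ?_⟩ ?_
  · rintro g ⟨hg, hR⟩
    rw [Finset.mem_coe, mem_KR, ← Finset.mem_coe, ← image_wks Z n]
    refine ⟨⟨g, hg, rfl⟩, fun x hx => ?_⟩
    rw [List.mem_ofFn] at hx
    obtain ⟨i, rfl⟩ := hx
    rw [lst_ofFn]
    exact hR i
  · intro w hw
    rw [Finset.mem_coe, mem_KR] at hw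
    obtain ⟨g, hg, rfl, hl⟩ := Q78.UR.exists_fun Z hw.1
    refine ⟨g, ⟨hg, fun i => ?_⟩, rfl⟩
    have := hw.2 (g i) (by rw [List.mem_ofFn]; exact ⟨i, rfl⟩)
    rw [lst_ofFn] at this
    exact this
  · intro g _
    exact hf g

/-- numbers of walks in the domain and the event, as functions -/
theorem card_fun (Z : Rule A) (R : P → P → Prop) (n : ℕ) (f : (Fin (n + 1) → ℤ × ℤ) → Prop)
    (F : List P → Prop) (hf : ∀ g, f g ↔ F (List.ofFn g)) :
    Nat.card {w : Fin (n + 1) → ℤ × ℤ // ((w 0 = 0 ∧ Function.Injective w ∧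
      ∀ i : Fin n, A (w i.castSucc) (w i.succ)) ∧ ∀ i, R (w (Fin.last n)) (w i)) ∧ f w} =
      ((KR A R n).filter F).card := by
  have e : Nat.card {w : Fin (n + 1) → ℤ × ℤ // ((w 0 = 0 ∧ Function.Injective w ∧
      ∀ i : Fin n, A (w i.castSucc) (w i.succ)) ∧ ∀ i, R (w (Fin.last n)) (w i)) ∧ f w} =
      Set.ncard {w : Fin (n + 1) → ℤ × ℤ | (w ∈ wks A n ∧ ∀ i, R (w (Fin.last n)) (w i)) ∧
        f w} := by
    rw [← Nat.card_coe_set_eq]
    rfl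
  rw [e, ← Set.ncard_coe_finset, ← Set.ncard_image_of_injective
    {w : Fin (n + 1) → ℤ × ℤ | (w ∈ wks A n ∧ ∀ i, R (w (Fin.last n)) (w i)) ∧ f w}
    List.ofFn_injective]
  congr 1
  ext w
  rw [Finset.mem_coe, mem_filter, mem_KR, ← Finset.mem_coe, ← image_wks Z n, Set.mem_image,
    Set.mem_image]
  constructor
  · rintro ⟨g, ⟨⟨hg, hR⟩, h3⟩, rfl⟩
    refine ⟨⟨⟨g, hg, rfl⟩, fun x hx => ?_⟩, (hf g).1 h3⟩
    rw [List.mem_ofFn] at hx
    obtain ⟨i, rfl⟩ := hx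
    rw [lst_ofFn]
    exact hR i
  · rintro ⟨⟨⟨g, hg, rfl⟩, h2⟩, h3⟩
    refine ⟨g, ⟨⟨hg, fun i => ?_⟩, (hf g).2 h3⟩, rfl⟩
    have := h2 (g i) (by rw [List.mem_ofFn]; exact ⟨i, rfl⟩)
    rw [lst_ofFn] at this
    exact this

/-- the diameter in terms of functions -/
theorem dm_fun (Fc : P → Finset P) (c : P → ℂ) {n : ℕ} (g : Fin (n + 1) → ℤ × ℤ) :
    Metric.diam {z : ℂ | ∃ i, ∃ h ∈ Fc (g i), z = c h} = dm Fc c (List.ofFn g) := by
  unfold dm
  congr 1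
  ext z
  rw [Set.mem_image]
  constructor
  · rintro ⟨i, h, hh, rfl⟩
    refine ⟨h, ?_, rfl⟩
    rw [Finset.mem_coe, mem_FF]
    exact ⟨g i, by rw [List.mem_ofFn]; exact ⟨i, rfl⟩, hh⟩
  · rintro ⟨h, hh, rfl⟩
    rw [Finset.mem_coe, mem_FF] at hh
    obtain ⟨x, hx, h1⟩ := hh
    rw [List.mem_ofFn] at hx
    obtain ⟨i, rfl⟩ := hx
    exact ⟨i, h, h1, rfl⟩

/-- bounds for the Euclidean diameter -/
theorem bounds_T {pos : P → ℂ} {d : ℝ} (hP : Pos Z d pos) :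
    (∀ n, 1 ≤ n → ∀ w ∈ Kw A n, 1 ≤ dm FcT pos w) ∧
    (∀ n, ∀ w ∈ Kw A n, dm FcT pos w ≤ (2 * (n : ℝ) + 2) ^ 3) := by
  have hmem : ∀ (w : List P) (x : P), x ∈ FF FcT w ↔ x ∈ w := by
    intro w x
    rw [mem_FF]
    constructor
    · rintro ⟨y, hy, h⟩
      unfold FcT at h
      rw [mem_singleton] at h
      rw [h]; exact hy
    · intro h
      exact ⟨x, h, by simp [FcT]⟩
  constructor
  · intro n hn w hw
    have h1 := lst_ne Z hn hw
    have h2 := lst_mem hw Z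
    have h3 : (0 : P) ∈ w := by
      have hw' := (Z.mem_K).1 hw
      obtain ⟨a, b, rfl⟩ := List.exists_cons_of_ne_nil (ne_nil hw Z)
      have := hw'.2.1
      simp only [List.head?_cons, Option.some.injEq] at this
      rw [this]
      simp
    have h4 := dm_le (Fc := FcT) pos w ((hmem w _).2 h2) ((hmem w _).2 h3)
    rw [dist_eq_norm] at h4
    exact (hP.sep _ _ h1).trans h4
  · intro n w hw
    have h0 : (0 : ℝ) ≤ n := Nat.cast_nonneg n
    refine Metric.diam_le_of_forall_dist_le (by positivity) ?_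
    rintro _ ⟨x, hx, rfl⟩ _ ⟨y, hy, rfl⟩
    rw [Finset.mem_coe, hmem] at hx hy
    have h1 := hP.bd n x (coord_le hw hx).1 (coord_le hw hx).2
    have h2 := hP.bd n y (coord_le hw hy).1 (coord_le hw hy).2
    rw [dist_eq_norm]
    refine (norm_sub_le _ _).trans ?_
    have h3 : (2 * (n : ℝ) + 2) * 4 ≤ (2 * (n : ℝ) + 2) ^ 3 := by
      have : (4 : ℝ) ≤ (2 * (n : ℝ) + 2) ^ 2 := by nlinarith
      nlinarith
    linarith

end

end Q78.UW
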