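import Pool.Agent.Q78.UW.Expo

set_option autoImplicit false

/-! Approximately log-convex sequences with step one: all terms from a sparse set of terms; pairs of
sequences. -/

namespace Q78.UW.Ex

open Finset Filter Topology TH966.KS Q78.Z3

/-- **all terms from a sparse set of terms** -/
theorem abs_main (N : ℕ) (D θ : ℝ) (hD : 0 ≤ D) (hθ0 : 0 < θ) (hθ1 : θ < 1) :
    ∃ C : ℝ, 0 < C ∧ ∀ (S : Set ℕ) (x : ℕ → ℝ), Cl 1 N D θ x →
      (∀ (E ψ : ℕ → ℝ) (τ δ : ℝ), Q294.Sp1.Err E → Slow ψ → 0 < τ → 0 < δ → Gap S δ E →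
        (∀ᶠ k in atTop, k ∈ S → 0 < x k ∧ |Real.log (x k) - ψ k| ≤ τ * E k) →
        ∀ᶠ k in atTop, 0 < x k ∧ |Real.log (x k) - ψ k| ≤ C * (τ + δ ^ 2) * E k) ∧
      (∀ (E : ℕ → ℝ) (τ δ : ℝ), Q294.Sp1.Err E → 0 < τ → 0 < δ → Gap S δ E →
        (∀ᶠ k in atTop, k ∈ S → 0 < x k ∧ |Real.log (x k)| ≤ τ * E k) →
        ∀ᶠ k : ℕ in atTop,
          |x (k + 1) / x k - 1| ≤ C * √((1 + τ + δ ^ 2) * E k / k) ∧
          ∀ y : ℕ → ℝ, Cl 1 N D θ y → (∀ n, y n ≤ x n) →
            |y (k + 1) / x (k + 1) - y k / x k| ≤ C * √((1 + τ + δ ^ 2) * E k / k)) ∧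
      (∀ ψ : ℕ → ℝ, Slow ψ → (∀ δ : ℝ, 0 < δ → Gap S δ (fun _ => 1)) →
        Tendsto (fun k => x k / Real.exp (ψ k)) (atTop ⊓ 𝓟 S) (𝓝 1) →
        Tendsto (fun k => x k / Real.exp (ψ k)) atTop (𝓝 1)) ∧
      (∀ β : ℝ, (∀ δ : ℝ, 0 < δ → Gap S δ (fun n => Real.log n)) →
        (∀ᶠ k in atTop, k ∈ S → 0 < x k) →
        Tendsto (fun k : ℕ => Real.log (x k) / Real.log k) (atTop ⊓ 𝓟 S) (𝓝 β) →
        Tendsto (fun k : ℕ => Real.log (x k) / Real.log k) atTop (𝓝 β)) := by
  obtain ⟨hq0, hq1⟩ := sqrt_range hθ0 hθ1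
  obtain ⟨C1, hC1, hrat⟩ := all_ratio 1 le_rfl N D θ hD hθ0 hθ1
  obtain ⟨Q, hQ⟩ : ∃ Q : ℝ, Q = 9 + 384 * D := ⟨_, rfl⟩
  have hQ0 : 0 < Q := by rw [hQ]; positivity
  refine ⟨Q + C1 * √Q, by positivity, ?_⟩
  intro S x hxcl
  have hkes := kes_of le_rfl hxcl hD hθ0 hθ1 0
  simp only [one_mul, add_zero] at hkes
  have hnn : ∀ k, 0 ≤ x k := hxcl.nn
  have hbd : ∀ (E ψ : ℕ → ℝ) (τ δ : ℝ), Q294.Sp1.Err E → Slow ψ → 0 < τ → 0 < δ → Gap S δ E →
        (∀ᶠ k in atTop, k ∈ S → 0 < x k ∧ |Real.log (x k) - ψ k| ≤ τ * E k) →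
        ∀ᶠ k in atTop, 0 < x k ∧ |Real.log (x k) - ψ k| ≤ (9 * τ + 384 * D * δ ^ 2) * E k := by
    intro E ψ τ δ hE hψ hτ hδ hS h
    exact all_terms hkes hnn hD hq0 hq1 hE hψ hτ hδ hS h
  refine ⟨?_, ?_, ?_, ?_⟩
  · intro E ψ τ δ hE hψ hτ hδ hS h
    filter_upwards [hbd E ψ τ δ hE hψ hτ hδ hS h] with k hk
    refine ⟨hk.1, hk.2.trans (mul_le_mul_of_nonneg_right ?_ (by linarith [hE.1 k]))⟩
    have h1 : 0 ≤ C1 * √Q := by positivity
    have h2 : 9 * τ + 384 * D * δ ^ 2 ≤ Q * (τ + δ ^ 2) := by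
      rw [hQ]
      nlinarith [mul_nonneg hD hτ.le, sq_nonneg δ]
    refine h2.trans (mul_le_mul_of_nonneg_right ?_ (by positivity))
    linarith
  · intro E τ δ hE hτ hδ hS h
    have h1 := hbd E (fun _ => 0) τ δ hE ⟨0, fun m n _ _ => by simp⟩ hτ hδ hS (by
      simpa only [sub_zero] using h)
    simp only [sub_zero] at h1
    filter_upwards [hrat 0 x hxcl E hE (9 * τ + 384 * D * δ ^ 2) (by positivity) (by
      simpa only [one_mul, add_zero] using h1), h1] with k hk hpos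
    simp only [one_mul, add_zero] at hk
    have hE1 := hE.1 k
    have hle : C1 * √((1 + (9 * τ + 384 * D * δ ^ 2)) * E k / k) ≤
        (Q + C1 * √Q) * √((1 + τ + δ ^ 2) * E k / k) := by
      have h2 : √((1 + (9 * τ + 384 * D * δ ^ 2)) * E k / k) ≤
          √Q * √((1 + τ + δ ^ 2) * E k / k) := by
        rw [← Real.sqrt_mul hQ0.le]
        refine Real.sqrt_le_sqrt ?_
        rw [← mul_div_assoc, ← mul_assoc]
        refine div_le_div_of_nonneg_right (mul_le_mul_of_nonneg_right ?_ (by linarith))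
          (Nat.cast_nonneg _)
        rw [hQ]
        nlinarith [mul_nonneg hD hτ.le, sq_nonneg δ]
      have h3 : 0 ≤ √((1 + τ + δ ^ 2) * E k / k) := Real.sqrt_nonneg _
      calc C1 * √((1 + (9 * τ + 384 * D * δ ^ 2)) * E k / k)
          ≤ C1 * (√Q * √((1 + τ + δ ^ 2) * E k / k)) := mul_le_mul_of_nonneg_left h2 hC1.le
        _ = C1 * √Q * √((1 + τ + δ ^ 2) * E k / k) := by ring
        _ ≤ _ := mul_le_mul_of_nonneg_right (by linarith) h3
    exact ⟨hk.1.trans hle, fun y hy hyx => (hk.2 y hy hyx).trans hle⟩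
  · intro ψ hψ hS h
    exact all_form hkes hnn hD hq0 hq1 hψ hS h
  · intro β hS hpos h
    exact all_expo hkes hnn hD hq0 hq1 hS hpos β h

/-- **quotients of two sequences: all terms from a sparse set of terms** -/
theorem abs_cond (N : ℕ) (D θ : ℝ) (hD : 0 ≤ D) (hθ0 : 0 < θ) (hθ1 : θ < 1) (mm : ℕ) :
    ∃ C : ℝ, 0 < C ∧ ∀ (S : Set ℕ) (x w : ℕ → ℝ), Cl 1 N D θ x → Cl 1 N D θ w →
      (∀ n, 2 ≤ n → x n ≤ w n ∧ w n ≤ (4 * (n : ℝ)) ^ mm * x n) →
      -- exponents
      (∀ β β' : ℝ, (∀ δ : ℝ, 0 < δ → Gap S δ (fun n => Real.log n)) →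
        (∀ᶠ k in atTop, k ∈ S → 0 < x k) →
        Tendsto (fun k : ℕ => Real.log (x k) / Real.log k) (atTop ⊓ 𝓟 S) (𝓝 β) →
        Tendsto (fun k : ℕ => Real.log (w k / x k) / Real.log k) (atTop ⊓ 𝓟 S) (𝓝 β') →
        (∀ᶠ k in atTop, 0 < x k) ∧
        Tendsto (fun k : ℕ => Real.log (x k) / Real.log k) atTop (𝓝 β) ∧
        Tendsto (fun k : ℕ => Real.log (w k / x k) / Real.log k) atTop (𝓝 β')) ∧
      -- asymptotic forms
      (∀ ψ φ : ℕ → ℝ, Slow ψ → Slow φ → (∀ δ : ℝ, 0 < δ → Gap S δ (fun _ => 1)) →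
        Tendsto (fun k => x k / Real.exp (ψ k)) (atTop ⊓ 𝓟 S) (𝓝 1) →
        Tendsto (fun k => w k / x k / Real.exp (φ k)) (atTop ⊓ 𝓟 S) (𝓝 1) →
        Tendsto (fun k => x k / Real.exp (ψ k)) atTop (𝓝 1) ∧
        Tendsto (fun k => w k / x k / Real.exp (φ k)) atTop (𝓝 1)) ∧
      -- rates
      (∀ τ δ : ℝ, 0 < τ → 0 < δ → Gap S δ (fun n => 1 + Real.log n) →
        (∀ᶠ k in atTop, k ∈ S → 0 < x k ∧ |Real.log (x k)| ≤ τ * (1 + Real.log k)) →
        ∀ᶠ k : ℕ in atTop, 0 < x k ∧ 0 < x (k + 1) ∧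
          |x (k + 1) / x k - 1| ≤ C * √((1 + τ + δ ^ 2) * (1 + Real.log k) / k) ∧
          |w (k + 1) / x (k + 1) / (w k / x k) - 1| ≤
            C * √((1 + τ + δ ^ 2) * (1 + Real.log k) / k) ∧
          C * √((1 + τ + δ ^ 2) * (1 + Real.log k) / k) ≤ 1 / 2 ∧
          ∀ y : ℕ → ℝ, Cl 1 N D θ y → (∀ n, y n ≤ w n) →
            |y (k + 1) / w (k + 1) - y k / w k| ≤
              C * √((1 + τ + δ ^ 2) * (1 + Real.log k) / k)) := by
  obtain ⟨C1, hC1, h1⟩ := abs_main N D θ hD hθ0 hθ1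
  obtain ⟨C, hC⟩ : ∃ C, C = 4 * C1 * √(mm + 2) := ⟨_, rfl⟩
  have hC0 : 0 < C := by rw [hC]; positivity
  refine ⟨C, hC0, ?_⟩
  intro S x w hx hw hxw
  obtain ⟨a1, a2, a3, a4⟩ := h1 S w hw
  obtain ⟨b1, b2, b3, b4⟩ := h1 S x hx
  -- positivity of the quotient
  have hq : ∀ᶠ k : ℕ in atTop, 0 < x k → 1 ≤ w k / x k ∧ w k / x k ≤ (4 * (k : ℝ)) ^ mm := by
    filter_upwards [eventually_ge_atTop 2] with k hk hY
    obtain ⟨h2, h3⟩ := hxw k hk
    exact ⟨(one_le_div hY).2 h2, (div_le_iff₀ hY).2 h3⟩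
  have hwq : ∀ k, 0 < x k → w k = x k * (w k / x k) := fun k hk => by
    rw [mul_div_cancel₀ _ hk.ne']
  refine ⟨?_, ?_, ?_⟩
  · intro β β' hS hpos hl hl'
    have hlim1 := b4 β hS hpos hl
    have hposall : ∀ᶠ k in atTop, 0 < x k := by
      have := b1 (fun n => 1 + Real.log n) (fun n => β * Real.log n + 0) 1 1 Q294.Sp1.err_log
        (slow_log β 0) one_pos one_pos (by
          filter_upwards [hS 1 one_pos] with n hn
          obtain ⟨k, h1, h2, h3⟩ := hn
          refine ⟨k, h1, h2, h3.trans ?_⟩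
          have h4 : √((n : ℝ) * Real.log n) ≤ √(n * (1 + Real.log n)) :=
            Real.sqrt_le_sqrt (mul_le_mul_of_nonneg_left (by linarith) (by positivity))
          linarith) (by
          have h4 := Metric.tendsto_nhds.1 hl 1 one_pos
          rw [eventually_inf_principal] at h4
          filter_upwards [h4, hpos, eventually_gt_atTop 1] with n h4 hp h5 hnS
          have h51 : (1 : ℝ) < n := by exact_mod_cast h5
          have h52 : 0 < Real.log (n : ℝ) := Real.log_pos h51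
          have h7 := h4 hnS
          rw [Real.dist_eq] at h7
          have h8 : Real.log (x n) - (β * Real.log n + 0) =
              (Real.log (x n) / Real.log n - β) * Real.log n := by
            field_simp
            ring
          refine ⟨hp hnS, ?_⟩
          rw [h8, abs_mul, abs_of_pos h52]
          nlinarith)
      filter_upwards [this] with k hk using hk.1
    refine ⟨hposall, hlim1, ?_⟩
    have e1 : ∀ᶠ k : ℕ in atTop, 0 < x k → Real.log (w k) / Real.log k =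
          Real.log (x k) / Real.log k + Real.log (w k / x k) / Real.log k := by
      filter_upwards [hq] with k hk hY
      have h5 := (hk hY).1
      rw [← add_div, ← Real.log_mul hY.ne' (by linarith), ← hwq k hY]
    have hl2 : Tendsto (fun k : ℕ => Real.log (w k) / Real.log k) (atTop ⊓ 𝓟 S)
        (𝓝 (β + β')) := by
      refine (hl.add hl').congr' ?_
      have h3 : ∀ᶠ k : ℕ in atTop ⊓ 𝓟 S, 0 < x k := by
        rw [eventually_inf_principal]
        exact hpos
      have h4 : ∀ᶠ k : ℕ in atTop ⊓ 𝓟 S, 0 < x k → Real.log (w k) / Real.log k =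
          Real.log (x k) / Real.log k + Real.log (w k / x k) / Real.log k :=
        e1.filter_mono inf_le_left
      filter_upwards [h3, h4] with k hk hk2
      exact (hk2 hk).symm
    have hposw : ∀ᶠ k in atTop, k ∈ S → 0 < w k := by
      filter_upwards [hpos, hq] with k hk hk2 hkS
      rw [hwq k (hk hkS)]
      exact mul_pos (hk hkS) (by linarith [(hk2 (hk hkS)).1])
    have hlim2 := a4 (β + β') hS hposw hl2
    have hsub := hlim2.sub hlim1
    rw [add_sub_cancel_left] at hsub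
    refine hsub.congr' ?_
    filter_upwards [hposall, e1] with k hk hk2
    rw [hk2 hk]
    ring
  · intro ψ φ hψ hφ hS hl hl'
    have hlim1 := b3 ψ hψ hS hl
    have hposall : ∀ᶠ k in atTop, 0 < x k := by
      filter_upwards [hlim1.eventually_const_lt (show (0 : ℝ) < 1 by norm_num)] with k hk
      by_contra h3
      have h4 : x k ≤ 0 := not_lt.1 h3
      have := div_nonpos_of_nonpos_of_nonneg h4 (Real.exp_pos (ψ k)).le
      linarith
    refine ⟨hlim1, ?_⟩
    have e1 : ∀ᶠ k : ℕ in atTop, w k / Real.exp (ψ k + φ k) =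
        x k / Real.exp (ψ k) * (w k / x k / Real.exp (φ k)) := by
      filter_upwards [hposall] with k hY
      rw [Real.exp_add]
      field_simp
    have hl2 : Tendsto (fun k => w k / Real.exp (ψ k + φ k)) (atTop ⊓ 𝓟 S) (𝓝 1) := by
      have h2 := hl.mul hl'
      rw [one_mul] at h2
      refine h2.congr' ?_
      filter_upwards [e1.filter_mono inf_le_left] with k hk
      exact hk.symm
    have hslow : Slow (fun k => ψ k + φ k) := by
      obtain ⟨B1, hB1⟩ := hψ
      obtain ⟨B2, hB2⟩ := hφ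
      refine ⟨B1 + B2, fun m n hm hmn => ?_⟩
      have h3 := hB1 m n hm hmn
      have h4 := hB2 m n hm hmn
      have h5 : ψ n + φ n - (ψ m + φ m) = (ψ n - ψ m) + (φ n - φ m) := by ring
      rw [h5, add_mul]
      exact (abs_add_le _ _).trans (add_le_add h3 h4)
    have hlim2 := a3 _ hslow hS hl2
    have hdiv := hlim2.div hlim1 one_ne_zero
    rw [div_one] at hdiv
    refine hdiv.congr' ?_
    filter_upwards [hposall, e1] with k hk hk2
    show w k / Real.exp (ψ k + φ k) / (x k / Real.exp (ψ k)) = _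
    rw [hk2]
    have h3 : x k / Real.exp (ψ k) ≠ 0 := (div_pos hk (Real.exp_pos _)).ne'
    field_simp
  · intro τ δ hτ hδ hS hk
    have hlogS : ∀ᶠ k : ℕ in atTop, (mm : ℝ) * Real.log 4 ≤ Real.log k := by
      have tlog : Tendsto (fun n : ℕ => Real.log (n : ℝ)) atTop atTop :=
        Real.tendsto_log_atTop.comp tendsto_natCast_atTop_atTop
      exact tlog.eventually_ge_atTop _
    have A1 := a2 (fun n => 1 + Real.log n) (τ + (mm + 1)) δ Q294.Sp1.err_log (by positivity) hδ hS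
      (by
        filter_upwards [hk, hlogS, hq, eventually_ge_atTop 1] with k hk h2 h3 h4 hkS
        obtain ⟨h5, h6⟩ := hk hkS
        obtain ⟨h7, h8⟩ := h3 h5
        have h0 : 0 < w k / x k := by linarith
        have hk0 : (0 : ℝ) < k := by exact_mod_cast (show 0 < k by omega)
        have hw0 : 0 < w k := by rw [hwq k h5]; exact mul_pos h5 h0
        refine ⟨hw0, ?_⟩
        rw [hwq k h5, Real.log_mul h5.ne' h0.ne']
        refine (abs_add_le _ _).trans ?_
        have h9 : |Real.log (w k / x k)| ≤ (mm + 1) * (1 + Real.log k) := by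
          rw [abs_of_nonneg (Real.log_nonneg h7)]
          have h10 := Real.log_le_log h0 h8
          rw [Real.log_pow, Real.log_mul (by norm_num) hk0.ne'] at h10
          have h13 : 0 ≤ Real.log (k : ℝ) := Real.log_natCast_nonneg k
          have h14 : (0 : ℝ) ≤ mm := Nat.cast_nonneg _
          nlinarith
        linarith)
    have B1 := b2 (fun n => 1 + Real.log n) τ δ Q294.Sp1.err_log hτ hδ hS hk
    have P1 := b1 (fun n => 1 + Real.log n) (fun _ => 0) τ δ Q294.Sp1.err_log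
      ⟨0, fun m n _ _ => by simp⟩ hτ hδ hS (by simpa only [sub_zero] using hk)
    have hlim : Tendsto (fun k : ℕ => C1 * √(mm + 2) *
        √((1 + τ + δ ^ 2) * ((1 + Real.log (k : ℝ)) / k))) atTop (𝓝 0) := by
      have h2 := Q294.Sp1.err_log.lim.const_mul (1 + τ + δ ^ 2)
      rw [mul_zero] at h2
      have h3 := (Real.continuous_sqrt.tendsto 0).comp h2
      rw [Real.sqrt_zero] at h3
      have h4 := h3.const_mul (C1 * √(mm + 2))
      rw [mul_zero] at h4
      exact h4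
    filter_upwards [A1, B1, P1, hlim.eventually_le_const (show (0 : ℝ) < 1 / 8 by norm_num),
      hq, eventually_ge_atTop 1] with k kA kB kP ke kmw k1
    obtain ⟨u1, u2⟩ := kA
    obtain ⟨v1, -⟩ := kB
    have hlk : 0 ≤ Real.log (k : ℝ) := Real.log_natCast_nonneg k
    have hFn : 0 < x k := kP.1
    obtain ⟨e, he⟩ : ∃ e, e = √((1 + τ + δ ^ 2) * (1 + Real.log (k : ℝ)) / k) := ⟨_, rfl⟩
    have he0 : 0 ≤ e := by rw [he]; exact Real.sqrt_nonneg _
    rw [mul_div_assoc'] at ke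
    rw [← he] at v1 ke ⊢
    have hqq : √((1 + (τ + (mm + 1)) + δ ^ 2) * (1 + Real.log (k : ℝ)) / k) ≤ √(mm + 2) * e := by
      rw [he, ← Real.sqrt_mul (by positivity)]
      refine Real.sqrt_le_sqrt ?_
      rw [← mul_div_assoc, ← mul_assoc]
      refine div_le_div_of_nonneg_right (mul_le_mul_of_nonneg_right ?_ (by linarith))
        (Nat.cast_nonneg _)
      have h14 : (0 : ℝ) ≤ mm := Nat.cast_nonneg _
      nlinarith [mul_nonneg h14 hτ.le, mul_nonneg h14 (sq_nonneg δ), sq_nonneg δ]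
    have hs1 : (1 : ℝ) ≤ √(mm + 2) := by
      rw [Real.one_le_sqrt]
      have h14 : (0 : ℝ) ≤ mm := Nat.cast_nonneg _
      linarith
    obtain ⟨t, ht⟩ : ∃ t, t = C1 * √(mm + 2) * e := ⟨_, rfl⟩
    have ht0 : 0 ≤ t := by rw [ht]; positivity
    have hCt : C * e = 4 * t := by rw [hC, ht]; ring
    have hC1t : C1 * e ≤ t := by
      rw [ht]
      have : C1 * e * 1 ≤ C1 * e * √(mm + 2) := mul_le_mul_of_nonneg_left hs1 (by positivity)
      linarith
    have hu : C1 * √((1 + (τ + (mm + 1)) + δ ^ 2) * (1 + Real.log (k : ℝ)) / k) ≤ t := by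
      rw [ht, mul_assoc]
      exact mul_le_mul_of_nonneg_left hqq hC1.le
    rw [← ht] at ke
    have v2 := v1.trans hC1t
    have u3 := u1.trans hu
    have hF1 : 0 < x (k + 1) := by
      have := (abs_le.1 v2).1
      have h17 : 0 < x (k + 1) / x k := by linarith
      exact (div_pos_iff_of_pos_right hFn).1 h17
    have hX0 : 0 < w k := by
      have h2 := (kmw kP.1).1
      have h3 : 0 < w k / x k := by linarith
      exact (div_pos_iff_of_pos_right hFn).1 h3
    refine ⟨hFn, hF1, ?_, ?_, ?_, ?_⟩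
    · rw [hCt]
      linarith
    · have e3 : w (k + 1) / x (k + 1) / (w k / x k) = (w (k + 1) / w k) / (x (k + 1) / x k) := by
        field_simp
      rw [e3, hCt]
      obtain ⟨a, ha⟩ : ∃ a, a = w (k + 1) / w k := ⟨_, rfl⟩
      obtain ⟨b, hb⟩ : ∃ b, b = x (k + 1) / x k := ⟨_, rfl⟩
      rw [← ha] at u3 ⊢
      rw [← hb] at v2 ⊢
      obtain ⟨a1, a2⟩ := abs_le.1 u3
      obtain ⟨b1, b2⟩ := abs_le.1 v2
      have hb0 : 1 / 2 ≤ b := by linarith
      rw [div_sub_one (by linarith), abs_div, abs_of_pos (show 0 < b by linarith),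
        div_le_iff₀ (by linarith)]
      have h5 : |a - b| ≤ 2 * t := by
        rw [abs_le]
        constructor <;> linarith
      nlinarith
    · rw [hCt]
      linarith
    · intro y hy hyw
      rw [hCt]
      have := (u2 y hy hyw).trans hu
      linarith

end Q78.UW.Ex
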