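import Pool.Agent.Q78.UW.ExLaw

set_option autoImplicit false

/-! Shapes of polygons in random domains: sharper rates and limits from sparse perimeters. -/

namespace Q78.UW.Po

open Finset Filter Topology MeasureTheory TH966.AK Q294.Av Q294.Rs TH966.KS Q78.Z3 Q78.UW.Ex
open scoped Classical

noncomputable section

variable {Ω : Type} [MeasurableSpace Ω]

/-- test functions -/
def TJ {j : ℕ} (L : ℝ) (g : (Fin j → ℝ) → ℝ) : Prop :=
  (∀ x, |g x| ≤ 1) ∧ ∀ x y, (∀ i, 0 < x i) → (∀ i, 0 < y i) →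
    |g x - g y| ≤ L * ∑ i, |Real.log (x i) - Real.log (y i)|

theorem TJ.tst {j : ℕ} {L : ℝ} {g : (Fin j → ℝ) → ℝ} (h : TJ L g) : TstJ L (fun _ : P => g) :=
  ⟨fun _ x => h.1 x, fun _ x y hx hy => h.2 x y hx hy⟩

theorem TJ.scale {j : ℕ} {L : ℝ} {g : (Fin j → ℝ) → ℝ} (h : TJ L g) {a : Fin j → ℝ}
    (ha : ∀ i, 0 < a i) : TJ L (fun x => g (fun i => x i / a i)) := by
  have := (TJ.tst h).scale ha
  exact ⟨fun x => this.1 0 x, fun x y hx hy => this.2 0 x y hx hy⟩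

/-- the mean of a test function of several weights over the polygons in `D'`, relative to the
number of polygons in `D` -/
def Gp {j : ℕ} (ν : Measure Ω) (D' D : Ω → P → Prop) (f : Fin j → List P → ℝ)
    (g : Ω → (Fin j → ℝ) → ℝ) (n : ℕ) : ℝ :=
  XX Q78.UR.Sq.A ν (fun ω => RD (D' ω)) (tw f (fun ω _ => g ω)) (2 * n - 1) / Fp ν D n

/-- the terms from a sparse set -/
theorem all_Yp (mm : ℕ) (κ : ℝ) (hκ : 0 ≤ κ) (ν : Measure Ω) [IsProbabilityMeasure ν]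
    {D : Ω → P → Prop} (hD : ∀ x, MeasurableSet {ω | D ω x}) {S : Set ℕ} {ψ : ℕ → ℝ}
    (hψ : Slow ψ) {K0 d : ℝ} (hd : 0 < d) (hS : Gap S d (fun _ => 1)) {f : List P → ℝ}
    (hf : Fpol κ mm f)
    (hk : ∀ᶠ n in atTop, n ∈ S → 0 < XX Q78.UR.Sq.A ν (fun ω => RD (D ω)) (fun _ => f) (2 * n - 1) ∧
      |Real.log (XX Q78.UR.Sq.A ν (fun ω => RD (D ω)) (fun _ => f) (2 * n - 1) /
        H981.mu ^ (2 * n)) - ψ n| ≤ K0) :
    ∃ K' : ℝ, 0 ≤ K' ∧ ∀ᶠ n in atTop,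
      0 < XX Q78.UR.Sq.A ν (fun ω => RD (D ω)) (fun _ => f) (2 * n - 1) ∧
      |Real.log (XX Q78.UR.Sq.A ν (fun ω => RD (D ω)) (fun _ => f) (2 * n - 1) /
        H981.mu ^ (2 * n)) - ψ n| ≤ K' := by
  obtain ⟨N, E0, θ, hE0, hθ0, hθ1, hcl⟩ := poly_cl mm κ hκ
  obtain ⟨C1, hC1, h1⟩ := abs_main N E0 θ hE0 hθ0 hθ1
  have hμ := H981.mu_pos
  obtain ⟨a1, -, -, -⟩ := h1 S _ (hcl Ω ν D hD (fun _ => f) (fun ω => hf (D ω))
    (fun _ => measurable_const))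
  have h2 := a1 (fun _ => 1) ψ (|K0| + 1) d Q294.Sp1.err_one hψ (by positivity) hd hS (by
    filter_upwards [hk] with n hn hnS
    obtain ⟨g1, g2⟩ := hn hnS
    refine ⟨div_pos g1 (by positivity), g2.trans ?_⟩
    rw [mul_one]
    linarith [le_abs_self K0])
  refine ⟨C1 * (|K0| + 1 + d ^ 2) * 1, by positivity, ?_⟩
  filter_upwards [h2] with n hn
  exact ⟨(div_pos_iff_of_pos_right (by positivity)).1 hn.1, hn.2⟩

/-- **rates for test functions** -/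
theorem shape_law (j m : ℕ) (κ : ℝ) (hκ : 0 ≤ κ) (L : ℝ) (hL : 0 ≤ L) (ν : Measure Ω)
    [IsProbabilityMeasure ν] {D : Ω → P → Prop} (hD : ∀ x, MeasurableSet {ω | D ω x})
    {S : Set ℕ} {ψ : ℕ → ℝ} (hψ : Slow ψ) {K0 d : ℝ} (hd : 0 < d) (hS : Gap S d (fun _ => 1))
    (hk : ∀ᶠ n in atTop, n ∈ S → 0 < Yp ν D n ∧ |Real.log (Yp ν D n) - ψ n| ≤ K0) :
    ∃ C : ℝ, 0 < C ∧ ∀ᶠ n : ℕ in atTop, 0 < Fp ν D n ∧ 0 < Fp ν D (n + 1) ∧
      |Fp ν D (n + 1) / (H981.mu ^ 2 * Fp ν D n) - 1| ≤ C / √n ∧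
      ∀ f : Fin j → List P → ℝ, (∀ i, Fpol κ m (f i)) → ∀ D' : Ω → P → Prop,
        (∀ x, MeasurableSet {ω | D' ω x}) → (∀ ω x, D' ω x → D ω x) →
        ∀ g : Ω → (Fin j → ℝ) → ℝ, (∀ ω, TJ L (g ω)) → (∀ x, Measurable fun ω => g ω x) →
          |Gp ν D' D f g (n + 1) - Gp ν D' D f g n| ≤ C / √n := by
  obtain ⟨κ', hκ'⟩ : ∃ κ', κ' = max κ ((L + 2) * (j * κ)) := ⟨_, rfl⟩
  have k1 : κ ≤ κ' := by rw [hκ']; exact le_max_left _ _
  have k3 : (L + 2) * (j * κ) ≤ κ' := by rw [hκ']; exact le_max_right _ _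
  have hκ'0 : 0 ≤ κ' := hκ.trans k1
  have hμ := H981.mu_pos
  have hs1 : 1 ≤ Q78.UR.Sq.rule.s := by
    change 1 ≤ 2
    norm_num
  have h2pol : Fpol κ' (m + 1) (fun _ => (2 : ℝ)) := fun R =>
    fr_two Q78.UR.Sq.rule (RD R) κ' hκ'0 (m + 1) (by omega)
  have hXX2 : ∀ n, XX Q78.UR.Sq.A ν (fun ω => RD (D ω)) (fun _ _ => (2 : ℝ)) (2 * n - 1) =
      2 * Fp ν D n := fun n => by
    rw [XX_two]
    rfl
  have hψ2 : Slow (fun n => ψ n + Real.log 2) := by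
    obtain ⟨B, hB⟩ := hψ
    refine ⟨B, fun m n hm hmn => ?_⟩
    have := hB m n hm hmn
    simpa only [add_sub_add_right_eq_sub] using this
  obtain ⟨K', hK', hall⟩ := all_Yp (m + 1) κ' hκ'0 ν hD hψ2 hd hS h2pol (by
    filter_upwards [hk] with n hn hnS
    obtain ⟨g1, g2⟩ := hn hnS
    have g3 : 0 < Fp ν D n := (div_pos_iff_of_pos_right (by positivity)).1 g1
    rw [hXX2]
    refine ⟨by positivity, ?_⟩
    rw [mul_div_assoc, Real.log_mul (by norm_num) (div_pos g3 (by positivity)).ne']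
    rw [show Real.log 2 + Real.log (Fp ν D n / H981.mu ^ (2 * n)) - (ψ n + Real.log 2) =
      Real.log (Yp ν D n) - ψ n by unfold Yp; ring]
    exact g2)
  obtain ⟨N, E0, θ, hE0, hθ0, hθ1, hcl⟩ := poly_cl (m + 1) κ' hκ'0
  obtain ⟨C, N1, hC, hN1, hnest⟩ := nested_slow N E0 θ hE0 hθ0 hθ1 hψ2 K' hK'
  obtain ⟨M, hM⟩ := eventually_atTop.1 hall
  refine ⟨10 * C, by positivity, ?_⟩
  filter_upwards [eventually_ge_atTop (N1 + 2 * M)] with n hn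
  have hloc : ∀ i, n ≤ 2 * i → i ≤ 2 * n →
      0 < XX Q78.UR.Sq.A ν (fun ω => RD (D ω)) (fun _ _ => (2 : ℝ)) (2 * i - 1) /
        H981.mu ^ (2 * i) ∧
      |Real.log (XX Q78.UR.Sq.A ν (fun ω => RD (D ω)) (fun _ _ => (2 : ℝ)) (2 * i - 1) /
        H981.mu ^ (2 * i)) - (ψ i + Real.log 2)| ≤ K' := by
    intro i h1 _
    obtain ⟨h2, h3⟩ := hM i (by omega)
    exact ⟨div_pos h2 (by positivity), h3⟩
  have hxcl := hcl Ω ν D hD (fun _ _ => (2 : ℝ)) (fun ω => h2pol (D ω)) (fun _ => measurable_const)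
  have hF : ∀ i, n ≤ i → 0 < Fp ν D i := by
    intro i hi
    have := (hM i (by omega)).1
    rw [hXX2] at this
    linarith
  have hn0 : (0 : ℝ) < n := by exact_mod_cast (show 0 < n by omega)
  have hs0 : 0 < √(n : ℝ) := Real.sqrt_pos.2 hn0
  have hCs : 0 < C / √(n : ℝ) := by positivity
  have e10 : 10 * C / √(n : ℝ) = 10 * (C / √n) := by ring
  obtain ⟨r1, -⟩ := hnest _ _ hxcl hxcl (fun _ => le_rfl) n (by omega) hloc
  refine ⟨hF n le_rfl, hF (n + 1) (by omega), ?_, ?_⟩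
  · have e : XX Q78.UR.Sq.A ν (fun ω => RD (D ω)) (fun _ _ => (2 : ℝ)) (2 * (n + 1) - 1) /
          H981.mu ^ (2 * (n + 1)) /
        (XX Q78.UR.Sq.A ν (fun ω => RD (D ω)) (fun _ _ => (2 : ℝ)) (2 * n - 1) /
          H981.mu ^ (2 * n)) = Fp ν D (n + 1) / (H981.mu ^ 2 * Fp ν D n) := by
      rw [hXX2, hXX2, show 2 * (n + 1) = 2 * n + 2 by ring, pow_add]
      have := (hF n le_rfl).ne'
      field_simp
    rw [e] at r1
    rw [e10]
    linarith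
  · intro f hf D' hD' hsub g hg hgm
    have hmt : ∀ w : List P, Measurable fun ω => tp f (fun ω _ => g ω) ω w := fun w => by
      unfold tp tw
      exact measurable_const.add ((measurable_const.add (hgm _)).div_const 2)
    have hft : ∀ ω, Fr Q78.UR.Sq.rule (RD (D' ω)) κ' (m + 1) (tp f (fun ω _ => g ω) ω) :=
      fun ω => fr_mono (fr_test hκ hL (fun i => hf i (D' ω)) hs1 (hg ω).tst) k3 (by omega)
    have hf1 : ∀ ω, Fr Q78.UR.Sq.rule (RD (D' ω)) κ' (m + 1) (fun _ => (1 : ℝ)) :=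
      fun ω => fpol_one κ' hκ'0 (m + 1) (D' ω)
    have hle1 : ∀ (f' : Ω → List P → ℝ), (∀ ω, Fr Q78.UR.Sq.rule (RD (D' ω)) κ' (m + 1) (f' ω)) →
        (∀ w, Measurable fun ω => f' ω w) → (∀ ω w, f' ω w ≤ 2) → ∀ i,
        XX Q78.UR.Sq.A ν (fun ω => RD (D' ω)) f' (2 * i - 1) / H981.mu ^ (2 * i) ≤
        XX Q78.UR.Sq.A ν (fun ω => RD (D ω)) (fun _ _ => (2 : ℝ)) (2 * i - 1) /
          H981.mu ^ (2 * i) := by
      intro f' hf' hm' hle i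
      exact div_le_div_of_nonneg_right (XX_mono ν hD hD' hsub (fun ω => h2pol (D ω))
        (fun _ => measurable_const) hf' hm' hle _) (by positivity)
    have q1 := (hnest _ _ hxcl (hcl Ω ν D' hD' _ hft hmt) (hle1 _ hft hmt
      (fun ω w => tp_le f _ (fun ω => (hg ω).tst) ω w)) n (by omega) hloc).2
    have q2 := (hnest _ _ hxcl (hcl Ω ν D' hD' _ hf1 (fun _ => measurable_const)) (hle1 _ hf1
      (fun _ => measurable_const) (fun ω w => by norm_num)) n (by omega) hloc).2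
    rw [div_div_div_cancel_right₀ (by positivity), div_div_div_cancel_right₀ (by positivity),
      hXX2, hXX2] at q1 q2
    have t : ∀ i, XX Q78.UR.Sq.A ν (fun ω => RD (D' ω)) (tw f (fun ω _ => g ω)) (2 * i - 1) =
        2 * XX Q78.UR.Sq.A ν (fun ω => RD (D' ω)) (tp f (fun ω _ => g ω)) (2 * i - 1) -
        3 * XX Q78.UR.Sq.A ν (fun ω => RD (D' ω)) (fun _ _ => 1) (2 * i - 1) := by
      intro i
      have := (int_tw (A := Q78.UR.Sq.A) (Z := Q78.UR.Sq.rule) ν (fun e x => meas_RD hD' e x) hκ hL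
        hs1 (fun ω i => hf i (D' ω)) (fun ω => (hg ω).tst) (fun _ x => hgm x) (2 * i - 1)).2
      rw [XX_one]
      exact this
    unfold Gp
    rw [t n, t (n + 1)]
    obtain ⟨T1, hT1⟩ : ∃ X, X = XX Q78.UR.Sq.A ν (fun ω => RD (D' ω)) (tp f (fun ω _ => g ω))
      (2 * (n + 1) - 1) := ⟨_, rfl⟩
    obtain ⟨T0, hT0⟩ : ∃ X, X = XX Q78.UR.Sq.A ν (fun ω => RD (D' ω)) (tp f (fun ω _ => g ω))
      (2 * n - 1) := ⟨_, rfl⟩
    obtain ⟨Y1, hY1⟩ : ∃ X, X = XX Q78.UR.Sq.A ν (fun ω => RD (D' ω)) (fun _ _ => (1 : ℝ))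
      (2 * (n + 1) - 1) := ⟨_, rfl⟩
    obtain ⟨Y0, hY0⟩ : ∃ X, X = XX Q78.UR.Sq.A ν (fun ω => RD (D' ω)) (fun _ _ => (1 : ℝ))
      (2 * n - 1) := ⟨_, rfl⟩
    have q1' : |T1 / (2 * Fp ν D (n + 1)) - T0 / (2 * Fp ν D n)| ≤ C / √n := by
      rw [hT1, hT0]
      exact q1
    have q2' : |Y1 / (2 * Fp ν D (n + 1)) - Y0 / (2 * Fp ν D n)| ≤ C / √n := by
      rw [hY1, hY0]
      exact q2
    rw [← hT1, ← hT0, ← hY1, ← hY0]
    have e3 : (2 * T1 - 3 * Y1) / Fp ν D (n + 1) - (2 * T0 - 3 * Y0) / Fp ν D n =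
        4 * (T1 / (2 * Fp ν D (n + 1)) - T0 / (2 * Fp ν D n)) -
          6 * (Y1 / (2 * Fp ν D (n + 1)) - Y0 / (2 * Fp ν D n)) := by
      have a1 : ∀ X F : ℝ, X / (2 * F) = X / F / 2 := fun X F => by
        rw [mul_comm, div_mul_eq_div_div]
      rw [a1, a1, a1, a1]
      ring
    rw [e3, e10]
    obtain ⟨b1, b2⟩ := abs_le.1 q1'
    obtain ⟨b3, b4⟩ := abs_le.1 q2'
    rw [abs_le]
    constructor <;> linarith

/-- **rates for the means** -/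
theorem shape_mean (m : ℕ) (κ : ℝ) (hκ : 0 ≤ κ) (ν : Measure Ω) [IsProbabilityMeasure ν]
    {D : Ω → P → Prop} (hD : ∀ x, MeasurableSet {ω | D ω x}) {S : Set ℕ} {ψ φ : ℕ → ℝ}
    (hψ : Slow ψ) (hφ : Slow φ) {K0 K1 d : ℝ} (hd : 0 < d) (hS : Gap S d (fun _ => 1))
    (hk : ∀ᶠ n in atTop, n ∈ S → 0 < Yp ν D n ∧ |Real.log (Yp ν D n) - ψ n| ≤ K0)
    {f : List P → ℝ} (hf : Fpol κ m f)
    (hk1 : ∀ᶠ n in atTop, n ∈ S → |Real.log (Mp ν D f n) - φ n| ≤ K1) :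
    ∃ C : ℝ, 0 < C ∧ ∀ᶠ n : ℕ in atTop, C / √n ≤ 1 / 2 ∧ 0 < Mp ν D f n ∧ 0 < Mp ν D f (n + 1) ∧
      |Mp ν D f (n + 1) / Mp ν D f n - 1| ≤ C / √n := by
  have hμ := H981.mu_pos
  obtain ⟨C1, hC1, h1⟩ := shape_law 0 m κ hκ 0 le_rfl ν hD hψ hd hS hk
  have hψφ : Slow (fun n => ψ n + φ n) := by
    obtain ⟨B1, hB1⟩ := hψ
    obtain ⟨B2, hB2⟩ := hφ
    refine ⟨B1 + B2, fun m n hm hmn => ?_⟩
    have h3 := hB1 m n hm hmn
    have h4 := hB2 m n hm hmn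
    have h5 : ψ n + φ n - (ψ m + φ m) = (ψ n - ψ m) + (φ n - φ m) := by ring
    rw [h5, add_mul]
    exact (abs_add_le _ _).trans (add_le_add h3 h4)
  have hXF : ∀ n, 1 ≤ n → 0 < Fp ν D n →
      0 < XX Q78.UR.Sq.A ν (fun ω => RD (D ω)) (fun _ => f) (2 * n - 1) ∧ 0 < Mp ν D f n := by
    intro n hn hF
    have h2 := hF.trans_le (XX_bounds ν hD hf n hn).1
    exact ⟨h2, div_pos h2 hF⟩
  obtain ⟨K', hK', hall⟩ := all_Yp (K0 := K0 + K1) m κ hκ ν hD hψφ hd hS hf (by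
    filter_upwards [hk, hk1, eventually_ge_atTop 1] with n hn hn1 hn2 hnS
    obtain ⟨g1, g2⟩ := hn hnS
    have g3 : 0 < Fp ν D n := (div_pos_iff_of_pos_right (by positivity)).1 g1
    obtain ⟨g4, g5⟩ := hXF n hn2 g3
    refine ⟨g4, ?_⟩
    have e : XX Q78.UR.Sq.A ν (fun ω => RD (D ω)) (fun _ => f) (2 * n - 1) / H981.mu ^ (2 * n) =
        Yp ν D n * Mp ν D f n := by
      unfold Yp Mp
      have := g3.ne'
      field_simp
    rw [e, Real.log_mul g1.ne' g5.ne',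
      show Real.log (Yp ν D n) + Real.log (Mp ν D f n) - (ψ n + φ n) =
        (Real.log (Yp ν D n) - ψ n) + (Real.log (Mp ν D f n) - φ n) by ring]
    exact (abs_add_le _ _).trans (add_le_add g2 (hn1 hnS)))
  obtain ⟨N, E0, θ, hE0, hθ0, hθ1, hcl⟩ := poly_cl m κ hκ
  obtain ⟨C, N1, hC, hN1, hnest⟩ := nested_slow N E0 θ hE0 hθ0 hθ1 hψφ K' hK'
  obtain ⟨M, hM⟩ := eventually_atTop.1 hall
  obtain ⟨T, hT⟩ : ∃ T, T = C + C1 := ⟨_, rfl⟩
  have hT0 : 0 < T := by rw [hT]; positivity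
  have hsm : Tendsto (fun n : ℕ => 4 * T / √(n : ℝ)) atTop (𝓝 0) := by
    have h2 : Tendsto (fun n : ℕ => √(n : ℝ)) atTop atTop :=
      Real.tendsto_sqrt_atTop.comp tendsto_natCast_atTop_atTop
    exact h2.const_div_atTop _
  refine ⟨4 * T, by positivity, ?_⟩
  filter_upwards [eventually_ge_atTop (N1 + 2 * M), h1,
    hsm.eventually_le_const (show (0 : ℝ) < 1 / 2 by norm_num)] with n hn hn1 hsmn
  obtain ⟨f0, f1, r1, -⟩ := hn1
  have hloc : ∀ i, n ≤ 2 * i → i ≤ 2 * n →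
      0 < XX Q78.UR.Sq.A ν (fun ω => RD (D ω)) (fun _ => f) (2 * i - 1) / H981.mu ^ (2 * i) ∧
      |Real.log (XX Q78.UR.Sq.A ν (fun ω => RD (D ω)) (fun _ => f) (2 * i - 1) /
        H981.mu ^ (2 * i)) - (ψ i + φ i)| ≤ K' := by
    intro i h1 _
    obtain ⟨h2, h3⟩ := hM i (by omega)
    exact ⟨div_pos h2 (by positivity), h3⟩
  have hxcl := hcl Ω ν D hD (fun _ => f) (fun ω => hf (D ω)) (fun _ => measurable_const)
  obtain ⟨r2, -⟩ := hnest _ _ hxcl hxcl (fun _ => le_rfl) n (by omega) hloc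
  obtain ⟨g4, g5⟩ := hXF n (by omega) f0
  obtain ⟨g6, g7⟩ := hXF (n + 1) (by omega) f1
  refine ⟨hsmn, g5, g7, ?_⟩
  have hn0 : (0 : ℝ) < n := by exact_mod_cast (show 0 < n by omega)
  have hs0 : 0 < √(n : ℝ) := Real.sqrt_pos.2 hn0
  have e : XX Q78.UR.Sq.A ν (fun ω => RD (D ω)) (fun _ => f) (2 * (n + 1) - 1) /
          H981.mu ^ (2 * (n + 1)) /
        (XX Q78.UR.Sq.A ν (fun ω => RD (D ω)) (fun _ => f) (2 * n - 1) / H981.mu ^ (2 * n)) =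
      (Mp ν D f (n + 1) / Mp ν D f n) * (Fp ν D (n + 1) / (H981.mu ^ 2 * Fp ν D n)) := by
    unfold Mp
    rw [show 2 * (n + 1) = 2 * n + 2 by ring, pow_add]
    have := f0.ne'
    have := f1.ne'
    field_simp
  rw [e] at r2
  obtain ⟨a, ha⟩ : ∃ a, a = Mp ν D f (n + 1) / Mp ν D f n := ⟨_, rfl⟩
  obtain ⟨b, hb⟩ : ∃ b, b = Fp ν D (n + 1) / (H981.mu ^ 2 * Fp ν D n) := ⟨_, rfl⟩
  rw [← ha, ← hb] at r2
  rw [← hb] at r1
  rw [← ha]
  have ha0 : 0 < a := by rw [ha]; exact div_pos g7 g5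
  obtain ⟨t, ht⟩ : ∃ t, t = T / √(n : ℝ) := ⟨_, rfl⟩
  have ht0 : 0 < t := by rw [ht]; positivity
  have e4 : 4 * T / √(n : ℝ) = 4 * t := by rw [ht]; ring
  rw [e4] at hsmn ⊢
  have hr : C / √(n : ℝ) + C1 / √(n : ℝ) = t := by rw [ht, hT]; ring
  have hC0 : 0 < C / √(n : ℝ) := by positivity
  have hC10 : 0 < C1 / √(n : ℝ) := by positivity
  obtain ⟨x1, x2⟩ := abs_le.1 r1
  obtain ⟨x3, x4⟩ := abs_le.1 r2
  have hb1 : 3 / 4 ≤ b := by linarith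
  have hb2 : b ≤ 5 / 4 := by linarith
  rw [abs_le]
  constructor
  · -- a ≥ 1 - 4 t
    nlinarith
  · nlinarith

/-- **rates for the normalised test functions, and limits** -/
theorem shape_main (j m : ℕ) (κ : ℝ) (hκ : 0 ≤ κ) (L : ℝ) (hL : 0 ≤ L) (ν : Measure Ω)
    [IsProbabilityMeasure ν] {D : Ω → P → Prop} (hD : ∀ x, MeasurableSet {ω | D ω x})
    {S : Set ℕ} {ψ : ℕ → ℝ} (hψ : Slow ψ) {K0 d : ℝ} (hd : 0 < d) (hS : Gap S d (fun _ => 1))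
    (hk : ∀ᶠ n in atTop, n ∈ S → 0 < Yp ν D n ∧ |Real.log (Yp ν D n) - ψ n| ≤ K0)
    {f : Fin j → List P → ℝ} (hf : ∀ i, Fpol κ m (f i)) {φ : Fin j → ℕ → ℝ}
    (hφ : ∀ i, Slow (φ i)) {K1 : ℝ}
    (hk1 : ∀ i, ∀ᶠ n in atTop, n ∈ S → |Real.log (Mp ν D (f i) n) - φ i n| ≤ K1) :
    ∃ C : ℝ, 0 < C ∧ ∀ᶠ n : ℕ in atTop,
      (∀ i, 0 < Mp ν D (f i) n ∧ 0 < Mp ν D (f i) (n + 1) ∧
        |Mp ν D (f i) (n + 1) / Mp ν D (f i) n - 1| ≤ C / √n) ∧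
      ∀ D' : Ω → P → Prop, (∀ x, MeasurableSet {ω | D' ω x}) → (∀ ω x, D' ω x → D ω x) →
        ∀ g : Ω → (Fin j → ℝ) → ℝ, (∀ ω, TJ L (g ω)) → (∀ x, Measurable fun ω => g ω x) →
          |Gp ν D' D f (fun ω x => g ω fun i => x i / Mp ν D (f i) (n + 1)) (n + 1) -
            Gp ν D' D f (fun ω x => g ω fun i => x i / Mp ν D (f i) n) n| ≤ C / √n := by
  obtain ⟨C1, hC1, h1⟩ := shape_law j m κ hκ L hL ν hD hψ hd hS hk
  have h2 := fun i => shape_mean m κ hκ ν hD hψ (hφ i) hd hS hk (hf i) (hk1 i)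
  choose c hc hcm using h2
  obtain ⟨T, hT⟩ : ∃ T : ℝ, T = ∑ i, c i := ⟨_, rfl⟩
  have hTi : ∀ i, c i ≤ T := fun i => by
    rw [hT]
    exact single_le_sum (f := c) (fun i _ => (hc i).le) (mem_univ i)
  have hT0 : 0 ≤ T := by rw [hT]; exact sum_nonneg fun i _ => (hc i).le
  have hs1 : 1 ≤ Q78.UR.Sq.rule.s := by
    change 1 ≤ 2
    norm_num
  refine ⟨C1 + T + 2 * L * T, by positivity, ?_⟩
  have hcm' : ∀ᶠ n : ℕ in atTop, ∀ i, c i / √n ≤ 1 / 2 ∧ 0 < Mp ν D (f i) n ∧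
      0 < Mp ν D (f i) (n + 1) ∧ |Mp ν D (f i) (n + 1) / Mp ν D (f i) n - 1| ≤ c i / √n :=
    eventually_all.2 hcm
  filter_upwards [h1, hcm', eventually_ge_atTop 1] with n hn hm hn1
  obtain ⟨f0, f1, -, h3⟩ := hn
  have hn0 : (0 : ℝ) < n := by exact_mod_cast hn1
  have hs0 : 0 < √(n : ℝ) := Real.sqrt_pos.2 hn0
  have hLT : 0 ≤ 2 * L * T := by positivity
  refine ⟨fun i => ?_, ?_⟩
  · obtain ⟨-, a1, a2, a3⟩ := hm i
    refine ⟨a1, a2, a3.trans (div_le_div_of_nonneg_right ?_ hs0.le)⟩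
    linarith [hTi i]
  · intro D' hD' hsub g hg hgm
    obtain ⟨a, ha⟩ : ∃ a : Fin j → ℝ, a = fun i => Mp ν D (f i) n := ⟨_, rfl⟩
    obtain ⟨a', ha'⟩ : ∃ a' : Fin j → ℝ, a' = fun i => Mp ν D (f i) (n + 1) := ⟨_, rfl⟩
    have e1 : ∀ i, Mp ν D (f i) n = a i := fun i => by rw [ha]
    have e2 : ∀ i, Mp ν D (f i) (n + 1) = a' i := fun i => by rw [ha']
    simp only [e1, e2] at hm ⊢
    have ha0 : ∀ i, 0 < a i := fun i => (hm i).2.1
    have ha'0 : ∀ i, 0 < a' i := fun i => (hm i).2.2.1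
    have hga : ∀ ω, TJ L (fun x => g ω fun i => x i / a i) := fun ω => (hg ω).scale ha0
    have hga' : ∀ ω, TJ L (fun x => g ω fun i => x i / a' i) := fun ω => (hg ω).scale ha'0
    have j1 := h3 f hf D' hD' hsub (fun ω x => g ω fun i => x i / a i) hga
      (fun x => hgm _)
    have j3 := abs_tw_le (A := Q78.UR.Sq.A) (Z := Q78.UR.Sq.rule) ν (fun e x => meas_RD hD' e x)
      hκ hL hs1 (fun ω i => hf i (D' ω)) (g := fun ω _ x => g ω fun i => x i / a' i)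
      (g' := fun ω _ x => g ω fun i => x i / a i) (fun ω => (hga' ω).tst) (fun _ x => hgm _)
      (fun ω => (hga ω).tst) (fun _ x => hgm _) (2 * (n + 1) - 1) (e := 2 * L * T / √n)
      (fun ω w hw => by
        unfold tw
        have hx : ∀ i, 0 < f i w := fun i => by
          have := (hf i (D' ω)).ge (2 * (n + 1) - 1) (by omega) w hw
          linarith
        refine ((hg ω).2 _ _ (fun i => div_pos (hx i) (ha'0 i))
          (fun i => div_pos (hx i) (ha0 i))).trans ?_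
        have j4 : ∑ i : Fin j, |Real.log (f i w / a' i) - Real.log (f i w / a i)| ≤
            ∑ i : Fin j, 2 * (c i / √n) := by
          refine sum_le_sum fun i _ => ?_
          rw [Real.log_div (hx i).ne' (ha'0 i).ne', Real.log_div (hx i).ne' (ha0 i).ne']
          obtain ⟨k1, -, -, k4⟩ := hm i
          have k5 := log_near (div_pos (hc i) hs0).le (div_pos (ha'0 i) (ha0 i)) k4 k1
          rw [Real.log_div (ha'0 i).ne' (ha0 i).ne', ← abs_neg] at k5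
          refine le_trans (le_of_eq ?_) k5
          congr 1
          ring
        refine (mul_le_mul_of_nonneg_left j4 hL).trans (le_of_eq ?_)
        rw [← mul_sum, ← sum_div, ← hT]
        ring)
    have j6 : Fp ν D' (n + 1) ≤ Fp ν D (n + 1) := by
      rw [← Fp_XX, ← Fp_XX]
      exact XX_mono (κ := κ) (κ' := κ) (m := m) (m' := m) ν hD hD' hsub
        (fun ω => fpol_one κ hκ m (D ω)) (fun _ => measurable_const)
        (fun ω => fpol_one κ hκ m (D' ω)) (fun _ => measurable_const) (fun _ _ => le_rfl) _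
    have e5 : |Gp ν D' D f (fun ω x => g ω fun i => x i / a' i) (n + 1) -
        Gp ν D' D f (fun ω x => g ω fun i => x i / a i) (n + 1)| ≤ 2 * L * T / √n := by
      unfold Gp
      rw [← sub_div, abs_div, abs_of_pos f1, div_le_iff₀ f1]
      exact j3.trans (mul_le_mul_of_nonneg_left j6 (by positivity))
    refine (abs_sub_le _ (Gp ν D' D f (fun ω x => g ω fun i => x i / a i) (n + 1)) _).trans ?_
    have e6 : (C1 + T + 2 * L * T) / √(n : ℝ) = C1 / √n + T / √n + 2 * L * T / √n := by ring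
    rw [e6]
    have : 0 ≤ T / √(n : ℝ) := by positivity
    linarith

/-- from asymptotic forms to bounds -/
theorem form_bound {y ψ : ℕ → ℝ} {S : Set ℕ}
    (h : Tendsto (fun n => y n / Real.exp (ψ n)) (atTop ⊓ 𝓟 S) (𝓝 1)) :
    ∀ᶠ n in atTop, n ∈ S → 0 < y n ∧ |Real.log (y n) - ψ n| ≤ 1 := by
  have h1 := h.eventually_const_lt (show (0 : ℝ) < 1 by norm_num)
  have h4 := (h.log one_ne_zero).abs
  rw [Real.log_one, abs_zero] at h4
  have h5 := h4.eventually_lt_const (show (0 : ℝ) < 1 by norm_num)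
  rw [eventually_inf_principal] at h1 h5
  filter_upwards [h1, h5] with n hn hn2 hnS
  have hy : 0 < y n := (div_pos_iff_of_pos_right (Real.exp_pos _)).1 (hn hnS)
  have h6 := hn2 hnS
  rw [Real.log_div hy.ne' (Real.exp_pos _).ne', Real.log_exp] at h6
  exact ⟨hy, h6.le⟩

/-- **limits of the normalised test functions** -/
theorem shape_lim (j m : ℕ) (κ : ℝ) (hκ : 0 ≤ κ) (L : ℝ) (hL : 0 ≤ L) (ν : Measure Ω)
    [IsProbabilityMeasure ν] {D : Ω → P → Prop} (hD : ∀ x, MeasurableSet {ω | D ω x})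
    {S : Set ℕ} {ψ : ℕ → ℝ} (hψ : Slow ψ) (hS : ∀ δ : ℝ, 0 < δ → Gap S δ (fun _ => 1))
    (hY : Tendsto (fun n => Yp ν D n / Real.exp (ψ n)) (atTop ⊓ 𝓟 S) (𝓝 1))
    {f : Fin j → List P → ℝ} (hf : ∀ i, Fpol κ m (f i)) {φ : Fin j → ℕ → ℝ}
    (hφ : ∀ i, Slow (φ i))
    (hM : ∀ i, Tendsto (fun n => Mp ν D (f i) n / Real.exp (φ i n)) (atTop ⊓ 𝓟 S) (𝓝 1)) :
    Tendsto (fun n => Yp ν D n / Real.exp (ψ n)) atTop (𝓝 1) ∧
    (∀ i, Tendsto (fun n => Mp ν D (f i) n / Real.exp (φ i n)) atTop (𝓝 1)) ∧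
    ∀ D' : Ω → P → Prop, (∀ x, MeasurableSet {ω | D' ω x}) → (∀ ω x, D' ω x → D ω x) →
      ∀ g : Ω → (Fin j → ℝ) → ℝ, (∀ ω, TJ L (g ω)) → (∀ x, Measurable fun ω => g ω x) → ∀ ℓ : ℝ,
        Tendsto (fun n => Gp ν D' D f (fun ω x => g ω fun i => x i / Mp ν D (f i) n) n)
          (atTop ⊓ 𝓟 S) (𝓝 ℓ) →
        Tendsto (fun n => Gp ν D' D f (fun ω x => g ω fun i => x i / Mp ν D (f i) n) n)
          atTop (𝓝 ℓ) := by
  obtain ⟨C0, hC0, h0⟩ := poly_ex m κ hκ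
  obtain ⟨-, -, h3, -, h5⟩ := h0 Ω ν D hD S
  refine ⟨h3 ψ hψ hS hY, fun i => ((h5 (f i) (hf i)).2.1 ψ (φ i) hψ (hφ i) hS hY (hM i)).2, ?_⟩
  intro D' hD' hsub g hg hgm ℓ hl
  obtain ⟨C, hC, h⟩ := shape_main (K0 := 1) (K1 := 1) (d := 1) j m κ hκ L hL ν hD hψ one_pos
    (hS 1 one_pos) (form_bound hY) hf hφ (fun i => by
      filter_upwards [form_bound (hM i)] with n hn hnS
      exact (hn hnS).2)
  refine lim_gap hC ?_ hS hl
  filter_upwards [h] with n hn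
  exact hn.2 D' hD' hsub g hg hgm

end

end Q78.UW.Po
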