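import Pool.Agent.Q78.UW.Cvx
import Pool.Agent.Q294.Av2
import Pool.Agent.Q78.UG.Abs
import Pool.Agent.Q78.UR.Fin
import Pool.Agent.Q78.Z3.Mom

set_option autoImplicit false

/-! Walks in a random domain with weights which change little under the local moves. -/

namespace Q78.UW

open Finset Filter Topology MeasureTheory TH966.AK Q294.Av Q294.Rs
open scoped Classical

noncomputable section

variable {A : P → P → Prop} {Z : Rule A} {μ K : ℝ}

/-- the class of weights for the walks restricted by `R` -/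
structure Fr (Z : Rule A) (R : P → P → Prop) (κ : ℝ) (m : ℕ) (f : List P → ℝ) : Prop where
  aw : AW (inn Z R).sys κ f
  ge : ∀ n, 1 ≤ n → ∀ w ∈ KR A R n, 1 ≤ f w
  le : ∀ n, ∀ w ∈ KR A R n, f w ≤ (2 * (n : ℝ) + 2) ^ m

/-- restricted weighted numbers -/
def WR (A : P → P → Prop) (R : P → P → Prop) (f : List P → ℝ) (n : ℕ) : ℝ := ∑ w ∈ KR A R n, f w

theorem afR_eq (R : P → P → Prop) (f : List P → ℝ) (n : ℕ) :
    (inn Z R).sys.af f n = WR A R f n := rfl

theorem KR_sub (R : P → P → Prop) (n : ℕ) : KR A R n ⊆ Kw A n := filter_subset _ _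

theorem AW_res {κ : ℝ} {f : List P → ℝ} (h : AW Z.sys κ f) (R : P → P → Prop) :
    AW (inn Z R).sys κ f := by
  refine ⟨fun n w hw => h.1 n w (KR_sub R n hw), fun n w hn hw => ?_⟩
  refine le_trans ?_ (h.2 n w hn (KR_sub R _ hw))
  exact sum_le_sum_of_subset_of_nonneg (fun q hq => ((mem_sysB (inn Z R)).1 hq).1)
    fun q _ _ => abs_nonneg _

theorem fr_of_fw {κ : ℝ} {m : ℕ} {f : List P → ℝ} (h : Fw Z κ m f) (R : P → P → Prop) :
    Fr Z R κ m f :=
  ⟨AW_res h.aw R, fun n hn w hw => h.ge n hn w (KR_sub R n hw),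
    fun n w hw => h.le n w (KR_sub R n hw)⟩

theorem BR_le (Z : Rule A) (R : P → P → Prop) (n : ℕ) (w : List P) (hw : w ∈ (inn Z R).sys.K n) :
    ((inn Z R).sys.B w).card ≤ (inn Z R).sys.C * (n + 1) := by
  refine le_trans (card_le_card fun q hq => ((mem_sysB (inn Z R)).1 hq).1) ?_
  exact B_le Z n w (KR_sub R n hw)

theorem badR (R : P → P → Prop) {κ : ℝ} {m : ℕ} {f : List P → ℝ} (hF : Fr Z R κ m f) (M n : ℕ) :
    (inn Z R).sys.badf f M n ≤ (2 * (n : ℝ) + 2) ^ m * ((inn Z R).sys.bad M n).card := by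
  unfold Sys.badf
  rw [mul_comm, ← nsmul_eq_mul, ← sum_const]
  refine sum_le_sum fun w hw => hF.le n w ?_
  unfold Sys.bad at hw
  exact (mem_filter.1 hw).1

/-- **Kesten's inequality with weights, uniformly in the restriction and the weight** -/
theorem kesRW (G : Loc Z μ) (m : ℕ) (κ : ℝ) (hκ : 0 ≤ κ) : ∃ (D θ : ℝ) (N : ℕ), 0 ≤ D ∧ 0 < θ ∧
    θ < 1 ∧ ∀ (R : P → P → Prop) (f : List P → ℝ), Fr Z R κ m f →
      Q78.UG.Kz Z.s N D θ μ (WR A R f) := by
  have hμ0 : 0 < μ := by linarith [G.hμ]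
  obtain ⟨M0, ρ, C0, hM0, hρ0, hρ, hP⟩ := poorR G
  obtain ⟨M, θ, C', hM, hθ0, hθ1, hC', hbad⟩ := patternU (α := List P) (σ := List P × List P)
    (C0 := C0) Z.CC Z.s 0 M0 hM0 G.hμ hρ0 hρ (u := fun n => ((Kw A n).card : ℝ)) G.up
  obtain ⟨B, hB0, hB⟩ := absorb m hθ0 (show θ < (1 + θ) / 2 by linarith)
  obtain ⟨D, hD, hconv⟩ := convexAU (α := List P) (σ := List P × List P) Z.CC Z.s 0 M
    Z.sys.hC hM μ ((1 + θ) / 2) ((3 + θ) / 4) (C' * B) κ hμ0 (by linarith) (by linarith) hκ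
  obtain ⟨N, hN⟩ := eventually_atTop.1 hconv
  refine ⟨D, (3 + θ) / 4, N, hD, by linarith, by linarith, fun R f hf => ⟨fun n => ?_,
    fun n hn hbig => ?_⟩⟩
  · exact sum_nonneg fun w hw => hf.aw.1 n w hw
  · have hb := hbad (inn Z R).sys rfl rfl rfl (card_KR R) (hP R)
    have h1 := hN n hn (inn Z R).sys rfl rfl rfl (BR_le Z R) f hf.aw (fun n => by
      refine (badR R hf M n).trans ?_
      have h2 : (2 * (n : ℝ) + 2) ^ m * ((inn Z R).sys.bad M n).card ≤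
          (2 * (n : ℝ) + 2) ^ m * (C' * (θ * μ) ^ n) :=
        mul_le_mul_of_nonneg_left (hb n) (by positivity)
      refine h2.trans ?_
      have h3 := mul_le_mul_of_nonneg_right (hB n) (show 0 ≤ C' * μ ^ n by positivity)
      rw [mul_pow, mul_pow]
      calc (2 * (n : ℝ) + 2) ^ m * (C' * (θ ^ n * μ ^ n)) =
            (2 * (n : ℝ) + 2) ^ m * θ ^ n * (C' * μ ^ n) := by ring
        _ ≤ _ := h3
        _ = _ := by ring)
    rw [afR_eq, afR_eq, afR_eq] at h1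
    rw [show n + 2 * Z.s = n + Z.s + Z.s by ring]
    exact h1 hbig

/-- the mean weighted number of walks in a random domain -/
def XX {Ω : Type} [MeasurableSpace Ω] (A : P → P → Prop) (ν : Measure Ω) (R : Ω → P → P → Prop)
    (f : Ω → List P → ℝ) (n : ℕ) : ℝ := ∫ ω, WR A (R ω) (f ω) n ∂ν

theorem WR_sum {Ω : Type} (R : Ω → P → P → Prop) (f : Ω → List P → ℝ) (n : ℕ) (ω : Ω) :
    WR A (R ω) (f ω) n = ∑ w ∈ Kw A n,
      Set.indicator {ω | ∀ x ∈ w, R ω (lst w) x} (fun ω => f ω w) ω := by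
  unfold WR KR
  rw [Finset.sum_filter]
  refine Finset.sum_congr rfl fun w _ => ?_
  rw [Set.indicator_apply]
  rfl

theorem integrable_WR {Ω : Type} [MeasurableSpace Ω] (ν : Measure Ω) [IsProbabilityMeasure ν]
    {R : Ω → P → P → Prop} (hR : ∀ e x, MeasurableSet {ω | R ω e x}) {f : Ω → List P → ℝ} {κ : ℝ}
    {m : ℕ} (hf : ∀ ω, Fr Z (R ω) κ m (f ω)) (hm : ∀ w, Measurable fun ω => f ω w) (n : ℕ) :
    Integrable (fun ω => WR A (R ω) (f ω) n) ν := by
  simp only [WR_sum]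
  refine integrable_finsetSum _ fun w hw => ?_
  refine Integrable.of_bound (C := (2 * (n : ℝ) + 2) ^ m)
    ((hm w).indicator (Q78.UR.meas_set hR w)).aestronglyMeasurable (Eventually.of_forall fun ω => ?_)
  rw [Set.indicator_apply, Real.norm_eq_abs]
  split_ifs with h
  · have h1 : w ∈ KR A (R ω) n := mem_KR.2 ⟨hw, h⟩
    rw [abs_of_nonneg ((hf ω).aw.1 n w h1)]
    exact (hf ω).le n w h1
  · rw [abs_zero]
    positivity

/-- **Kesten's inequality in a random domain, with weights** -/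
theorem mixtureW (G : Loc Z μ) (m : ℕ) (κ : ℝ) (hκ : 0 ≤ κ) : ∃ (D θ : ℝ) (N : ℕ), 0 ≤ D ∧
    0 < θ ∧ θ < 1 ∧ ∀ (Ω : Type) [MeasurableSpace Ω] (ν : Measure Ω) [IsProbabilityMeasure ν]
      (R : Ω → P → P → Prop), (∀ e x, MeasurableSet {ω | R ω e x}) → ∀ f : Ω → List P → ℝ,
      (∀ ω, Fr Z (R ω) κ m (f ω)) → (∀ w, Measurable fun ω => f ω w) →
      Q78.UG.Kz Z.s N D θ μ (XX A ν R f) := by
  obtain ⟨D, θ, N, hD, hθ0, hθ1, h⟩ := kesRW G m κ hκ
  obtain ⟨N', -, h'⟩ := Q78.UG.mean (s := Z.s) (N := N) hD hθ0 hθ1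
  refine ⟨D + 1, (1 + θ) / 2, N', by linarith, by linarith, by linarith, ?_⟩
  intro Ω _ ν _ R hR f hf hm
  exact h' μ (by linarith [G.hμ]) Ω ν (fun ω n => WR A (R ω) (f ω) n)
    (fun n => integrable_WR ν hR hf hm n) (fun ω => h (R ω) (f ω) (hf ω))

theorem fr_one (Z : Rule A) (R : P → P → Prop) (m : ℕ) (κ : ℝ) (hκ : 0 ≤ κ) :
    Fr Z R κ m (fun _ => 1) := fr_of_fw (fw_one m κ hκ) R

theorem XX_one {Ω : Type} [MeasurableSpace Ω] (ν : Measure Ω) (R : Ω → P → P → Prop) (n : ℕ) :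
    XX A ν R (fun _ _ => 1) n = Q78.UR.FF A ν R n := by
  unfold XX Q78.UR.FF WR
  simp only [Finset.sum_const, nsmul_eq_mul, mul_one]

theorem XX_ge {Ω : Type} [MeasurableSpace Ω] (ν : Measure Ω) [IsProbabilityMeasure ν]
    {R : Ω → P → P → Prop} (hR : ∀ e x, MeasurableSet {ω | R ω e x}) {f : Ω → List P → ℝ} {κ : ℝ}
    {m : ℕ} (hf : ∀ ω, Fr Z (R ω) κ m (f ω)) (hm : ∀ w, Measurable fun ω => f ω w) (n : ℕ)
    (hn : 1 ≤ n) : Q78.UR.FF A ν R n ≤ XX A ν R f n := by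
  unfold Q78.UR.FF XX
  refine integral_mono (Q78.UR.integrable_card ν hR n) (integrable_WR ν hR hf hm n) fun ω => ?_
  show ((KR A (R ω) n).card : ℝ) ≤ WR A (R ω) (f ω) n
  unfold WR
  rw [← nsmul_one, ← sum_const]
  exact sum_le_sum fun w hw => (hf ω).ge n hn w hw

theorem XX_le {Ω : Type} [MeasurableSpace Ω] (ν : Measure Ω) [IsProbabilityMeasure ν]
    {R : Ω → P → P → Prop} (hR : ∀ e x, MeasurableSet {ω | R ω e x}) {f : Ω → List P → ℝ} {κ : ℝ}
    {m : ℕ} (hf : ∀ ω, Fr Z (R ω) κ m (f ω)) (hm : ∀ w, Measurable fun ω => f ω w) (n : ℕ) :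
    XX A ν R f n ≤ (2 * (n : ℝ) + 2) ^ m * (Kw A n).card := by
  have h1 : XX A ν R f n ≤ ∫ _ : Ω, (2 * (n : ℝ) + 2) ^ m * ((Kw A n).card : ℝ) ∂ν := by
    refine integral_mono (integrable_WR ν hR hf hm n) (integrable_const _) fun ω => ?_
    show WR A (R ω) (f ω) n ≤ _
    unfold WR
    have h2 : ∑ w ∈ KR A (R ω) n, f ω w ≤ ∑ _w ∈ KR A (R ω) n, (2 * (n : ℝ) + 2) ^ m :=
      sum_le_sum fun w hw => (hf ω).le n w hw
    rw [sum_const, nsmul_eq_mul] at h2
    refine h2.trans ?_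
    rw [mul_comm]
    exact mul_le_mul_of_nonneg_left (card_KR (R ω) n) (by positivity)
  rwa [integral_const, probReal_univ, one_smul] at h1

theorem log_bounds {n : ℕ} (hn : 3 ≤ n) : 1 ≤ Real.log (n : ℝ) := by
  have hnR : (3 : ℝ) ≤ n := by exact_mod_cast hn
  have h1 : Real.exp 1 ≤ n := by
    have := Real.exp_one_lt_d9
    linarith
  rw [← Real.log_exp 1]
  exact Real.log_le_log (Real.exp_pos _) h1

/-- the growth near a place, with a polynomial weight -/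
theorem grow_near (G : Growth Z μ K) (mm n m : ℕ) (hn : 3 ≤ n) (hm2 : 2 ≤ m) (hm : m ≤ 2 * n) :
    (2 * (m : ℝ) + 2) ^ mm * (Kw A m).card / μ ^ m ≤
      Real.exp ((3 * mm + 4 * K) * Real.log n ^ 2) := by
  have hμ : 0 < μ := by linarith [G.hμ]
  have hnR : (3 : ℝ) ≤ n := by exact_mod_cast hn
  have hmR : (m : ℝ) ≤ 2 * n := by exact_mod_cast hm
  have hm0 : (2 : ℝ) ≤ m := by exact_mod_cast hm2
  have hl := log_bounds hn
  have hl2 : Real.log n ≤ Real.log n ^ 2 := by nlinarith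
  have hlm0 : 0 ≤ Real.log (m : ℝ) := Real.log_natCast_nonneg m
  have h1 : Real.log (m : ℝ) ≤ 2 * Real.log n := by
    rw [show 2 * Real.log (n : ℝ) = Real.log ((n : ℝ) ^ 2) by rw [Real.log_pow]; norm_num]
    refine Real.log_le_log (by linarith) ?_
    nlinarith
  have h2 : (2 * (m : ℝ) + 2) ≤ Real.exp (3 * Real.log n) := by
    have e : Real.exp (3 * Real.log n) = (n : ℝ) ^ 3 := by
      rw [mul_comm, Real.exp_mul, Real.exp_log (by linarith)]
      norm_cast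
    rw [e]
    nlinarith [mul_pos (show (0 : ℝ) < n by linarith) (show (0 : ℝ) < n by linarith)]
  have h3 : (2 * (m : ℝ) + 2) ^ mm ≤ Real.exp (3 * mm * Real.log n ^ 2) := by
    refine (pow_le_pow_left₀ (by positivity) h2 mm).trans ?_
    rw [← Real.exp_nat_mul]
    refine Real.exp_le_exp.2 ?_
    have : (0 : ℝ) ≤ mm := Nat.cast_nonneg _
    nlinarith
  have h4 := G.up m hm2
  have h5 : Real.exp (K * Real.log m ^ 2) ≤ Real.exp (4 * K * Real.log n ^ 2) := by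
    refine Real.exp_le_exp.2 ?_
    have h6 : Real.log (m : ℝ) ^ 2 ≤ (2 * Real.log n) ^ 2 := pow_le_pow_left₀ hlm0 h1 2
    have := mul_le_mul_of_nonneg_left h6 G.hK
    linarith
  rw [div_le_iff₀ (by positivity)]
  calc (2 * (m : ℝ) + 2) ^ mm * (Kw A m).card
      ≤ Real.exp (3 * mm * Real.log n ^ 2) * (μ ^ m * Real.exp (4 * K * Real.log n ^ 2)) :=
        mul_le_mul h3 (h4.trans (mul_le_mul_of_nonneg_left h5 (by positivity)))
          (Nat.cast_nonneg _) (Real.exp_pos _).le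
    _ = Real.exp ((3 * mm + 4 * K) * Real.log n ^ 2) * μ ^ m := by
        rw [add_mul, Real.exp_add]
        ring

/-- from `Kz` to normalised sequences -/
theorem Kz.cl {s N : ℕ} {D θ m : ℝ} {X : ℕ → ℝ} (h : Q78.UG.Kz s N D θ m X) (hm : 0 < m) :
    Q78.Z3.Cl s N D θ (fun n => X n / m ^ n) := Q78.Z3.Kz.cl h hm

/-- **weighted ratios in a random domain**; the bound `b` may be enlarged -/
theorem ratiosW (G : Growth Z μ K) (mm : ℕ) (κ : ℝ) (hκ : 0 ≤ κ) :
    ∃ (C δ : ℝ) (N : ℕ), 0 < C ∧ 0 < δ ∧ 3 ≤ N ∧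
    ∀ (Ω : Type) [MeasurableSpace Ω] (ν : Measure Ω) [IsProbabilityMeasure ν]
      (R : Ω → P → P → Prop), (∀ e x, MeasurableSet {ω | R ω e x}) → ∀ f : Ω → List P → ℝ,
      (∀ ω, Fr Z (R ω) κ mm (f ω)) → (∀ w, Measurable fun ω => f ω w) →
      ∀ n, N ≤ n → ∀ b : ℝ, Real.log n ^ 2 ≤ b → b ≤ δ * n →
        Real.exp (-b) ≤ Q78.UR.FF A ν R n / μ ^ n →
        0 < XX A ν R f n ∧
        |XX A ν R f (n + Z.s) / (μ ^ Z.s * XX A ν R f n) - 1| ≤ C * √(b / n) ∧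
        ∀ R' : Ω → P → P → Prop, (∀ e x, MeasurableSet {ω | R' ω e x}) → ∀ f' : Ω → List P → ℝ,
          (∀ ω, Fr Z (R' ω) κ mm (f' ω)) → (∀ w, Measurable fun ω => f' ω w) →
          (∀ n, XX A ν R' f' n ≤ XX A ν R f n) →
          |XX A ν R' f' (n + Z.s) / XX A ν R f (n + Z.s) - XX A ν R' f' n / XX A ν R f n| ≤
            C * √(b / n) := by
  obtain ⟨D, θ, N, hD, hθ0, hθ1, hcx⟩ := mixtureW (loc_of G) mm κ hκ
  have hK := G.hK
  obtain ⟨C, δ, N0, hC, hδ, hN0, hnest⟩ := Q78.Z3.nested Z.s G.hs N D θ (3 * mm + 4 * K) hD hθ0 hθ1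
    (by positivity)
  have hμ : 0 < μ := by linarith [G.hμ]
  refine ⟨C, δ, max N N0, hC, hδ, hN0.trans (le_max_right _ _), ?_⟩
  intro Ω _ ν _ R hR f hf hm n hn b hb hbδ hlow
  have hn3 : 3 ≤ n := hN0.trans ((le_max_right _ _).trans hn)
  have hl := log_bounds hn3
  have hb1 : 1 ≤ b := by nlinarith
  have hXlow : Real.exp (-b) ≤ XX A ν R f n / μ ^ n :=
    hlow.trans (div_le_div_of_nonneg_right (XX_ge ν hR hf hm n (by omega)) (by positivity))
  have hup : ∀ m, 2 ≤ m → m ≤ 2 * n → XX A ν R f m / μ ^ m ≤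
      Real.exp ((3 * mm + 4 * K) * b) := by
    intro m h2 h3
    refine (div_le_div_of_nonneg_right (XX_le ν hR hf hm m) (by positivity)).trans ?_
    refine (grow_near G mm n m hn3 h2 h3).trans (Real.exp_le_exp.2 ?_)
    exact mul_le_mul_of_nonneg_left hb (by positivity)
  have hXpos : 0 < XX A ν R f n := by
    have h1 : 0 < XX A ν R f n / μ ^ n := lt_of_lt_of_le (Real.exp_pos _) hXlow
    exact (div_pos_iff_of_pos_right (by positivity)).1 h1
  have hcl := Kz.cl (hcx Ω ν R hR f hf hm) hμ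
  refine ⟨hXpos, ?_, ?_⟩
  · have h := (hnest _ _ hcl hcl (fun _ => le_rfl) n ((le_max_right _ _).trans hn) b hb1 hbδ hup
      hXlow).1
    refine le_trans (le_of_eq ?_) h
    congr 2
    rw [pow_add]
    field_simp
  · intro R' hR' f' hf' hm' hle
    have hcl' := Kz.cl (hcx Ω ν R' hR' f' hf' hm') hμ
    have h := (hnest _ _ hcl hcl' (fun k => div_le_div_of_nonneg_right (hle k) (by positivity)) n
      ((le_max_right _ _).trans hn) b hb1 hbδ hup hXlow).2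
    rw [div_div_div_cancel_right₀ (by positivity), div_div_div_cancel_right₀ (by positivity)] at h
    exact h

end

end Q78.UW
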