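import Pool.Agent.Q78.UW.Mx

set_option autoImplicit false

/-! Walks in a random domain: laws of approximately invariant events, means of approximately
invariant functions. -/

namespace Q78.UW

open Finset Filter Topology MeasureTheory TH966.AK Q294.Av Q294.Rs
open scoped Classical

noncomputable section

variable {A : P → P → Prop} {Z : Rule A} {μ K : ℝ}

theorem fr_two (Z : Rule A) (R : P → P → Prop) (κ : ℝ) (hκ : 0 ≤ κ) (m : ℕ) (hm : 1 ≤ m) :
    Fr Z R κ m (fun _ => 2) := by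
  refine ⟨⟨fun _ _ _ => by norm_num, fun n w _ _ => ?_⟩, fun n _ w _ => by norm_num,
    fun n w _ => ?_⟩
  · simp only [sub_self, abs_zero, Finset.sum_const_zero]
    positivity
  · have h0 : (0 : ℝ) ≤ n := Nat.cast_nonneg n
    calc (2 : ℝ) ≤ (2 * (n : ℝ) + 2) ^ 1 := by linarith
      _ ≤ _ := pow_le_pow_right₀ (by linarith) hm

theorem XX_two {Ω : Type} [MeasurableSpace Ω] (ν : Measure Ω) (R : Ω → P → P → Prop) (n : ℕ) :
    XX A ν R (fun _ _ => 2) n = 2 * Q78.UR.FF A ν R n := by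
  unfold XX Q78.UR.FF WR
  simp only [Finset.sum_const, nsmul_eq_mul]
  rw [integral_mul_const, mul_comm]

/-- the weight of an event -/
def wE (E : List P → Prop) (w : List P) : ℝ := 1 + (if E w then 1 else 0)

theorem wE_mem (E : List P → Prop) (w : List P) : 1 ≤ wE E w ∧ wE E w ≤ 2 := by
  unfold wE
  split_ifs <;> norm_num

/-- events which are approximately invariant under the local moves -/
def Inv (Z : Rule A) (R : P → P → Prop) (κ : ℝ) (E : List P → Prop) : Prop :=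
  ∀ n w, w ∈ KR A R (n + Z.s) →
    (((inn Z R).sys.B w).filter (fun q => ¬ (E (Rule.rep w q.2 q.1) ↔ E w))).card ≤ κ

theorem fr_inv {R : P → P → Prop} {κ : ℝ} {E : List P → Prop} (h : Inv Z R κ E) (m : ℕ)
    (hm : 1 ≤ m) : Fr Z R κ m (wE E) := by
  refine ⟨⟨fun n w _ => by linarith [(wE_mem E w).1], fun n w _ hw => ?_⟩,
    fun n _ w _ => (wE_mem E w).1, fun n w _ => (wE_mem E w).2.trans ?_⟩
  · have h1 : ∀ q ∈ (inn Z R).sys.B w, |wE E ((inn Z R).sys.rem w q) - wE E w| ≤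
        (if ¬ (E (Rule.rep w q.2 q.1) ↔ E w) then 1 else 0) := by
      intro q _
      change |wE E (Rule.rep w q.2 q.1) - wE E w| ≤ _
      unfold wE
      by_cases h2 : E (Rule.rep w q.2 q.1) <;> by_cases h3 : E w <;> simp [h2, h3]
    refine (sum_le_sum h1).trans ?_
    rw [← Finset.sum_filter, Finset.sum_const, nsmul_eq_mul, mul_one]
    have h2 := h n w hw
    have h3 := (wE_mem E w).1
    have h4 : 0 ≤ κ := le_trans (Nat.cast_nonneg _) h2
    nlinarith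
  · have h0 : (0 : ℝ) ≤ n := Nat.cast_nonneg n
    calc (2 : ℝ) ≤ (2 * (n : ℝ) + 2) ^ 1 := by linarith
      _ ≤ _ := pow_le_pow_right₀ (by linarith) hm

/-- the mean number of the walks in the domain in the event -/
def EE {Ω : Type} [MeasurableSpace Ω] (A : P → P → Prop) (ν : Measure Ω) (R : Ω → P → P → Prop)
    (E : Ω → List P → Prop) (n : ℕ) : ℝ := ∫ ω, (((KR A (R ω) n).filter (E ω)).card : ℝ) ∂ν

theorem WR_wE (R : P → P → Prop) (E : List P → Prop) (n : ℕ) :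
    WR A R (wE E) n = (KR A R n).card + ((KR A R n).filter E).card := by
  unfold WR wE
  rw [Finset.sum_add_distrib, Finset.sum_const, nsmul_one, Finset.sum_boole]

theorem meas_wE {Ω : Type} [MeasurableSpace Ω] {E : Ω → List P → Prop}
    (hE : ∀ w, MeasurableSet {ω | E ω w}) (w : List P) : Measurable fun ω => wE (E ω) w := by
  unfold wE
  exact measurable_const.add (Measurable.ite (hE w) measurable_const measurable_const)

theorem XX_wE {Ω : Type} [MeasurableSpace Ω] (ν : Measure Ω) [IsProbabilityMeasure ν]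
    {R : Ω → P → P → Prop} (hR : ∀ e x, MeasurableSet {ω | R ω e x}) {E : Ω → List P → Prop}
    (hE : ∀ w, MeasurableSet {ω | E ω w}) (n : ℕ) :
    XX A ν R (fun ω => wE (E ω)) n = Q78.UR.FF A ν R n + EE A ν R E n := by
  unfold XX Q78.UR.FF EE
  simp only [WR_wE]
  refine integral_add (Q78.UR.integrable_card ν hR n) ?_
  have e : ∀ ω, (((KR A (R ω) n).filter (E ω)).card : ℝ) =
      ∑ w ∈ Kw A n, Set.indicator ({ω | ∀ x ∈ w, R ω (lst w) x} ∩ {ω | E ω w})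
        (fun _ => (1 : ℝ)) ω := by
    intro ω
    unfold KR
    rw [Finset.filter_filter, Finset.card_filter]
    push_cast
    refine Finset.sum_congr rfl fun w _ => ?_
    rw [Set.indicator_apply]
    rfl
  simp only [e]
  refine integrable_finsetSum _ fun w _ => ?_
  exact (integrable_const (1 : ℝ)).indicator ((Q78.UR.meas_set hR w).inter (hE w))

theorem XX_wE_le {Ω : Type} [MeasurableSpace Ω] (ν : Measure Ω) [IsProbabilityMeasure ν]
    {R R' : Ω → P → P → Prop} (hR : ∀ e x, MeasurableSet {ω | R ω e x})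
    (hR' : ∀ e x, MeasurableSet {ω | R' ω e x}) (hsub : ∀ ω e x, R' ω e x → R ω e x)
    {E : Ω → List P → Prop} (hE : ∀ w, MeasurableSet {ω | E ω w}) {κ : ℝ}
    (hI : ∀ ω, Inv Z (R' ω) κ (E ω)) (hκ : 0 ≤ κ) (n : ℕ) :
    XX A ν R' (fun ω => wE (E ω)) n ≤ XX A ν R (fun _ _ => 2) n := by
  unfold XX
  refine integral_mono (integrable_WR (Z := Z) (m := 1) ν hR' (fun ω => fr_inv (hI ω) 1 le_rfl)
    (meas_wE hE) n) (integrable_WR (Z := Z) (κ := κ) (m := 1) ν hR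
      (fun ω => fr_two Z (R ω) κ hκ 1 le_rfl) (fun _ => measurable_const) n) fun ω => ?_
  show WR A (R' ω) (wE (E ω)) n ≤ WR A (R ω) (fun _ => 2) n
  unfold WR
  have h1 : KR A (R' ω) n ⊆ KR A (R ω) n := by
    intro w hw
    rw [mem_KR] at hw ⊢
    exact ⟨hw.1, fun x hx => hsub _ _ _ (hw.2 x hx)⟩
  calc ∑ w ∈ KR A (R' ω) n, wE (E ω) w ≤ ∑ _w ∈ KR A (R' ω) n, (2 : ℝ) :=
        sum_le_sum fun w _ => (wE_mem _ w).2
    _ ≤ ∑ _w ∈ KR A (R ω) n, (2 : ℝ) := sum_le_sum_of_subset_of_nonneg h1 fun _ _ _ => by norm_num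

/-- **laws in a random domain** -/
theorem lawW (G : Growth Z μ K) (κ : ℝ) (hκ : 0 ≤ κ) :
    ∃ (C δ : ℝ) (N : ℕ), 0 < C ∧ 0 < δ ∧ 3 ≤ N ∧
    ∀ (Ω : Type) [MeasurableSpace Ω] (ν : Measure Ω) [IsProbabilityMeasure ν]
      (R : Ω → P → P → Prop), (∀ e x, MeasurableSet {ω | R ω e x}) →
      ∀ n, N ≤ n → ∀ b : ℝ, Real.log n ^ 2 ≤ b → b ≤ δ * n →
        Real.exp (-b) ≤ Q78.UR.FF A ν R n / μ ^ n →
        ∀ R' : Ω → P → P → Prop, (∀ e x, MeasurableSet {ω | R' ω e x}) →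
          (∀ ω e x, R' ω e x → R ω e x) →
          ∀ E : Ω → List P → Prop, (∀ w, MeasurableSet {ω | E ω w}) →
          (∀ ω, Inv Z (R' ω) κ (E ω)) →
          |EE A ν R' E (n + Z.s) / Q78.UR.FF A ν R (n + Z.s) -
            EE A ν R' E n / Q78.UR.FF A ν R n| ≤ C * √(b / n) := by
  obtain ⟨C, δ, N, hC, hδ, hN, h⟩ := ratiosW G 1 κ hκ
  refine ⟨4 * C, δ, N, by positivity, hδ, hN, ?_⟩
  intro Ω _ ν _ R hR n hn b hb hbδ hlow R' hR' hsub E hE hI
  obtain ⟨-, -, h3⟩ := h Ω ν R hR (fun _ _ => 2) (fun ω => fr_two Z (R ω) κ hκ 1 le_rfl)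
    (fun _ => measurable_const) n hn b hb hbδ hlow
  have hfalse : ∀ ω, Inv Z (R' ω) κ (fun _ : List P => False) := by
    intro ω n w _
    simp only [not_true_eq_false, Finset.filter_false, Finset.card_empty, Nat.cast_zero]
    exact hκ
  have g1 := h3 R' hR' (fun ω => wE (E ω)) (fun ω => fr_inv (hI ω) 1 le_rfl) (meas_wE hE)
    (fun n => XX_wE_le ν hR hR' hsub hE hI hκ n)
  have g2 := h3 R' hR' (fun _ => wE (fun _ => False)) (fun ω => fr_inv (hfalse ω) 1 le_rfl)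
    (fun _ => measurable_const)
    (fun n => XX_wE_le (E := fun _ _ => False) ν hR hR' hsub (fun _ => MeasurableSet.const _)
      hfalse hκ n)
  rw [XX_wE ν hR' hE, XX_wE ν hR' hE, XX_two, XX_two] at g1
  rw [XX_wE (E := fun _ _ => False) ν hR' (fun _ => MeasurableSet.const _),
    XX_wE (E := fun _ _ => False) ν hR' (fun _ => MeasurableSet.const _), XX_two, XX_two] at g2
  have hE0 : ∀ k, EE A ν R' (fun _ _ => False) k = 0 := by
    intro k
    unfold EE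
    simp
  rw [hE0, hE0, add_zero, add_zero] at g2
  have e : ∀ k, (Q78.UR.FF A ν R' k + EE A ν R' E k) / (2 * Q78.UR.FF A ν R k) -
      Q78.UR.FF A ν R' k / (2 * Q78.UR.FF A ν R k) =
      (EE A ν R' E k / Q78.UR.FF A ν R k) / 2 := by
    intro k
    rw [add_div, add_sub_cancel_left, mul_comm 2, ← div_div]
  have e1 := e (n + Z.s)
  have e2 := e n
  have g3 := abs_sub_abs_le_abs_sub (0 : ℝ) 0
  have g4 : |(EE A ν R' E (n + Z.s) / Q78.UR.FF A ν R (n + Z.s)) / 2 -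
      (EE A ν R' E n / Q78.UR.FF A ν R n) / 2| ≤ C * √(b / n) + C * √(b / n) := by
    rw [← e1, ← e2]
    refine le_trans (le_of_eq ?_) ((abs_sub _ _).trans (add_le_add g1 g2))
    congr 1
    ring
  rw [← sub_div, abs_div, abs_of_pos (show (0 : ℝ) < 2 by norm_num), div_le_iff₀ (by norm_num)] at g4
  linarith

/-- **means in a random domain** -/
theorem meansW (G : Growth Z μ K) (mm : ℕ) (κ : ℝ) (hκ : 0 ≤ κ) :
    ∃ (C δ : ℝ) (N : ℕ), 0 < C ∧ 0 < δ ∧ 3 ≤ N ∧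
    ∀ (Ω : Type) [MeasurableSpace Ω] (ν : Measure Ω) [IsProbabilityMeasure ν]
      (R : Ω → P → P → Prop), (∀ e x, MeasurableSet {ω | R ω e x}) → ∀ f : Ω → List P → ℝ,
      (∀ ω, Fr Z (R ω) κ mm (f ω)) → (∀ w, Measurable fun ω => f ω w) →
      ∀ n, N ≤ n → ∀ b : ℝ, Real.log n ^ 2 ≤ b → b ≤ δ * n →
        Real.exp (-b) ≤ Q78.UR.FF A ν R n / μ ^ n →
        0 < Q78.UR.FF A ν R n ∧ 0 < XX A ν R f n ∧
        |(XX A ν R f (n + Z.s) / Q78.UR.FF A ν R (n + Z.s)) /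
          (XX A ν R f n / Q78.UR.FF A ν R n) - 1| ≤ C * √(b / n) := by
  obtain ⟨C, δ, N, hC, hδ, hN, h⟩ := ratiosW G mm κ hκ
  have hμ : 0 < μ := by linarith [G.hμ]
  obtain ⟨δ', hδ'⟩ : ∃ δ', δ' = min δ (1 / (4 * C ^ 2)) := ⟨_, rfl⟩
  have hδ'0 : 0 < δ' := by rw [hδ']; exact lt_min hδ (by positivity)
  have hδ1 : δ' ≤ δ := by rw [hδ']; exact min_le_left _ _
  have hδ2 : C * √δ' ≤ 1 / 2 := by
    have h1 : √δ' ≤ √(1 / (4 * C ^ 2)) := Real.sqrt_le_sqrt (by rw [hδ']; exact min_le_right _ _)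
    have h2 : √(1 / (4 * C ^ 2)) = 1 / (2 * C) := by
      rw [show 1 / (4 * C ^ 2) = (1 / (2 * C)) ^ 2 by rw [div_pow, mul_pow]; norm_num,
        Real.sqrt_sq (by positivity)]
    rw [h2] at h1
    calc C * √δ' ≤ C * (1 / (2 * C)) := mul_le_mul_of_nonneg_left h1 hC.le
      _ = 1 / 2 := by field_simp
  refine ⟨4 * C, δ', N, by positivity, hδ'0, hN, ?_⟩
  intro Ω _ ν _ R hR f hf hm n hn b hb hbδ hlow
  have hn0 : (0 : ℝ) < n := by exact_mod_cast (show 0 < n by omega)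
  have hbδ1 : b ≤ δ * n := hbδ.trans (mul_le_mul_of_nonneg_right hδ1 hn0.le)
  obtain ⟨p1, r1, -⟩ := h Ω ν R hR f hf hm n hn b hb hbδ1 hlow
  obtain ⟨p2, r2, -⟩ := h Ω ν R hR (fun _ _ => 1) (fun ω => fr_one Z (R ω) mm κ hκ)
    (fun _ => measurable_const) n hn b hb hbδ1 hlow
  rw [XX_one, XX_one] at r2
  rw [XX_one] at p2
  have he : C * √(b / n) ≤ 1 / 2 := by
    refine (mul_le_mul_of_nonneg_left (Real.sqrt_le_sqrt ?_) hC.le).trans hδ2
    rw [div_le_iff₀ hn0]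
    exact hbδ
  have hq := Q78.Z3.quot_two he r1 r2
  refine ⟨p2, p1, ?_⟩
  have e : XX A ν R f (n + Z.s) / Q78.UR.FF A ν R (n + Z.s) / (XX A ν R f n / Q78.UR.FF A ν R n) =
      XX A ν R f (n + Z.s) / (μ ^ Z.s * XX A ν R f n) /
        (Q78.UR.FF A ν R (n + Z.s) / (μ ^ Z.s * Q78.UR.FF A ν R n)) := by
    have hμs : (0 : ℝ) < μ ^ Z.s := by positivity
    field_simp
  rw [e]
  linarith

end

end Q78.UW
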