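import Pool.Agent.Q78.UW.Dia
import Pool.Agent.Q78.UR.Disc
import Pool.Agent.TH508.LT.Fin2
import Pool.Agent.H739K.CONV
import Pool.Agent.H924P.Mean

set_option autoImplicit false

/-! Self-avoiding polygons on the square lattice in random domains. -/

namespace Q78.UW.Po

open Finset Filter Topology MeasureTheory TH966.AK Q294.Av Q294.Rs
open Pool.Agent.H924P (IsLoop)
open scoped Classical

noncomputable section

/-- restriction: the walk closes up and stays in the domain -/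
def RD (D : P → Prop) (e x : P) : Prop := Q78.UR.Sq.A 0 e ∧ D x

theorem loop_iff (k : ℕ) (D : P → Prop) (f : Fin (k + 1) → ℤ × ℤ) :
    (IsLoop (k + 1) f ∧ ∀ i, D (f i)) ↔
      (f 0 = 0 ∧ Function.Injective f ∧ ∀ i : Fin k, Q78.UR.Sq.A (f i.castSucc) (f i.succ)) ∧
        ∀ i, RD D (f (Fin.last k)) (f i) := by
  rw [Pool.Agent.H739K.CONV.isLoop_iff]
  unfold Pool.Agent.H976R2.IsSAW RD
  simp only [Q78.UR.Sq.A_abs, Prod.fst_zero, Prod.snd_zero, sub_zero]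
  constructor
  · rintro ⟨⟨⟨h1, h2, h3⟩, h4⟩, h5⟩
    exact ⟨⟨h1, h3, h2⟩, fun i => ⟨h4, h5 i⟩⟩
  · rintro ⟨⟨h1, h2, h3⟩, h4⟩
    exact ⟨⟨⟨h1, h3, h2⟩, (h4 0).1⟩, fun i => (h4 i).2⟩

theorem loop_card (k : ℕ) (D : P → Prop) (E : (Fin (k + 1) → ℤ × ℤ) → Prop) (E' : List P → Prop)
    (hE : ∀ g, E g ↔ E' (List.ofFn g)) :
    Nat.card {f : ZMod (k + 1) → ℤ × ℤ // (IsLoop (k + 1) f ∧ ∀ i, D (f i)) ∧ E f} =
      ((KR Q78.UR.Sq.A (RD D) k).filter E').card := by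
  rw [← card_fun Q78.UR.Sq.rule (RD D) k E E' hE]
  exact Nat.card_congr (Equiv.subtypeEquivRight fun f => and_congr (loop_iff k D f) Iff.rfl)

theorem loop_card' (k : ℕ) (D : P → Prop) :
    Nat.card {f : ZMod (k + 1) → ℤ × ℤ // IsLoop (k + 1) f ∧ ∀ i, D (f i)} =
      (KR Q78.UR.Sq.A (RD D) k).card := by
  have h := loop_card k D (fun _ => True) (fun _ => True) (fun _ => Iff.rfl)
  rw [Finset.filter_true] at h
  rw [← h]
  exact Nat.card_congr (Equiv.subtypeEquivRight fun f => by simp)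

theorem loop_sum (k : ℕ) (D : P → Prop) (f : (Fin (k + 1) → ℤ × ℤ) → ℝ) (F : List P → ℝ)
    (hf : ∀ g, f g = F (List.ofFn g)) :
    ∑ᶠ g : {g : ZMod (k + 1) → ℤ × ℤ // IsLoop (k + 1) g ∧ ∀ i, D (g i)}, f g.1 =
      WR Q78.UR.Sq.A (RD D) F k := by
  rw [← sum_fun Q78.UR.Sq.rule (RD D) k f F hf]
  exact finsum_eq_of_bijective
    (Equiv.subtypeEquivRight (p := fun g : Fin (k + 1) → ℤ × ℤ => IsLoop (k + 1) g ∧ ∀ i, D (g i))
      fun g => loop_iff k D g)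
    (Equiv.bijective _) fun g => rfl

/-- loops anywhere -/
def Poly (m : ℕ) (f : ZMod m → ℤ × ℤ) : Prop :=
  Function.Injective f ∧ ∀ i : ZMod m, |(f (i + 1)).1 - (f i).1| + |(f (i + 1)).2 - (f i).2| = 1

theorem fin_loops (m : ℕ) [NeZero m] (Q : (ZMod m → P) → Prop) (hQ : ∀ g, Q g → IsLoop m g) :
    Finite {g : ZMod m → P // Q g} :=
  (Set.Finite.subset (Pool.Agent.H924P.finite_loops m) (show {g | Q g} ⊆ _ from hQ)).to_subtype

/-- polygons in a finite region and their rooted translates -/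
def unr (m : ℕ) (Λ : Finset P) (E : (ZMod m → P) → Prop) :
    {f : ZMod m → P // (Poly m f ∧ ∀ i, f i ∈ Λ) ∧ E f} ≃
      (Σ x : Λ, {g : ZMod m → P // (IsLoop m g ∧ ∀ i, (x : P) + g i ∈ Λ) ∧
        E (fun i => x + g i)}) where
  toFun f := ⟨⟨f.1 0, f.2.1.2 0⟩, ⟨fun i => f.1 i - f.1 0, by
    obtain ⟨f, ⟨⟨h1, h2⟩, h3⟩, h4⟩ := f
    refine ⟨⟨⟨sub_self _, fun i j h => h1 (sub_left_injective h), fun i => ?_⟩, fun i => ?_⟩, ?_⟩
    · have := h2 i
      simp only [Prod.fst_sub, Prod.snd_sub] at this ⊢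
      rw [show (f (i + 1)).1 - (f 0).1 - ((f i).1 - (f 0).1) = (f (i + 1)).1 - (f i).1 by ring,
        show (f (i + 1)).2 - (f 0).2 - ((f i).2 - (f 0).2) = (f (i + 1)).2 - (f i).2 by ring]
      exact this
    · have := h3 i
      simpa using this
    · simpa using h4⟩⟩
  invFun p := ⟨fun i => p.1.1 + p.2.1 i, by
    obtain ⟨x, g, ⟨⟨h0, h1, h2⟩, h3⟩, h4⟩ := p
    refine ⟨⟨⟨fun i j h => h1 (add_right_injective _ h), fun i => ?_⟩, fun i => h3 i⟩, h4⟩
    have := h2 i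
    simp only [Prod.fst_add, Prod.snd_add, add_sub_add_left_eq_sub] at this ⊢
    exact this⟩
  left_inv f := by
    apply Subtype.ext
    funext i
    simp
  right_inv p := by
    obtain ⟨⟨x, hx⟩, g, ⟨⟨h0, h1, h2⟩, h3⟩, h4⟩ := p
    have e : x + g 0 = x := by rw [h0, add_zero]
    refine Sigma.ext (Subtype.ext e) ?_
    refine (Subtype.heq_iff_coe_eq ?_).2 ?_
    · intro g'
      change ((IsLoop m g' ∧ ∀ i, (x + g 0) + g' i ∈ Λ) ∧ E (fun i => (x + g 0) + g' i)) ↔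
        ((IsLoop m g' ∧ ∀ i, x + g' i ∈ Λ) ∧ E (fun i => x + g' i))
      rw [e]
    · change (fun i => x + g i - (x + g 0)) = g
      funext i
      rw [e, add_sub_cancel_left]

theorem unroot_card (m : ℕ) [NeZero m] (Λ : Finset P) (E : (ZMod m → P) → Prop) :
    Nat.card {f : ZMod m → P // (Poly m f ∧ ∀ i, f i ∈ Λ) ∧ E f} =
      ∑ x ∈ Λ, Nat.card {g : ZMod m → P // (IsLoop m g ∧ ∀ i, x + g i ∈ Λ) ∧
        E (fun i => x + g i)} := by
  rw [Nat.card_congr (unr m Λ E)]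
  have hfin : ∀ x : Λ, Finite {g : ZMod m → P // (IsLoop m g ∧ ∀ i, (x : P) + g i ∈ Λ) ∧
      E (fun i => x + g i)} := fun x => fin_loops m _ fun g h => h.1.1
  rw [Nat.card_sigma, ← Finset.sum_coe_sort Λ]

theorem unroot_sum (m : ℕ) [NeZero m] (Λ : Finset P) (F : (ZMod m → P) → ℝ) :
    ∑ᶠ f : {f : ZMod m → P // Poly m f ∧ ∀ i, f i ∈ Λ}, F f.1 =
      ∑ x ∈ Λ, ∑ᶠ g : {g : ZMod m → P // IsLoop m g ∧ ∀ i, x + g i ∈ Λ},
        F (fun i => x + g.1 i) := by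
  have hfin : ∀ x : P, Finite {g : ZMod m → P // IsLoop m g ∧ ∀ i, (x : P) + g i ∈ Λ} :=
    fun x => fin_loops m _ fun g h => h.1
  have hfin' : ∀ x : Λ, Finite {g : ZMod m → P // (IsLoop m g ∧ ∀ i, (x : P) + g i ∈ Λ) ∧
      True} := fun x => fin_loops m _ fun g h => h.1.1
  have := fun x : Λ => Fintype.ofFinite {g : ZMod m → P // (IsLoop m g ∧
      ∀ i, (x : P) + g i ∈ Λ) ∧ True}
  have : Finite {f : ZMod m → P // (Poly m f ∧ ∀ i, f i ∈ Λ) ∧ True} :=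
    Finite.of_equiv _ (unr m Λ fun _ => True).symm
  have := Fintype.ofFinite {f : ZMod m → P // (Poly m f ∧ ∀ i, f i ∈ Λ) ∧ True}
  have := fun x : P => Fintype.ofFinite {g : ZMod m → P // IsLoop m g ∧
      ∀ i, (x : P) + g i ∈ Λ}
  have e1 : ∑ᶠ f : {f : ZMod m → P // Poly m f ∧ ∀ i, f i ∈ Λ}, F f.1 =
      ∑ f : {f : ZMod m → P // (Poly m f ∧ ∀ i, f i ∈ Λ) ∧ True}, F f.1 := by
    rw [← finsum_eq_sum_of_fintype]
    exact finsum_eq_of_bijective
      (Equiv.subtypeEquivRight (p := fun f : ZMod m → P => Poly m f ∧ ∀ i, f i ∈ Λ)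
        (q := fun f => (Poly m f ∧ ∀ i, f i ∈ Λ) ∧ True) fun f => by simp)
      (Equiv.bijective _) fun f => rfl
  have e2 : ∑ f : {f : ZMod m → P // (Poly m f ∧ ∀ i, f i ∈ Λ) ∧ True}, F f.1 =
      ∑ p : (Σ x : Λ, {g : ZMod m → P // (IsLoop m g ∧ ∀ i, (x : P) + g i ∈ Λ) ∧ True}),
        F (fun i => p.1.1 + p.2.1 i) := by
    refine Fintype.sum_equiv (unr m Λ fun _ => True) _ _ fun f => ?_
    congr 1
    funext i
    simp [unr]
  rw [e1, e2, Fintype.sum_sigma, ← Finset.sum_coe_sort Λ]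
  refine Finset.sum_congr rfl fun x _ => ?_
  rw [← finsum_eq_sum_of_fintype]
  exact (finsum_eq_of_bijective
    (Equiv.subtypeEquivRight (p := fun g : ZMod m → P => IsLoop m g ∧ ∀ i, (x : P) + g i ∈ Λ)
      (q := fun g => (IsLoop m g ∧ ∀ i, (x : P) + g i ∈ Λ) ∧ True) fun g => by simp)
    (Equiv.bijective _) fun g => rfl).symm

/-! ### probabilities relative to all polygons -/

/-- all rooted oriented polygons -/
theorem all_loops (n : ℕ) (hn : 1 ≤ n) :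
    ((KR Q78.UR.Sq.A (RD fun _ => True) (2 * n - 1)).card : ℝ) = 4 * n * H981.PP n := by
  obtain ⟨k, hk⟩ : ∃ k, 2 * n = k + 1 := ⟨2 * n - 1, by omega⟩
  have e : 2 * n - 1 = k := by omega
  rw [e, ← loop_card' k fun _ => True]
  unfold H981.PP
  have hn0 : (n : ℝ) ≠ 0 := by
    have : (0 : ℝ) < n := by exact_mod_cast hn
    exact this.ne'
  rw [mul_div_cancel₀ _ (by positivity)]
  congr 1
  rw [hk]
  exact Nat.card_congr (Equiv.subtypeEquivRight fun f => by simp; rfl)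

variable {Ω : Type} [MeasurableSpace Ω]

/-- the mean number of rooted polygons with `2 n` steps in the random domain -/
def Fp (ν : Measure Ω) (D : Ω → P → Prop) (n : ℕ) : ℝ :=
  Q78.UR.FF Q78.UR.Sq.A ν (fun ω => RD (D ω)) (2 * n - 1)

/-- the probability that the uniform polygon lies in the domain -/
def Pl (ν : Measure Ω) (D : Ω → P → Prop) (n : ℕ) : ℝ := Fp ν D n / (4 * n * H981.PP n)

theorem meas_RD {D : Ω → P → Prop} (hD : ∀ x, MeasurableSet {ω | D ω x}) (e x : P) :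
    MeasurableSet {ω | RD (D ω) e x} := by
  unfold RD
  by_cases h : Q78.UR.Sq.A 0 e
  · simp only [h, true_and]
    exact hD x
  · simp only [h, false_and, Set.ofPred_false]
    exact MeasurableSet.empty

theorem KR_mono {D D' : P → Prop} (h : ∀ x, D' x → D x) (k : ℕ) :
    KR Q78.UR.Sq.A (RD D') k ⊆ KR Q78.UR.Sq.A (RD D) k := by
  intro w hw
  rw [mem_KR] at hw ⊢
  exact ⟨hw.1, fun x hx => ⟨(hw.2 x hx).1, h x (hw.2 x hx).2⟩⟩

theorem PP_pos {n : ℕ} (hn : 2 ≤ n) : 0 < H981.PP n := by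
  obtain ⟨K, -, h⟩ := Pool.Agent.TH508.LT.sq_PP2
  have := H981.mu_pos
  exact lt_of_lt_of_le (by positivity) (h n hn).1

theorem Fp_nonneg (ν : Measure Ω) (D : Ω → P → Prop) (n : ℕ) : 0 ≤ Fp ν D n := by
  unfold Fp Q78.UR.FF
  exact integral_nonneg fun ω => Nat.cast_nonneg _

theorem Fp_le (ν : Measure Ω) [IsProbabilityMeasure ν] {D : Ω → P → Prop}
    (hD : ∀ x, MeasurableSet {ω | D ω x}) {n : ℕ} (hn : 1 ≤ n) :
    Fp ν D n ≤ 4 * n * H981.PP n := by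
  rw [← all_loops n hn]
  unfold Fp Q78.UR.FF
  have h1 : ∫ ω, ((KR Q78.UR.Sq.A (RD (D ω)) (2 * n - 1)).card : ℝ) ∂ν ≤
      ∫ _ω, ((KR Q78.UR.Sq.A (RD fun _ => True) (2 * n - 1)).card : ℝ) ∂ν :=
    integral_mono (Q78.UR.integrable_card ν (fun e x => meas_RD hD e x) _) (integrable_const _)
      fun ω => Nat.cast_le.2 (Finset.card_le_card (KR_mono (D := fun _ => True) (D' := D ω)
        (fun _ _ => trivial) _))
  simpa using h1

theorem Pl_le_one (ν : Measure Ω) [IsProbabilityMeasure ν] {D : Ω → P → Prop}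
    (hD : ∀ x, MeasurableSet {ω | D ω x}) {n : ℕ} (hn : 2 ≤ n) : Pl ν D n ≤ 1 := by
  unfold Pl
  have h1 := PP_pos hn
  have h2 : (0 : ℝ) < n := by exact_mod_cast (show 0 < n by omega)
  rw [div_le_one (by positivity)]
  exact Fp_le ν hD (by omega)

end

end Q78.UW.Po
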