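import Pool.Agent.Q78.UW.Poly

set_option autoImplicit false

/-! Self-avoiding polygons on the square lattice in random domains: the main theorems. -/

namespace Q78.UW.Po

open Finset Filter Topology MeasureTheory TH966.AK Q294.Av Q294.Rs
open Pool.Agent.H924P (IsLoop)
open scoped Classical

noncomputable section

theorem mu_one : (1 : ℝ) ≤ H981.mu := by
  have := Q78.UR.Sq.mu_ge
  linarith

theorem b_loop : ∃ K0 : ℝ, 1 ≤ K0 ∧ ∀ δ : ℝ, 0 < δ → ∃ (δ' : ℝ) (N : ℕ), 0 < δ' ∧ 2 ≤ N ∧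
    ∀ (Ω : Type) [MeasurableSpace Ω] (ν : Measure Ω) [IsProbabilityMeasure ν]
      (D : Ω → P → Prop), (∀ x, MeasurableSet {ω | D ω x}) →
      ∀ n, N ≤ n → Real.exp (-δ' * n) ≤ Pl ν D n →
        Real.log (2 * n - 1 : ℕ) ^ 2 ≤ Real.log (1 / Pl ν D n) + K0 * Real.log n ^ 2 ∧
        Real.log (1 / Pl ν D n) + K0 * Real.log n ^ 2 ≤ δ * (2 * n - 1 : ℕ) ∧
        Real.exp (-(Real.log (1 / Pl ν D n) + K0 * Real.log n ^ 2)) ≤
          Q78.UR.FF Q78.UR.Sq.A ν (fun ω => RD (D ω)) (2 * n - 1) / H981.mu ^ (2 * n - 1) ∧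
        √((Real.log (1 / Pl ν D n) + K0 * Real.log n ^ 2) / (2 * n - 1 : ℕ)) ≤
          K0 * √((Real.log (1 / Pl ν D n) + Real.log n ^ 2) / n) ∧
        0 < Fp ν D n := by
  obtain ⟨K, hK, hPP⟩ := Pool.Agent.TH508.LT.sq_PP2
  refine ⟨K + 4, by linarith, fun δ hδ => ?_⟩
  obtain ⟨N1, hN1⟩ := eventually_atTop.1
    (Q78.UR.log_sq_div.eventually_le_const (show (0 : ℝ) < δ / 2 / (K + 4) by positivity))
  have hμ := H981.mu_pos
  refine ⟨δ / 2, max N1 2, by linarith, le_max_right _ _, ?_⟩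
  intro Ω _ ν _ D hD n hn hp
  have hn1 : N1 ≤ n := (le_max_left _ _).trans hn
  have hn2 : 2 ≤ n := (le_max_right _ _).trans hn
  have hn0 : (0 : ℝ) < n := by exact_mod_cast (show 0 < n by omega)
  have hn2' : (2 : ℝ) ≤ n := by exact_mod_cast hn2
  have hp0 : 0 < Pl ν D n := (Real.exp_pos _).trans_le hp
  have hp1 : Pl ν D n ≤ 1 := Pl_le_one ν hD hn2
  have hPPn := hPP n hn2
  have hPP0 := PP_pos hn2
  have hcast : ((2 * n - 1 : ℕ) : ℝ) = 2 * n - 1 := by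
    rw [Nat.cast_sub (by omega)]
    push_cast
    ring
  have hF : Fp ν D n = Pl ν D n * (4 * n * H981.PP n) := by
    unfold Pl
    rw [div_mul_cancel₀]
    positivity
  have hl0 : 0 ≤ Real.log (1 / Pl ν D n) :=
    Real.log_nonneg (by rw [le_div_iff₀ hp0]; linarith)
  have hl1 : Real.log (1 / Pl ν D n) ≤ δ / 2 * n := by
    rw [one_div, Real.log_inv]
    have := (Real.le_log_iff_exp_le hp0).2 hp
    linarith
  have hl2 : (K + 4) * Real.log n ^ 2 ≤ δ / 2 * n := by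
    have h1 := hN1 n hn1
    rw [div_le_iff₀ hn0] at h1
    have h2 := mul_le_mul_of_nonneg_left h1 (show 0 ≤ K + 4 by linarith)
    calc (K + 4) * Real.log n ^ 2 ≤ (K + 4) * (δ / 2 / (K + 4) * n) := h2
      _ = δ / 2 * n := by field_simp
  have hq : 0 ≤ Real.log n ^ 2 := sq_nonneg _
  refine ⟨?_, ?_, ?_, ?_, ?_⟩
  · have h1 : Real.log (2 * n - 1 : ℕ) ≤ 2 * Real.log n := by
      rw [hcast]
      have h2 : Real.log (2 * n - 1) ≤ Real.log ((n : ℝ) ^ 2) :=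
        Real.log_le_log (by linarith) (by nlinarith)
      rw [Real.log_pow] at h2
      push_cast at h2
      exact h2
    have h2 : 0 ≤ Real.log (2 * n - 1 : ℕ) := Real.log_natCast_nonneg _
    have h3 : Real.log (2 * n - 1 : ℕ) ^ 2 ≤ (2 * Real.log n) ^ 2 := pow_le_pow_left₀ h2 h1 2
    nlinarith
  · rw [hcast]
    nlinarith
  · change _ ≤ Fp ν D n / _
    rw [hF, le_div_iff₀ (by positivity)]
    have h1 : Real.exp (-(Real.log (1 / Pl ν D n) + (K + 4) * Real.log n ^ 2)) ≤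
        Pl ν D n * Real.exp (-(K * Real.log n ^ 2)) := by
      calc Real.exp (-(Real.log (1 / Pl ν D n) + (K + 4) * Real.log n ^ 2)) ≤
            Real.exp (-(Real.log (1 / Pl ν D n)) + -(K * Real.log n ^ 2)) := by
            apply Real.exp_le_exp.2
            nlinarith
        _ = _ := by rw [Real.exp_add, one_div, Real.log_inv, neg_neg, Real.exp_log hp0]
    have h2 : H981.mu ^ (2 * n - 1) ≤ 4 * n * H981.mu ^ (2 * n) := by
      have h3 : H981.mu ^ (2 * n - 1) ≤ H981.mu ^ (2 * n) :=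
        pow_le_pow_right₀ mu_one (by omega)
      have h4 : 0 ≤ H981.mu ^ (2 * n) := by positivity
      nlinarith
    calc Real.exp (-(Real.log (1 / Pl ν D n) + (K + 4) * Real.log n ^ 2)) *
          H981.mu ^ (2 * n - 1) ≤
          (Pl ν D n * Real.exp (-(K * Real.log n ^ 2))) * (4 * n * H981.mu ^ (2 * n)) :=
          mul_le_mul h1 h2 (by positivity) (by positivity)
      _ = Pl ν D n * (4 * n * (H981.mu ^ (2 * n) * Real.exp (-(K * Real.log n ^ 2)))) := by ring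
      _ ≤ _ := by
          refine mul_le_mul_of_nonneg_left ?_ hp0.le
          exact mul_le_mul_of_nonneg_left hPPn.1 (by positivity)
  · have h1 : (Real.log (1 / Pl ν D n) + (K + 4) * Real.log n ^ 2) / (2 * n - 1 : ℕ) ≤
        (K + 4) ^ 2 * ((Real.log (1 / Pl ν D n) + Real.log n ^ 2) / n) := by
      rw [hcast, ← mul_div_assoc]
      refine div_le_div₀ (by positivity) ?_ hn0 (by linarith)
      have h2 : (1 : ℝ) ≤ (K + 4) ^ 2 := one_le_pow₀ (by linarith)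
      have h3 : K + 4 ≤ (K + 4) ^ 2 := by nlinarith
      have h4 := mul_le_mul_of_nonneg_right h2 hl0
      have h5 := mul_le_mul_of_nonneg_right h3 hq
      linarith
    refine (Real.sqrt_le_sqrt h1).trans ?_
    rw [Real.sqrt_mul (by positivity), Real.sqrt_sq (by linarith)]
  · rw [hF]
    positivity

/-- **polygons in random domains** -/
theorem poly_main (m mm : ℕ) (κ : ℝ) (hκ : 0 ≤ κ) : ∃ (C δ : ℝ) (N : ℕ), 0 < C ∧ 0 < δ ∧ 2 ≤ N ∧
    ∀ (Ω : Type) [MeasurableSpace Ω] (ν : Measure Ω) [IsProbabilityMeasure ν]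
      (D : Ω → P → Prop), (∀ x, MeasurableSet {ω | D ω x}) →
      ∀ n, N ≤ n → Real.exp (-δ * n) ≤ Pl ν D n →
        0 < Fp ν D n ∧
        |Fp ν D (n + 1) / (H981.mu ^ 2 * Fp ν D n) - 1| ≤
          C * √((Real.log (1 / Pl ν D n) + Real.log n ^ 2) / n) ∧
        (∀ D' : Ω → P → Prop, (∀ x, MeasurableSet {ω | D' ω x}) →
          (∀ ω x, D' ω x → D ω x) →
          ∀ (c : Ω → Fin m → P → ℂ) (S : Ω → Set (P × (Fin m → ℝ))),
            (∀ w, MeasurableSet {ω | Ev FcT c S ω w}) →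
          |EE Q78.UR.Sq.A ν (fun ω => RD (D' ω)) (Ev FcT c S) (2 * (n + 1) - 1) / Fp ν D (n + 1) -
              EE Q78.UR.Sq.A ν (fun ω => RD (D' ω)) (Ev FcT c S) (2 * n - 1) / Fp ν D n| ≤
            C * √((Real.log (1 / Pl ν D n) + Real.log n ^ 2) / n)) ∧
        (∀ f : Ω → List P → ℝ, (∀ ω, Fr Q78.UR.Sq.rule (RD (D ω)) κ mm (f ω)) →
          (∀ w, Measurable fun ω => f ω w) →
          0 < XX Q78.UR.Sq.A ν (fun ω => RD (D ω)) f (2 * n - 1) ∧
          |(XX Q78.UR.Sq.A ν (fun ω => RD (D ω)) f (2 * (n + 1) - 1) / Fp ν D (n + 1)) /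
            (XX Q78.UR.Sq.A ν (fun ω => RD (D ω)) f (2 * n - 1) / Fp ν D n) - 1| ≤
            C * √((Real.log (1 / Pl ν D n) + Real.log n ^ 2) / n)) := by
  obtain ⟨Kg, G⟩ := Q78.UR.Sq.growth
  obtain ⟨C1, δ1, N1, hC1, hδ1, -, h1⟩ := lawW G (Fintype.card (Fin m × Bool) * Q78.UR.Sq.rule.c0)
    (by positivity)
  obtain ⟨C2, δ2, N2, hC2, hδ2, -, h2⟩ := meansW G mm κ hκ
  obtain ⟨C3, δ3, N3, hC3, hδ3, -, h3⟩ := ratiosW G 0 0 le_rfl
  obtain ⟨K0, hK0, hb⟩ := b_loop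
  obtain ⟨δ', N4, hδ', hN4, h4⟩ := hb (min δ1 (min δ2 δ3)) (lt_min hδ1 (lt_min hδ2 hδ3))
  obtain ⟨C, hC⟩ : ∃ C, C = (max C1 (max C2 C3)) * K0 := ⟨_, rfl⟩
  have hC0 : 0 < C := by
    rw [hC]
    exact mul_pos (lt_max_of_lt_left hC1) (by linarith)
  refine ⟨C, δ', max (max N1 N2) (max N3 N4), hC0, hδ',
    hN4.trans ((le_max_right _ _).trans (le_max_right _ _)), ?_⟩
  intro Ω _ ν _ D hD n hn hp
  have hn1 : N1 ≤ n := ((le_max_left _ _).trans (le_max_left _ _)).trans hn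
  have hn2 : N2 ≤ n := ((le_max_right _ _).trans (le_max_left _ _)).trans hn
  have hn3 : N3 ≤ n := ((le_max_left _ _).trans (le_max_right _ _)).trans hn
  have hn4 : N4 ≤ n := ((le_max_right _ _).trans (le_max_right _ _)).trans hn
  have hn2' : 2 ≤ n := hN4.trans hn4
  obtain ⟨b1, b2, b3, b4, b5⟩ := h4 Ω ν D hD n hn4 hp
  obtain ⟨b, hbdef⟩ : ∃ b, b = Real.log (1 / Pl ν D n) + K0 * Real.log n ^ 2 := ⟨_, rfl⟩
  rw [← hbdef] at b1 b2 b3 b4
  have hk0 : (0 : ℝ) ≤ (2 * n - 1 : ℕ) := Nat.cast_nonneg _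
  have hle : n ≤ 2 * n - 1 := by omega
  have hs : 2 * (n + 1) - 1 = 2 * n - 1 + Q78.UR.Sq.rule.s := by
    change 2 * (n + 1) - 1 = 2 * n - 1 + 2
    omega
  have hs2 : Q78.UR.Sq.rule.s = 2 := rfl
  obtain ⟨er, her⟩ : ∃ er, er = √((Real.log (1 / Pl ν D n) + Real.log n ^ 2) / n) := ⟨_, rfl⟩
  rw [← her] at b4 ⊢
  have her0 : 0 ≤ er := by rw [her]; exact Real.sqrt_nonneg _
  have hbnd : ∀ C' : ℝ, 0 < C' → C' ≤ max C1 (max C2 C3) →
      C' * √(b / (2 * n - 1 : ℕ)) ≤ C * er := by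
    intro C' h0 hC'
    rw [hC, mul_assoc]
    exact mul_le_mul hC' b4 (Real.sqrt_nonneg _) (h0.le.trans hC')
  have hFp : ∀ n, Fp ν D n = Q78.UR.FF Q78.UR.Sq.A ν (fun ω => RD (D ω)) (2 * n - 1) :=
    fun _ => rfl
  refine ⟨b5, ?_, fun D' hD' hsub c S hS => ?_, fun f hf hm => ?_⟩
  · obtain ⟨-, g, -⟩ := h3 Ω ν (fun ω => RD (D ω)) (fun e x => meas_RD hD e x) (fun _ _ => 1)
      (fun ω => fr_one _ _ 0 0 le_rfl) (fun _ => measurable_const) (2 * n - 1) (hn3.trans hle) b b1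
      (b2.trans (mul_le_mul_of_nonneg_right ((min_le_right _ _).trans (min_le_right _ _)) hk0)) b3
    rw [XX_one, XX_one, hs2] at g
    rw [hFp, hFp, hs, hs2]
    exact g.trans (hbnd C3 hC3 ((le_max_right _ _).trans (le_max_right _ _)))
  · have g := h1 Ω ν (fun ω => RD (D ω)) (fun e x => meas_RD hD e x) (2 * n - 1) (hn1.trans hle) b b1
      (b2.trans (mul_le_mul_of_nonneg_right (min_le_left _ _) hk0)) b3
      (fun ω => RD (D' ω)) (fun e x => meas_RD hD' e x)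
      (fun ω e x h => ⟨h.1, hsub ω x h.2⟩) (Ev FcT c S) hS (fun ω =>
        inv_congr (inv_dm feat_S (c ω) (RD (D' ω)) (S ω)) fun w hw => by simp [Ev, hw])
    rw [hFp, hFp, hs]
    exact g.trans (hbnd C1 hC1 (le_max_left _ _))
  · obtain ⟨-, g1, g2⟩ := h2 Ω ν (fun ω => RD (D ω)) (fun e x => meas_RD hD e x) f hf hm (2 * n - 1)
      (hn2.trans hle) b b1
      (b2.trans (mul_le_mul_of_nonneg_right ((min_le_right _ _).trans (min_le_left _ _)) hk0)) b3
    rw [hFp, hFp, hs]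
    exact ⟨g1, g2.trans (hbnd C2 hC2 ((le_max_left _ _).trans (le_max_right _ _)))⟩

/-- **the second ratio inequality** -/
theorem poly_cvx : ∃ (C δ : ℝ) (N : ℕ), 0 < C ∧ 0 < δ ∧ 2 ≤ N ∧
    ∀ (Ω : Type) [MeasurableSpace Ω] (ν : Measure Ω) [IsProbabilityMeasure ν]
      (D : Ω → P → Prop), (∀ x, MeasurableSet {ω | D ω x}) →
      ∀ n, N ≤ n → Real.exp (-δ * n) ≤ Pl ν D (n + 1) →
        Fp ν D (n + 1) ^ 2 ≤ Fp ν D n * Fp ν D (n + 2) * (1 + C / n) := by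
  obtain ⟨Kg, G⟩ := Q78.UR.Sq.growth
  obtain ⟨K, hK, hPP⟩ := Pool.Agent.TH508.LT.sq_PP2
  obtain ⟨C, δ, N0, hC, hδ, -, h⟩ := Q78.UR.main G
  have hKg := G.hK
  have hμ := H981.mu_pos
  obtain ⟨N1, hN1⟩ := eventually_atTop.1
    (Q78.UR.log_sq_div.eventually_le_const
      (show (0 : ℝ) < δ / 8 / (4 * (K + 4 * Kg + 1)) by positivity))
  refine ⟨C, δ / 2, max (max N0 N1) 2, hC, by linarith, le_max_right _ _, ?_⟩
  intro Ω _ ν _ D hD n hn hp
  have hn0' : N0 ≤ n := ((le_max_left _ _).trans (le_max_left _ _)).trans hn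
  have hn1 : N1 ≤ n := ((le_max_right _ _).trans (le_max_left _ _)).trans hn
  have hn2 : 2 ≤ n := (le_max_right _ _).trans hn
  have hn0 : (0 : ℝ) < n := by exact_mod_cast (show 0 < n by omega)
  have hn2' : (2 : ℝ) ≤ n := by exact_mod_cast hn2
  have hs2 : Q78.UR.Sq.rule.s = 2 := rfl
  have hcast : ((2 * n - 1 : ℕ) : ℝ) = 2 * n - 1 := by
    rw [Nat.cast_sub (by omega)]
    push_cast
    ring
  have hp0 : 0 < Pl ν D (n + 1) := (Real.exp_pos _).trans_le hp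
  have hPP0 := PP_pos (show 2 ≤ n + 1 by omega)
  have key : Real.exp (-δ * (2 * n - 1 : ℕ)) ≤
      Q78.UR.PP Q78.UR.Sq.A ν (fun ω => RD (D ω)) (2 * n - 1 + Q78.UR.Sq.rule.s) := by
    have e1 : 2 * n - 1 + Q78.UR.Sq.rule.s = 2 * (n + 1) - 1 := by rw [hs2]; omega
    rw [e1]
    have hF : Q78.UR.FF Q78.UR.Sq.A ν (fun ω => RD (D ω)) (2 * (n + 1) - 1) =
        Pl ν D (n + 1) * (4 * ((n + 1 : ℕ) : ℝ) * H981.PP (n + 1)) := by
      change Fp ν D (n + 1) = _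
      unfold Pl
      rw [div_mul_cancel₀]
      positivity
    unfold Q78.UR.PP
    rw [hF]
    have hup := G.up (2 * (n + 1) - 1) (by omega)
    have hlow := (hPP (n + 1) (by omega)).1
    have hc : (0 : ℝ) < (Kw Q78.UR.Sq.A (2 * (n + 1) - 1)).card :=
      lt_of_lt_of_le (pow_pos hμ _) (G.low _)
    rw [le_div_iff₀ hc]
    have hl1 : Real.log ((n + 1 : ℕ) : ℝ) ≤ 2 * Real.log n := by
      have h2 : Real.log ((n + 1 : ℕ) : ℝ) ≤ Real.log ((n : ℝ) ^ 2) :=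
        Real.log_le_log (by positivity) (by push_cast; nlinarith)
      rw [Real.log_pow] at h2
      push_cast at h2 ⊢
      exact h2
    have hl2 : Real.log ((2 * (n + 1) - 1 : ℕ) : ℝ) ≤ 4 * Real.log n := by
      have h2 : Real.log ((2 * (n + 1) - 1 : ℕ) : ℝ) ≤ Real.log ((n : ℝ) ^ 4) :=
        Real.log_le_log (by exact_mod_cast (show 0 < 2 * (n + 1) - 1 by omega)) (by
          have : 2 * (n + 1) - 1 ≤ n ^ 4 := by
            have h3 : n ^ 4 = n * n * (n * n) := by ring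
            have h4 : 2 * n ≤ n * n := Nat.mul_le_mul_right n hn2
            have h5 : 2 * (n * n) ≤ n * n * (n * n) := Nat.mul_le_mul_right _ (by nlinarith)
            omega
          exact_mod_cast this)
      rw [Real.log_pow] at h2
      push_cast at h2 ⊢
      exact h2
    have hl0 : 0 ≤ Real.log ((n + 1 : ℕ) : ℝ) := Real.log_natCast_nonneg _
    have hl0' : 0 ≤ Real.log ((2 * (n + 1) - 1 : ℕ) : ℝ) := Real.log_natCast_nonneg _
    have hq1 : Real.log ((n + 1 : ℕ) : ℝ) ^ 2 ≤ 4 * Real.log n ^ 2 := by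
      have := pow_le_pow_left₀ hl0 hl1 2
      nlinarith
    have hq2 : Real.log ((2 * (n + 1) - 1 : ℕ) : ℝ) ^ 2 ≤ 16 * Real.log n ^ 2 := by
      have := pow_le_pow_left₀ hl0' hl2 2
      nlinarith
    have hsmall : 4 * (K + 4 * Kg + 1) * Real.log n ^ 2 ≤ δ / 8 * n := by
      have h1 := hN1 n hn1
      rw [div_le_iff₀ hn0] at h1
      have h2 := mul_le_mul_of_nonneg_left h1 (show 0 ≤ 4 * (K + 4 * Kg + 1) by positivity)
      calc 4 * (K + 4 * Kg + 1) * Real.log n ^ 2 ≤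
            4 * (K + 4 * Kg + 1) * (δ / 8 / (4 * (K + 4 * Kg + 1)) * n) := h2
        _ = δ / 8 * n := by field_simp
    have hmu : H981.mu ^ (2 * (n + 1) - 1) ≤ H981.mu ^ (2 * (n + 1)) :=
      pow_le_pow_right₀ mu_one (by omega)
    calc Real.exp (-δ * (2 * n - 1 : ℕ)) * (Kw Q78.UR.Sq.A (2 * (n + 1) - 1)).card ≤
          Real.exp (-δ * (2 * n - 1 : ℕ)) * (H981.mu ^ (2 * (n + 1) - 1) *
            Real.exp (Kg * Real.log ((2 * (n + 1) - 1 : ℕ) : ℝ) ^ 2)) :=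
          mul_le_mul_of_nonneg_left hup (Real.exp_nonneg _)
      _ ≤ Real.exp (-δ * (2 * n - 1 : ℕ)) * (H981.mu ^ (2 * (n + 1)) *
            Real.exp (Kg * Real.log ((2 * (n + 1) - 1 : ℕ) : ℝ) ^ 2)) := by
          refine mul_le_mul_of_nonneg_left ?_ (Real.exp_nonneg _)
          exact mul_le_mul_of_nonneg_right hmu (Real.exp_nonneg _)
      _ = H981.mu ^ (2 * (n + 1)) * Real.exp (-δ * (2 * n - 1 : ℕ) +
            Kg * Real.log ((2 * (n + 1) - 1 : ℕ) : ℝ) ^ 2) := by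
          rw [Real.exp_add]
          ring
      _ ≤ H981.mu ^ (2 * (n + 1)) * Real.exp (-(δ / 2) * n +
            -(K * Real.log ((n + 1 : ℕ) : ℝ) ^ 2)) := by
          refine mul_le_mul_of_nonneg_left (Real.exp_le_exp.2 ?_) (by positivity)
          rw [hcast]
          have g1 := mul_le_mul_of_nonneg_left hq2 hKg
          have g2 := mul_le_mul_of_nonneg_left hq1 hK
          have g3 : 0 ≤ Real.log n ^ 2 := sq_nonneg _
          nlinarith
      _ = Real.exp (-(δ / 2) * n) * (H981.mu ^ (2 * (n + 1)) *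
            Real.exp (-(K * Real.log ((n + 1 : ℕ) : ℝ) ^ 2))) := by
          rw [Real.exp_add]
          ring
      _ ≤ Pl ν D (n + 1) * H981.PP (n + 1) :=
          mul_le_mul hp hlow (by positivity) hp0.le
      _ ≤ Pl ν D (n + 1) * (4 * ((n + 1 : ℕ) : ℝ) * H981.PP (n + 1)) := by
          refine mul_le_mul_of_nonneg_left ?_ hp0.le
          have h1 : (1 : ℝ) ≤ 4 * ((n + 1 : ℕ) : ℝ) := by push_cast; linarith
          nlinarith
  have hm := (h Ω ν (fun ω => RD (D ω)) (fun e x => meas_RD hD e x)).1 (2 * n - 1)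
    (hn0'.trans (by omega)) key
  have e1 : 2 * n - 1 + Q78.UR.Sq.rule.s = 2 * (n + 1) - 1 := by rw [hs2]; omega
  have e2 : 2 * n - 1 + 2 * Q78.UR.Sq.rule.s = 2 * (n + 2) - 1 := by rw [hs2]; omega
  rw [e1, e2] at hm
  change Fp ν D (n + 1) ^ 2 ≤ Fp ν D n * Fp ν D (n + 2) * (1 + C / (2 * n - 1 : ℕ)) at hm
  refine hm.trans (mul_le_mul_of_nonneg_left ?_ (mul_nonneg (Fp_nonneg _ _ _) (Fp_nonneg _ _ _)))
  have : C / (2 * n - 1 : ℕ) ≤ C / n := by
    rw [hcast]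
    exact div_le_div_of_nonneg_left hC.le hn0 (by linarith)
  linarith

end

end Q78.UW.Po
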