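import Pool.Agent.Q78.UW.ExAbs
import Pool.Agent.Q78.UW.ArW3

set_option autoImplicit false

/-! Self-avoiding polygons in random domains: all perimeters from a sparse set of perimeters. -/

namespace Q78.UW.Po

open Finset Filter Topology MeasureTheory TH966.AK Q294.Av Q294.Rs TH966.KS Q78.Z3 Q78.UW.Ex
open scoped Classical

noncomputable section

/-- the normalised weighted numbers of polygons -/
theorem poly_cl (mm : ℕ) (κ : ℝ) (hκ : 0 ≤ κ) : ∃ (N : ℕ) (E θ : ℝ), 0 ≤ E ∧ 0 < θ ∧ θ < 1 ∧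
    ∀ (Ω : Type) [MeasurableSpace Ω] (ν : Measure Ω) [IsProbabilityMeasure ν]
      (D : Ω → P → Prop), (∀ x, MeasurableSet {ω | D ω x}) → ∀ f : Ω → List P → ℝ,
      (∀ ω, Fr Q78.UR.Sq.rule (RD (D ω)) κ mm (f ω)) → (∀ w, Measurable fun ω => f ω w) →
      Cl 1 N E θ (fun n => XX Q78.UR.Sq.A ν (fun ω => RD (D ω)) f (2 * n - 1) /
        H981.mu ^ (2 * n)) := by
  obtain ⟨Kg, G⟩ := Q78.UR.Sq.growth
  obtain ⟨E, θ, N, hE, hθ0, hθ1, h⟩ := mixtureW (loc_of G) mm κ hκ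
  have hμ := H981.mu_pos
  have hμ1 := mu_one
  have hs2 : Q78.UR.Sq.rule.s = 2 := rfl
  refine ⟨max N 1, E, θ, hE, hθ0, hθ1, ?_⟩
  intro Ω _ ν _ D hD f hf hm
  have hcl := Q78.Z3.Kz.cl (h Ω ν (fun ω => RD (D ω)) (fun e x => meas_RD hD e x) f hf hm) hμ
  rw [hs2] at hcl
  refine ⟨fun n => ?_, fun n hn hbig => ?_⟩
  · have h1 := hcl.nn (2 * n - 1)
    have h2 : 0 ≤ XX Q78.UR.Sq.A ν (fun ω => RD (D ω)) f (2 * n - 1) := by
      by_contra h3
      have := div_neg_of_neg_of_pos (not_le.1 h3) (pow_pos hμ (2 * n - 1))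
      linarith
    positivity
  · have hn1 : 1 ≤ n := (le_max_right _ _).trans hn
    have hnN : N ≤ n := (le_max_left _ _).trans hn
    have hn0 : (0 : ℝ) < n := by exact_mod_cast hn1
    obtain ⟨k, hk⟩ : ∃ k, n = k + 1 := ⟨n - 1, by omega⟩
    subst hk
    have e0 : 2 * (k + 1) - 1 = 2 * k + 1 := by omega
    have e1 : 2 * (k + 1 + 1) - 1 = 2 * k + 1 + 2 := by omega
    have e2 : 2 * (k + 1 + 2 * 1) - 1 = 2 * k + 1 + 2 * 2 := by omega
    rw [e1] at hbig ⊢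
    rw [e0, e2]
    obtain ⟨a, ha⟩ : ∃ a, a = XX Q78.UR.Sq.A ν (fun ω => RD (D ω)) f (2 * k + 1) := ⟨_, rfl⟩
    obtain ⟨b, hb⟩ : ∃ b, b = XX Q78.UR.Sq.A ν (fun ω => RD (D ω)) f (2 * k + 1 + 2) := ⟨_, rfl⟩
    obtain ⟨c, hc⟩ : ∃ c, c = XX Q78.UR.Sq.A ν (fun ω => RD (D ω)) f (2 * k + 1 + 2 * 2) :=
      ⟨_, rfl⟩
    have hb0 : 0 < b := by
      rw [hb]
      have h1 : 0 < XX Q78.UR.Sq.A ν (fun ω => RD (D ω)) f (2 * k + 1 + 2) /
          H981.mu ^ (2 * (k + 1 + 1)) := lt_of_lt_of_le (by positivity) hbig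
      exact (div_pos_iff_of_pos_right (by positivity)).1 h1
    have hkes := hcl.kes (2 * k + 1) (by omega) (by
      rw [← hb] at hbig ⊢
      calc θ ^ (2 * k + 1 + 2) ≤ θ ^ (k + 1 + 1) :=
            pow_le_pow_of_le_one hθ0.le hθ1.le (by omega)
        _ ≤ b / H981.mu ^ (2 * (k + 1 + 1)) := hbig
        _ ≤ b / H981.mu ^ (2 * k + 1 + 2) :=
            div_le_div_of_nonneg_left hb0.le (by positivity)
              (pow_le_pow_right₀ hμ1 (by omega)))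
    rw [← ha, ← hb, ← hc] at hkes
    rw [← ha, ← hb, ← hc]
    have ha0 : 0 ≤ a := by
      have h1 := hcl.nn (2 * k + 1)
      rw [← ha] at h1
      by_contra h3
      have := div_neg_of_neg_of_pos (not_le.1 h3) (pow_pos hμ (2 * k + 1))
      linarith
    have hc0 : 0 ≤ c := by
      have h1 := hcl.nn (2 * k + 1 + 2 * 2)
      rw [← hc] at h1
      by_contra h3
      have := div_neg_of_neg_of_pos (not_le.1 h3) (pow_pos hμ (2 * k + 1 + 2 * 2))
      linarith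
    have h5 : b ^ 2 ≤ a * c * (1 + E / ((2 * k + 1 : ℕ) : ℝ)) := by
      have e3 : (H981.mu ^ (2 * k + 1 + 2)) ^ 2 =
          H981.mu ^ (2 * k + 1) * H981.mu ^ (2 * k + 1 + 2 * 2) := by
        rw [← pow_mul, ← pow_add]
        congr 1
        ring
      rw [div_pow, div_mul_div_comm, div_mul_eq_mul_div, e3,
        div_le_div_iff_of_pos_right (by positivity)] at hkes
      exact hkes
    have h6 : E / ((2 * k + 1 : ℕ) : ℝ) ≤ E / ((k + 1 : ℕ) : ℝ) :=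
      div_le_div_of_nonneg_left hE hn0 (by push_cast; linarith [(Nat.cast_nonneg k : (0 : ℝ) ≤ k)])
    have e4 : (H981.mu ^ (2 * (k + 1 + 1))) ^ 2 =
        H981.mu ^ (2 * (k + 1)) * H981.mu ^ (2 * (k + 1 + 2 * 1)) := by
      rw [← pow_mul, ← pow_add]
      congr 1
      ring
    rw [div_pow, div_mul_div_comm, div_mul_eq_mul_div, e4,
      div_le_div_iff_of_pos_right (by positivity)]
    refine h5.trans (mul_le_mul_of_nonneg_left (by linarith) (mul_nonneg ha0 hc0))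

variable {Ω : Type} [MeasurableSpace Ω]

/-- the normalised mean number of rooted polygons -/
def Yp (ν : Measure Ω) (D : Ω → P → Prop) (n : ℕ) : ℝ := Fp ν D n / H981.mu ^ (2 * n)

/-- the conditional mean of a weight -/
def Mp (ν : Measure Ω) (D : Ω → P → Prop) (f : List P → ℝ) (n : ℕ) : ℝ :=
  XX Q78.UR.Sq.A ν (fun ω => RD (D ω)) (fun _ => f) (2 * n - 1) / Fp ν D n

/-- the class of weights of polygons -/
def Fpol (κ : ℝ) (mm : ℕ) (f : List P → ℝ) : Prop :=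
  ∀ D : P → Prop, Fr Q78.UR.Sq.rule (RD D) κ mm f

theorem fpol_one (κ : ℝ) (hκ : 0 ≤ κ) (mm : ℕ) : Fpol κ mm (fun _ => 1) :=
  fun D => fr_one Q78.UR.Sq.rule (RD D) mm κ hκ

theorem Fp_XX (ν : Measure Ω) (D : Ω → P → Prop) (n : ℕ) :
    XX Q78.UR.Sq.A ν (fun ω => RD (D ω)) (fun _ _ => 1) (2 * n - 1) = Fp ν D n := by
  rw [XX_one]
  rfl

theorem XX_bounds (ν : Measure Ω) [IsProbabilityMeasure ν] {D : Ω → P → Prop}
    (hD : ∀ x, MeasurableSet {ω | D ω x}) {f : List P → ℝ} {κ : ℝ} {m : ℕ} (hf : Fpol κ m f)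
    (n : ℕ) (hn : 1 ≤ n) :
    Fp ν D n ≤ XX Q78.UR.Sq.A ν (fun ω => RD (D ω)) (fun _ => f) (2 * n - 1) ∧
      XX Q78.UR.Sq.A ν (fun ω => RD (D ω)) (fun _ => f) (2 * n - 1) ≤
        (4 * (n : ℝ)) ^ m * Fp ν D n := by
  have hR : ∀ e x, MeasurableSet {ω | RD (D ω) e x} := fun e x => meas_RD hD e x
  have h1 := integrable_WR (Z := Q78.UR.Sq.rule) ν hR (f := fun _ => f)
    (fun ω => hf (D ω)) (fun _ => measurable_const) (2 * n - 1)
  have h2 := Q78.UR.integrable_card (A := Q78.UR.Sq.A) ν hR (2 * n - 1)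
  unfold Fp XX Q78.UR.FF
  constructor
  · refine integral_mono h2 h1 fun ω => ?_
    show ((KR Q78.UR.Sq.A (RD (D ω)) (2 * n - 1)).card : ℝ) ≤
      WR Q78.UR.Sq.A (RD (D ω)) f (2 * n - 1)
    unfold WR
    rw [← nsmul_one, ← sum_const]
    exact sum_le_sum fun w hw => (hf (D ω)).ge _ (by omega) w hw
  · rw [← integral_const_mul]
    refine integral_mono h1 (h2.const_mul _) fun ω => ?_
    show WR Q78.UR.Sq.A (RD (D ω)) f (2 * n - 1) ≤
      (4 * (n : ℝ)) ^ m * ((KR Q78.UR.Sq.A (RD (D ω)) (2 * n - 1)).card : ℝ)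
    unfold WR
    rw [mul_comm ((4 * (n : ℝ)) ^ m), ← nsmul_eq_mul, ← sum_const]
    refine sum_le_sum fun w hw => ?_
    have h3 := (hf (D ω)).le _ w hw
    have e : 2 * ((2 * n - 1 : ℕ) : ℝ) + 2 = 4 * n := by
      rw [Nat.cast_sub (by omega)]
      push_cast
      ring
    rwa [e] at h3

/-- **polygons in random domains: all perimeters from a sparse set of perimeters** -/
theorem poly_ex (mm : ℕ) (κ : ℝ) (hκ : 0 ≤ κ) :
    ∃ C : ℝ, 0 < C ∧ ∀ (Ω : Type) [MeasurableSpace Ω] (ν : Measure Ω) [IsProbabilityMeasure ν]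
      (D : Ω → P → Prop), (∀ x, MeasurableSet {ω | D ω x}) →
      ∀ (S : Set ℕ),
      -- bounds
      (∀ (E ψ : ℕ → ℝ) (τ δ : ℝ), Q294.Sp1.Err E → Slow ψ → 0 < τ → 0 < δ → Gap S δ E →
        (∀ᶠ k in atTop, k ∈ S → 0 < Yp ν D k ∧ |Real.log (Yp ν D k) - ψ k| ≤ τ * E k) →
        ∀ᶠ k in atTop, 0 < Yp ν D k ∧ |Real.log (Yp ν D k) - ψ k| ≤ C * (τ + δ ^ 2) * E k) ∧
      (∀ (E : ℕ → ℝ) (τ δ : ℝ), Q294.Sp1.Err E → 0 < τ → 0 < δ → Gap S δ E →
        (∀ᶠ k in atTop, k ∈ S → 0 < Yp ν D k ∧ |Real.log (Yp ν D k)| ≤ τ * E k) →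
        ∀ᶠ k : ℕ in atTop,
          |Fp ν D (k + 1) / (H981.mu ^ 2 * Fp ν D k) - 1| ≤ C * √((1 + τ + δ ^ 2) * E k / k) ∧
          ∀ D' : Ω → P → Prop, (∀ x, MeasurableSet {ω | D' ω x}) → (∀ ω x, D' ω x → D ω x) →
            |Fp ν D' (k + 1) / Fp ν D (k + 1) - Fp ν D' k / Fp ν D k| ≤
              C * √((1 + τ + δ ^ 2) * E k / k)) ∧
      (∀ ψ : ℕ → ℝ, Slow ψ → (∀ δ : ℝ, 0 < δ → Gap S δ (fun _ => 1)) →
        Tendsto (fun k => Yp ν D k / Real.exp (ψ k)) (atTop ⊓ 𝓟 S) (𝓝 1) →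
        Tendsto (fun k => Yp ν D k / Real.exp (ψ k)) atTop (𝓝 1)) ∧
      (∀ β : ℝ, (∀ δ : ℝ, 0 < δ → Gap S δ (fun n => Real.log n)) →
        (∀ᶠ k in atTop, k ∈ S → 0 < Yp ν D k) →
        Tendsto (fun k : ℕ => Real.log (Yp ν D k) / Real.log k) (atTop ⊓ 𝓟 S) (𝓝 β) →
        Tendsto (fun k : ℕ => Real.log (Yp ν D k) / Real.log k) atTop (𝓝 β)) ∧
      -- weights
      ∀ f : List P → ℝ, Fpol κ mm f →
      (∀ β β' : ℝ, (∀ δ : ℝ, 0 < δ → Gap S δ (fun n => Real.log n)) →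
        (∀ᶠ k in atTop, k ∈ S → 0 < Yp ν D k) →
        Tendsto (fun k : ℕ => Real.log (Yp ν D k) / Real.log k) (atTop ⊓ 𝓟 S) (𝓝 β) →
        Tendsto (fun k : ℕ => Real.log (Mp ν D f k) / Real.log k) (atTop ⊓ 𝓟 S) (𝓝 β') →
        (∀ᶠ k in atTop, 0 < Yp ν D k) ∧
        Tendsto (fun k : ℕ => Real.log (Yp ν D k) / Real.log k) atTop (𝓝 β) ∧
        Tendsto (fun k : ℕ => Real.log (Mp ν D f k) / Real.log k) atTop (𝓝 β')) ∧
      (∀ ψ φ : ℕ → ℝ, Slow ψ → Slow φ → (∀ δ : ℝ, 0 < δ → Gap S δ (fun _ => 1)) →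
        Tendsto (fun k => Yp ν D k / Real.exp (ψ k)) (atTop ⊓ 𝓟 S) (𝓝 1) →
        Tendsto (fun k => Mp ν D f k / Real.exp (φ k)) (atTop ⊓ 𝓟 S) (𝓝 1) →
        Tendsto (fun k => Yp ν D k / Real.exp (ψ k)) atTop (𝓝 1) ∧
        Tendsto (fun k => Mp ν D f k / Real.exp (φ k)) atTop (𝓝 1)) ∧
      (∀ τ δ : ℝ, 0 < τ → 0 < δ → Gap S δ (fun n => 1 + Real.log n) →
        (∀ᶠ k in atTop, k ∈ S → 0 < Yp ν D k ∧ |Real.log (Yp ν D k)| ≤ τ * (1 + Real.log k)) →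
        ∀ᶠ k : ℕ in atTop, 0 < Fp ν D k ∧ 0 < Fp ν D (k + 1) ∧
          |Fp ν D (k + 1) / (H981.mu ^ 2 * Fp ν D k) - 1| ≤
            C * √((1 + τ + δ ^ 2) * (1 + Real.log k) / k) ∧
          |Mp ν D f (k + 1) / Mp ν D f k - 1| ≤
            C * √((1 + τ + δ ^ 2) * (1 + Real.log k) / k) ∧
          C * √((1 + τ + δ ^ 2) * (1 + Real.log k) / k) ≤ 1 / 2 ∧
          ∀ D' : Ω → P → Prop, (∀ x, MeasurableSet {ω | D' ω x}) → (∀ ω x, D' ω x → D ω x) →
            ∀ f' : Ω → List P → ℝ, (∀ ω, Fr Q78.UR.Sq.rule (RD (D' ω)) κ mm (f' ω)) →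
            (∀ w, Measurable fun ω => f' ω w) → (∀ ω w, f' ω w ≤ f w) →
            |XX Q78.UR.Sq.A ν (fun ω => RD (D' ω)) f' (2 * (k + 1) - 1) /
                XX Q78.UR.Sq.A ν (fun ω => RD (D ω)) (fun _ => f) (2 * (k + 1) - 1) -
              XX Q78.UR.Sq.A ν (fun ω => RD (D' ω)) f' (2 * k - 1) /
                XX Q78.UR.Sq.A ν (fun ω => RD (D ω)) (fun _ => f) (2 * k - 1)| ≤
              C * √((1 + τ + δ ^ 2) * (1 + Real.log k) / k)) := by
  obtain ⟨N, E0, θ, hE0, hθ0, hθ1, hcl⟩ := poly_cl mm κ hκ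
  obtain ⟨C1, hC1, h1⟩ := abs_main N E0 θ hE0 hθ0 hθ1
  obtain ⟨C2, hC2, h2⟩ := abs_cond N E0 θ hE0 hθ0 hθ1 mm
  have hμ := H981.mu_pos
  -- a common constant is obtained by taking the first one for the first group only
  obtain ⟨C, hC⟩ : ∃ C, C = max C1 C2 := ⟨_, rfl⟩
  refine ⟨C, by rw [hC]; exact lt_max_of_lt_left hC1, ?_⟩
  have hCC1 : C1 ≤ C := by rw [hC]; exact le_max_left _ _
  intro Ω _ ν _ D hD S
  have hx : ∀ D' : Ω → P → Prop, (∀ x, MeasurableSet {ω | D' ω x}) → Cl 1 N E0 θ (Yp ν D') := by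
    intro D' hD'
    have := hcl Ω ν D' hD' (fun _ _ => 1) (fun ω => fpol_one κ hκ mm (D' ω))
      (fun _ => measurable_const)
    simp only [Fp_XX] at this
    exact this
  have hmono : ∀ D' : Ω → P → Prop, (∀ x, MeasurableSet {ω | D' ω x}) →
      (∀ ω x, D' ω x → D ω x) → ∀ n, Yp ν D' n ≤ Yp ν D n := by
    intro D' hD' hsub n
    unfold Yp
    refine div_le_div_of_nonneg_right ?_ (by positivity)
    rw [← Fp_XX, ← Fp_XX]
    exact XX_mono (κ := κ) (κ' := κ) (m := mm) (m' := mm) ν hD hD' hsub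
      (fun ω => fpol_one κ hκ mm (D ω)) (fun _ => measurable_const)
      (fun ω => fpol_one κ hκ mm (D' ω)) (fun _ => measurable_const) (fun _ _ => le_rfl) _
  obtain ⟨a1, a2, a3, a4⟩ := h1 S (Yp ν D) (hx D hD)
  have hYr : ∀ k, Yp ν D (k + 1) / Yp ν D k = Fp ν D (k + 1) / (H981.mu ^ 2 * Fp ν D k) := by
    intro k
    unfold Yp
    rw [show 2 * (k + 1) = 2 * k + 2 by ring, pow_add]
    rcases eq_or_ne (Fp ν D k) 0 with h0 | h0
    · rw [h0]; simp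
    · field_simp
  have hYq : ∀ (D' : Ω → P → Prop) k, Yp ν D' k / Yp ν D k = Fp ν D' k / Fp ν D k := by
    intro D' k
    unfold Yp
    rw [div_div_div_cancel_right₀ (by positivity)]
  refine ⟨?_, ?_, a3, a4, ?_⟩
  · intro E ψ τ δ hE hψ hτ hδ hS h
    filter_upwards [a1 E ψ τ δ hE hψ hτ hδ hS h] with k hk
    refine ⟨hk.1, hk.2.trans (mul_le_mul_of_nonneg_right
      (mul_le_mul_of_nonneg_right hCC1 (by positivity)) (by linarith [hE.1 k]))⟩
  · intro E τ δ hE hτ hδ hS h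
    filter_upwards [a2 E τ δ hE hτ hδ hS h] with k hk
    have hle : C1 * √((1 + τ + δ ^ 2) * E k / k) ≤ C * √((1 + τ + δ ^ 2) * E k / k) :=
      mul_le_mul_of_nonneg_right hCC1 (Real.sqrt_nonneg _)
    refine ⟨?_, fun D' hD' hsub => ?_⟩
    · rw [← hYr]
      exact hk.1.trans hle
    · rw [← hYq, ← hYq]
      exact (hk.2 (Yp ν D') (hx D' hD') (hmono D' hD' hsub)).trans hle
  · intro f hf
    obtain ⟨w, hw⟩ : ∃ w : ℕ → ℝ, w = fun n =>
      XX Q78.UR.Sq.A ν (fun ω => RD (D ω)) (fun _ => f) (2 * n - 1) / H981.mu ^ (2 * n) := ⟨_, rfl⟩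
    have hwcl : Cl 1 N E0 θ w := by
      rw [hw]
      exact hcl Ω ν D hD (fun _ => f) (fun ω => hf (D ω)) (fun _ => measurable_const)
    have hxw : ∀ n, 2 ≤ n → Yp ν D n ≤ w n ∧ w n ≤ (4 * (n : ℝ)) ^ mm * Yp ν D n := by
      intro n hn
      obtain ⟨g1, g2⟩ := XX_bounds ν hD hf n (by omega)
      rw [hw]
      unfold Yp
      simp only
      refine ⟨div_le_div_of_nonneg_right g1 (by positivity), ?_⟩
      rw [← mul_div_assoc]
      exact div_le_div_of_nonneg_right g2 (by positivity)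
    have hM : ∀ k, w k / Yp ν D k = Mp ν D f k := by
      intro k
      rw [hw]
      unfold Yp Mp
      simp only
      rw [div_div_div_cancel_right₀ (by positivity)]
    obtain ⟨b1, b2, b3⟩ := h2 S (Yp ν D) w (hx D hD) hwcl hxw
    simp only [hM] at b1 b2 b3
    refine ⟨b1, b2, ?_⟩
    intro τ δ hτ hδ hS hk
    have hlim : Tendsto (fun k : ℕ => C * √((1 + τ + δ ^ 2) * ((1 + Real.log (k : ℝ)) / k)))
        atTop (𝓝 0) := by
      have h2 := Q294.Sp1.err_log.lim.const_mul (1 + τ + δ ^ 2)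
      rw [mul_zero] at h2
      have h3 := (Real.continuous_sqrt.tendsto 0).comp h2
      rw [Real.sqrt_zero] at h3
      have h4 := h3.const_mul C
      rw [mul_zero] at h4
      exact h4
    filter_upwards [b3 τ δ hτ hδ hS hk,
      hlim.eventually_le_const (show (0 : ℝ) < 1 / 2 by norm_num)] with k hk ke
    rw [mul_div_assoc'] at ke
    obtain ⟨g1, g2, g3, g4, -, g6⟩ := hk
    have hle : C2 * √((1 + τ + δ ^ 2) * (1 + Real.log k) / k) ≤
        C * √((1 + τ + δ ^ 2) * (1 + Real.log k) / k) :=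
      mul_le_mul_of_nonneg_right (by rw [hC]; exact le_max_right _ _) (Real.sqrt_nonneg _)
    have hF1 : 0 < Fp ν D k := (div_pos_iff_of_pos_right (by positivity)).1 g1
    have hF2 : 0 < Fp ν D (k + 1) := (div_pos_iff_of_pos_right (by positivity)).1 g2
    refine ⟨hF1, hF2, ?_, g4.trans hle, ke, fun D' hD' hsub f' hf' hm' hle' => ?_⟩
    · rw [← hYr]
      exact g3.trans hle
    · have g7 := g6 (fun n => XX Q78.UR.Sq.A ν (fun ω => RD (D' ω)) f' (2 * n - 1) /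
          H981.mu ^ (2 * n)) (hcl Ω ν D' hD' f' hf' hm') (fun n => by
          rw [hw]
          exact div_le_div_of_nonneg_right (XX_mono ν hD hD' hsub (fun ω => hf (D ω))
            (fun _ => measurable_const) hf' hm' hle' _) (by positivity))
      rw [hw] at g7
      simp only at g7
      rw [div_div_div_cancel_right₀ (by positivity), div_div_div_cancel_right₀ (by positivity)] at g7
      exact g7.trans hle

end

end Q78.UW.Po
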