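import Pool.Agent.Q78.UW.Reg

set_option autoImplicit false

/-! Extents of polygons in regions and random domains. -/

namespace Q78.UW.Po

open Finset Filter Topology MeasureTheory TH966.AK Q294.Av Q294.Rs
open Pool.Agent.H924P (IsLoop)
open scoped Classical

noncomputable section

/-- the extent of a loop under a map -/
def ext (m : ℕ) (c : P → ℂ) (f : ZMod m → P) : ℝ := Metric.diam (Set.range fun i => c (f i))

theorem ext_eq (k : ℕ) (c : P → ℂ) (g : Fin (k + 1) → P) :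
    ext (k + 1) c g = dm FcT c (List.ofFn g) := by
  rw [dm_T]
  rfl

/-- the joint event -/
def Es {j : ℕ} (c : Fin j → P → ℂ) (S : Set (Fin j → ℝ)) (m : ℕ) (f : ZMod m → P) : Prop :=
  (fun l => ext m (c l) f) ∈ S

theorem Es_eq {Ω : Type} {j : ℕ} (c : Ω → Fin j → P → ℂ) (S : Ω → Set (Fin j → ℝ)) (ω : Ω) (k : ℕ)
    (g : Fin (k + 1) → P) :
    Es (c ω) (S ω) (k + 1) g ↔ Ev FcT c (fun ω => {q | q.2 ∈ S ω}) ω (List.ofFn g) := by
  unfold Es Ev
  simp only [ext_eq]
  have : List.ofFn g ≠ [] := by simp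
  simp [this]

/-- one-Lipschitz maps of the lattice -/
def Lip1 (c : P → ℂ) : Prop := ∀ x y : P, ‖c x - c y‖ ≤ ((|x.1 - y.1| + |x.2 - y.2| : ℤ) : ℝ)

theorem lip_shift {c : P → ℂ} (hc : Lip1 c) (a : P) : Lip1 fun y => c (a + y) := by
  intro x y
  have := hc (a + x) (a + y)
  simp only [Prod.fst_add, Prod.snd_add, add_sub_add_left_eq_sub] at this
  exact this

theorem fw_max (c : P → ℂ) (hc : Lip1 c) (Q : ℕ) (q : ℝ) (hq0 : 0 ≤ q) (hq : q ≤ Q) :
    Fw Q78.UR.Sq.rule (2 * Q78.UR.Sq.rule.c0) (2 * Q) (fun w => (max 1 (dm FcT c w)) ^ q) := by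
  have hmono : ∀ r r' : ℝ, r' ≤ r → (max 1 r') ^ q ≤ (max 1 r) ^ q := fun r r' h =>
    Real.rpow_le_rpow (le_max_of_le_left zero_le_one) (max_le_max le_rfl h) hq0
  have hpos : ∀ r : ℝ, 0 ≤ (max 1 r) ^ q := fun r =>
    Real.rpow_nonneg (le_max_of_le_left zero_le_one) _
  refine ⟨aw_dm feat_S c (fun _ r => (max 1 r) ^ q) (fun x r => hpos r) (fun x r r' g1 g2 => ?_),
    fun n hn w hw => Real.one_le_rpow (le_max_left _ _) hq0, fun n w hw => ?_⟩
  · have h3 := hmono r r' g1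
    have h4 := hpos r'
    rw [abs_le]
    constructor <;> linarith
  · have h0 : (0 : ℝ) ≤ n := Nat.cast_nonneg n
    have h2 : dm FcT c w ≤ (2 * (n : ℝ) + 2) ^ 2 := by
      refine Metric.diam_le_of_forall_dist_le (by positivity) ?_
      rintro _ ⟨x, hx, rfl⟩ _ ⟨y, hy, rfl⟩
      have hmem : ∀ (z : P), z ∈ FF FcT w → z ∈ w := by
        intro z hz
        rw [mem_FF] at hz
        obtain ⟨u, hu, h⟩ := hz
        unfold FcT at h
        rw [mem_singleton] at h
        rw [h]; exact hu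
      have hx' := coord_le hw (hmem x hx)
      have hy' := coord_le hw (hmem y hy)
      rw [dist_eq_norm]
      refine (hc x y).trans ?_
      have h3 : |x.1 - y.1| + |x.2 - y.2| ≤ 4 * (n : ℤ) := by
        have a1 := abs_sub x.1 y.1
        have a2 := abs_sub x.2 y.2
        omega
      have h4 : ((|x.1 - y.1| + |x.2 - y.2| : ℤ) : ℝ) ≤ 4 * (n : ℝ) := by exact_mod_cast h3
      nlinarith
    have g1 : (1 : ℝ) ≤ (2 * (n : ℝ) + 2) ^ 2 := one_le_pow₀ (by linarith)
    calc (max 1 (dm FcT c w)) ^ q ≤ ((2 * (n : ℝ) + 2) ^ 2) ^ q :=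
          Real.rpow_le_rpow (le_max_of_le_left zero_le_one) (max_le g1 h2) hq0
      _ ≤ ((2 * (n : ℝ) + 2) ^ 2) ^ (Q : ℝ) := Real.rpow_le_rpow_of_exponent_le g1 hq
      _ = (2 * (n : ℝ) + 2) ^ (2 * Q) := by rw [Real.rpow_natCast, ← pow_mul]

/-- a polygon has width at least one -/
theorem one_le_width (m : ℕ) (hm : 3 ≤ m) (f : ZMod m → P) (hf : Poly m f) :
    1 ≤ ext m (fun x => ((x.1 : ℝ) : ℂ)) f := by
  have hne : NeZero m := ⟨by omega⟩
  have h2 : (2 : ZMod m) ≠ 0 := by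
    intro h
    have h3 : (m : ℕ) ∣ 2 := (ZMod.natCast_eq_zero_iff 2 m).mp (by exact_mod_cast h)
    have := Nat.le_of_dvd (by norm_num) h3
    omega
  -- two sites with different first coordinates
  obtain ⟨i, j, hij⟩ : ∃ i j, (f i).1 ≠ (f j).1 := by
    by_contra hcon
    push Not at hcon
    obtain ⟨i, -, hi⟩ := Finset.exists_max_image (univ : Finset (ZMod m)) (fun i => (f i).2)
      ⟨0, mem_univ _⟩
    have h1 := hf.2 i
    have h3 := hf.2 (i - 1)
    rw [sub_add_cancel] at h3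
    have e1 := hcon (i + 1) i
    have e2 := hcon (i - 1) i
    rw [e1, sub_self, abs_zero, zero_add] at h1
    rw [← e2, sub_self, abs_zero, zero_add] at h3
    have m1 := hi (i + 1) (mem_univ _)
    have m2 := hi (i - 1) (mem_univ _)
    have h4 : (f (i + 1)).2 = (f (i - 1)).2 := by
      rcases abs_cases ((f (i + 1)).2 - (f i).2) with ⟨a1, a2⟩ | ⟨a1, a2⟩ <;>
      rcases abs_cases ((f i).2 - (f (i - 1)).2) with ⟨b1, b2⟩ | ⟨b1, b2⟩ <;> omega
    have h5 : i + 1 = i - 1 := hf.1 (Prod.ext (e1.trans e2.symm) h4)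
    apply h2
    have h6 : i + 2 = i + 0 := by
      calc i + 2 = i + 1 + 1 := by ring
        _ = i - 1 + 1 := by rw [h5]
        _ = i + 0 := by ring
    exact add_left_cancel h6
  unfold ext
  have hfin : (Set.range fun i => (((f i).1 : ℝ) : ℂ)).Finite := Set.finite_range _
  refine le_trans ?_ (Metric.dist_le_diam_of_mem hfin.isBounded ⟨i, rfl⟩ ⟨j, rfl⟩)
  rw [dist_eq_norm, ← Complex.ofReal_sub, Complex.norm_real, Real.norm_eq_abs]
  have h3 : (1 : ℤ) ≤ |(f i).1 - (f j).1| := Int.one_le_abs (sub_ne_zero.2 hij)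
  exact_mod_cast h3

end

end Q78.UW.Po
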