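import Pool.Agent.Q78.UW.Law
import Pool.Agent.Q294.Av8
import Pool.Agent.Q78.UR.Sq
import Pool.Agent.Q68.PL.Lat

set_option autoImplicit false

/-! Events which are determined by the last point and by finitely many witnesses; diameters. -/

namespace Q78.UW

open Finset Filter Topology MeasureTheory TH966.AK Q294.Av Q294.Rs
open scoped Classical

noncomputable section

variable {A : P → P → Prop} {Z : Rule A} {μ K : ℝ} {Fc : P → Finset P}

theorem ne_nil {n : ℕ} {w : List P} (hw : w ∈ Kw A n) (Z : Rule A) : w ≠ [] := by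
  have hw' := (Z.mem_K).1 hw
  rintro rfl
  have := hw'.1
  simp at this

/-- events with finitely many witnesses -/
theorem inv_wit {ι : Type} [Fintype ι] (R : P → P → Prop) (E : List P → Prop)
    (h : ∀ n, ∀ w ∈ Kw A (n + Z.s), ∃ φ : ι → P, (∀ j, φ j ∈ FF Fc w) ∧
      ∀ L R' U U' : List P, Z.T U U' → w = L ++ U' ++ R' → Walk A (L ++ U ++ R') →
        (∀ j, φ j ∈ FF Fc (L ++ U ++ R')) → (E (L ++ U ++ R') ↔ E w)) :
    Inv Z R (Fintype.card ι * Z.c0) E := by
  intro n w hw
  have hw0 := KR_sub R _ hw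
  obtain ⟨φ, hφ, hall⟩ := h n w hw0
  have h1 : ((inn Z R).sys.B w).filter (fun q => ¬ (E (Rule.rep w q.2 q.1) ↔ E w)) ⊆
      (univ : Finset ι).biUnion fun j =>
        (Z.B w).filter (fun q => φ j ∉ FF Fc (Rule.rep w q.2 q.1)) := by
    rintro ⟨U, U'⟩ hq
    rw [mem_filter] at hq
    have hqB := ((mem_sysB (inn Z R)).1 hq.1).1
    have hne := hq.2
    rw [mem_biUnion]
    by_contra hcon
    push Not at hcon
    have hj : ∀ j, φ j ∈ FF Fc (Rule.rep w U' U) := by
      intro j
      have h2 := hcon j (mem_univ j)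
      rw [mem_filter, not_and, not_not] at h2
      exact h2 hqB
    rw [Rule.mem_B] at hqB
    have hw' := (Z.mem_K).1 hw0
    obtain ⟨L, R', h1, h2, h3, -⟩ := Rule.rep_all (Z.pair _ _ hqB.1).symm hw'.2 hqB.2
    simp only at h1 h2 h3 hqB hne hj
    rw [h2] at hne hj
    exact hne (hall L R' U U' hqB.1 h1 h3 hj)
  have h2 : (((inn Z R).sys.B w).filter (fun q => ¬ (E (Rule.rep w q.2 q.1) ↔ E w))).card ≤
      Fintype.card ι * Z.c0 := by
    refine (card_le_card h1).trans (card_biUnion_le.trans ?_)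
    refine (sum_le_sum fun j _ => lost_card hw0 (hφ j)).trans ?_
    simp
  exact_mod_cast h2

/-- joint events of the last point and several diameters -/
theorem inv_dm (hF : Feat Z Fc) {m : ℕ} (c : Fin m → P → ℂ) (R : P → P → Prop)
    (S : Set (P × (Fin m → ℝ))) :
    Inv Z R (Fintype.card (Fin m × Bool) * Z.c0)
      (fun w => (lst w, fun j => dm Fc (c j) w) ∈ S) := by
  refine inv_wit (Fc := Fc) R _ fun n w hw => ?_
  have hne := ne_nil hw Z
  choose φ₁ φ₂ h1 h2 h3 using fun j => dm_att hF (c j) w hne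
  refine ⟨fun p => if p.2 then φ₁ p.1 else φ₂ p.1, fun p => ?_, fun L R' U U' hT hw1 hw2 hφ => ?_⟩
  · dsimp only
    split_ifs
    · exact h1 _
    · exact h2 _
  · have hp := Z.pair _ _ hT
    have hl : lst (L ++ U ++ R') = lst w := by rw [hw1, Q294.Av.lst_rep hp]
    have hsub : FF Fc (L ++ U ++ R') ⊆ FF Fc w := by
      rw [hw1]
      exact FF_sub hF hT
    have hd : (fun j => dm Fc (c j) (L ++ U ++ R')) = fun j => dm Fc (c j) w := by
      funext j
      refine le_antisymm (dm_mono _ hsub) ?_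
      rw [h3 j]
      have a1 := hφ (j, true)
      have a2 := hφ (j, false)
      simp only [if_true, Bool.false_eq_true, if_false] at a1 a2
      exact dm_le _ _ a1 a2
    rw [hl, hd]

/-- the features on the square lattice are the points -/
theorem feat_S : Feat Q78.UR.Sq.rule FcT := by
  refine ⟨?_, fun x => ⟨x, by simp [FcT]⟩⟩
  rintro U U' ⟨p, v, u, r, rfl, rfl, -⟩ x hx φ hφ
  unfold FcT at hφ
  rw [mem_singleton] at hφ
  subst hφ
  refine ⟨φ, ?_, by simp [FcT]⟩
  simp only [List.mem_cons, List.not_mem_nil, or_false] at hx ⊢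
  tauto

open Q68.PL in
/-- positions on the square lattice -/
theorem pos_S : Pos Q78.UR.Sq.rule 3 posS := by
  refine ⟨by norm_num, ?_, sepS, fun p x h1 h2 => ?_, fun n x h1 h2 => ?_⟩
  · unfold posS
    simp [Complex.ext_iff]
  · change |p.1 - x.1| ≤ ((2 : ℕ) : ℤ) at h1
    change |p.2 - x.2| ≤ ((2 : ℕ) : ℤ) at h2
    have h3 : ‖posS x - posS p‖ ^ 2 ≤ 8 := by
      rw [Complex.sq_norm, Complex.normSq_apply]
      unfold posS
      simp only [Complex.sub_re, Complex.sub_im]
      have a1 : |((p.1 : ℝ) - x.1)| ≤ 2 := by exact_mod_cast h1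
      have a2 : |((p.2 : ℝ) - x.2)| ≤ 2 := by exact_mod_cast h2
      obtain ⟨b1, b2⟩ := abs_le.1 a1
      obtain ⟨b3, b4⟩ := abs_le.1 a2
      nlinarith
    have h4 : 0 ≤ ‖posS x - posS p‖ := norm_nonneg _
    nlinarith
  · refine (Complex.norm_le_abs_re_add_abs_im _).trans ?_
    unfold posS
    have a1 : |(x.1 : ℝ)| ≤ n := by exact_mod_cast h1
    have a2 : |(x.2 : ℝ)| ≤ n := by exact_mod_cast h2
    have h0 : (0 : ℝ) ≤ n := Nat.cast_nonneg n
    simp only
    linarith

end

end Q78.UW
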